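import Pool.Agent.LibRS.Defs

set_option autoImplicit false
namespace LibRS
open Equiv

variable {F G Q : Type}

theorem t06_nu_zero [Field F] [Group G] [Group Q] (X : Ext F G Q) : X.ν 0 = 1 := by
  have h := X.ν_add 0 0
  rw [add_zero] at h
  exact (mul_eq_left.1 h.symm)

theorem t06_nu_neg [Field F] [Group G] [Group Q] (X : Ext F G Q) (n : F) :
    X.ν (-n) = (X.ν n)⁻¹ := by
  apply eq_inv_of_mul_eq_one_left
  rw [← X.ν_add, neg_add_cancel, t06_nu_zero]

theorem t06_pi_nu [Field F] [Group G] [Group Q] (X : Ext F G Q) (n : F) :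
    X.π (X.ν n) = 1 := (X.π_ker _).2 ⟨n, rfl⟩

theorem t06_bij [Field F] [Group G] [Group Q] (X : Ext F G Q) (E : Q → G)
    (hE : ∀ y, X.π (E y) = y) :
    Function.Bijective (fun p : F × Q => X.ν p.1 * E p.2) := by
  constructor
  · rintro ⟨n, y⟩ ⟨n', y'⟩ h
    simp only at h
    have h1 := congrArg X.π h
    rw [map_mul, map_mul, t06_pi_nu, t06_pi_nu, hE, hE, one_mul, one_mul] at h1
    subst h1
    have h2 := X.ν_inj (mul_right_cancel h)
    rw [h2]
  · intro g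
    have : X.π (g * (E (X.π g))⁻¹) = 1 := by
      rw [map_mul, map_inv, hE, mul_inv_cancel]
    obtain ⟨n, hn⟩ := (X.π_ker _).1 this
    refine ⟨(n, X.π g), ?_⟩
    simp only
    rw [hn, inv_mul_cancel_right]

theorem exists_lift [Field F] [Group G] [Group Q] (X : Ext F G Q) (θ : Perm Q)
    (hθ : Orth θ) (c : Q → F) (hc0 : ∀ y, c y ≠ 0) (hc1 : ∀ y, c y ≠ 1) (E : Q → G)
    (hE : ∀ y, X.π (E y) = y) (hE1 : E 1 = 1) :
    ∃ Θ : Perm G, Orth Θ ∧ (∀ n y, Θ (X.ν n * E y) = X.ν (c y * n) * E (θ y)) := by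
  let e : F × Q ≃ G := Equiv.ofBijective _ (t06_bij X E hE)
  have he : ∀ n y, e (n, y) = X.ν n * E y := fun n y => rfl
  let Θ : Perm G := (e.symm.trans (liftPerm θ c hc0)).trans e
  have hΘ : ∀ n y, Θ (X.ν n * E y) = X.ν (c y * n) * E (θ y) := by
    intro n y
    have h1 : Θ (X.ν n * E y) = e (liftPerm θ c hc0 (e.symm (X.ν n * E y))) := rfl
    rw [h1, ← he, Equiv.symm_apply_apply]
    rfl
  refine ⟨Θ, ⟨?_, ?_⟩, hΘ⟩
  · have h := hΘ 0 1
    rw [t06_nu_zero, hE1, mul_zero, t06_nu_zero, hθ.1, hE1, one_mul] at h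
    exact h
  · intro a b hab
    obtain ⟨⟨n, y⟩, ha⟩ := (t06_bij X E hE).2 a
    obtain ⟨⟨n', y'⟩, hb⟩ := (t06_bij X E hE).2 b
    simp only at ha hb hab
    subst ha hb
    rw [hΘ, hΘ] at hab
    have key : ∀ (n : F) (y : Q), (X.ν n * E y)⁻¹ * (X.ν (c y * n) * E (θ y))
        = (E y)⁻¹ * X.ν ((c y - 1) * n) * E (θ y) := by
      intro n y
      have : X.ν ((c y - 1) * n) = (X.ν n)⁻¹ * X.ν (c y * n) := by
        rw [← t06_nu_neg, ← X.ν_add]
        congr 1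
        ring
      rw [this, mul_inv_rev]
      group
    rw [key, key] at hab
    have h1 := congrArg X.π hab
    simp only [map_mul, map_inv, t06_pi_nu, hE, mul_one] at h1
    have hy : y = y' := hθ.2 h1
    subst hy
    have h2 := mul_left_cancel (mul_right_cancel hab)
    have h3 := X.ν_inj h2
    have h4 : n = n' := mul_left_cancel₀ (sub_ne_zero.2 (hc1 y)) h3
    rw [h4]

theorem orth_trade [Group G] [Finite G] (Θ σ τ : Perm G) (h : Orth Θ) (hσ : Θ (σ 1) = 1)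
    (hτ : ∀ x, x⁻¹ * Θ (σ x) = (τ x)⁻¹ * Θ (τ x)) : Orth (Θ * σ) := by
  refine ⟨by rw [Perm.mul_apply]; exact hσ, ?_⟩
  intro a b hab
  simp only [Perm.mul_apply] at hab
  rw [hτ, hτ] at hab
  exact τ.injective (h.2 hab)

end LibRS
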