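import Pool.Agent.LibRS.Defs

set_option autoImplicit false
namespace LibRS
open Equiv

variable {F G Q : Type}

theorem t07_cycleOn {G : Type} [Group G] [Fintype G] [DecidableEq G] (θ : Perm G) (h1 : θ 1 = 1)
    (hc : OneCyc θ) : θ.IsCycleOn ((Finset.univ.erase (1 : G) : Finset G) : Set G) := by
  refine ⟨⟨?_, θ.injective.injOn, ?_⟩, ?_⟩
  · intro x hx
    simp only [Finset.coe_erase, Finset.coe_univ, Set.mem_sdiff, Set.mem_univ,
      Set.mem_singleton_iff, true_and] at hx ⊢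
    intro h
    exact hx (θ.injective (h.trans h1.symm))
  · intro y hy
    simp only [Finset.coe_erase, Finset.coe_univ, Set.mem_sdiff, Set.mem_univ,
      Set.mem_singleton_iff, true_and] at hy
    refine ⟨θ.symm y, ?_, by simp⟩
    simp only [Finset.coe_erase, Finset.coe_univ, Set.mem_sdiff, Set.mem_univ,
      Set.mem_singleton_iff, true_and]
    intro h
    apply hy
    have := congrArg θ h
    simpa [h1] using this
  · intro x hx y hy
    simp only [Finset.coe_erase, Finset.coe_univ, Set.mem_sdiff, Set.mem_univ,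
      Set.mem_singleton_iff, true_and] at hx hy
    exact hc x y hx hy

theorem t07_prod [Field F] [Group Q] [Fintype Q] [DecidableEq Q] (θ : Perm Q)
    (h1 : θ 1 = 1) (hc : OneCyc θ) (c : Q → F) (y : Q) (hy : y ≠ 1) :
    (θ ^ (Fintype.card Q - 1)) y = y ∧
    ∏ j ∈ Finset.range (Fintype.card Q - 1), c ((θ ^ j) y)
      = ∏ y' ∈ Finset.univ.erase (1 : Q), c y' := by
  have hcyc := t07_cycleOn θ h1 hc
  have hcard : (Finset.univ.erase (1 : Q)).card = Fintype.card Q - 1 := by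
    rw [Finset.card_erase_of_mem (Finset.mem_univ _), Finset.card_univ]
  have hmem : y ∈ Finset.univ.erase (1 : Q) := by simp [hy]
  have h2 : (θ ^ (Fintype.card Q - 1)) y = y := by
    rw [← hcard]
    exact hcyc.pow_card_apply hmem
  refine ⟨h2, ?_⟩
  have hmaps : ∀ i : ℕ, (θ ^ i) y ≠ 1 := by
    intro i hi
    have h1' : ∀ i : ℕ, (θ ^ i) (1 : Q) = 1 := by
      intro i
      induction i with
      | zero => simp
      | succ i ih => rw [pow_succ', Perm.mul_apply, ih, h1]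
    apply hy
    apply (θ ^ i).injective
    rw [hi, h1']
  have hinj : Set.InjOn (fun j : ℕ => (θ ^ j) y) (Finset.range (Fintype.card Q - 1) : Set ℕ) := by
    intro i hi j hj hij
    simp only [Finset.coe_range, Set.mem_Iio] at hi hj
    have := (hcyc.pow_apply_eq_pow_apply hmem).1 hij
    rw [hcard] at this
    exact Nat.ModEq.eq_of_lt_of_lt this hi hj
  have himg : (Finset.range (Fintype.card Q - 1)).image (fun j : ℕ => (θ ^ j) y)
      = Finset.univ.erase (1 : Q) := by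
    apply Finset.eq_of_subset_of_card_le
    · intro z hz
      simp only [Finset.mem_image] at hz
      obtain ⟨j, -, rfl⟩ := hz
      simp [hmaps j]
    · rw [hcard, Finset.card_image_of_injOn hinj, Finset.card_range]
  rw [← himg, Finset.prod_image hinj]

theorem t07_pow [Field F] [Group G] [Group Q] (X : Ext F G Q) (θ : Perm Q) (c : Q → F)
    (E : Q → G) (Θ : Perm G) (hΘ : ∀ n y, Θ (X.ν n * E y) = X.ν (c y * n) * E (θ y))
    (n : F) (y : Q) (i : ℕ) :
    (Θ ^ i) (X.ν n * E y)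
      = X.ν ((∏ j ∈ Finset.range i, c ((θ ^ j) y)) * n) * E ((θ ^ i) y) := by
  induction i with
  | zero => simp
  | succ i ih =>
    rw [pow_succ', Perm.mul_apply, ih, hΘ, Finset.prod_range_succ, pow_succ', Perm.mul_apply]
    congr 2
    ring

theorem lift_cyc_N [Field F] [Fintype F] [Group G] [Finite G] [Group Q] (X : Ext F G Q)
    (Θ : Perm G) (g : F) (hg : Prim g) (hΘ : ∀ n, Θ (X.ν n) = X.ν (g * n)) (n n' : F)
    (hn : n ≠ 0) (hn' : n' ≠ 0) : Θ.SameCycle (X.ν n) (X.ν n') := by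
  obtain ⟨i, hi⟩ := hg.2 (n' / n) (div_ne_zero hn' hn)
  have hpow : ∀ i : ℕ, (Θ ^ i) (X.ν n) = X.ν (g ^ i * n) := by
    intro i
    induction i with
    | zero => simp
    | succ i ih =>
      rw [pow_succ', Perm.mul_apply, ih, hΘ]
      congr 1
      ring
  refine ⟨(i : ℤ), ?_⟩
  rw [zpow_natCast, hpow, ← hi, div_mul_cancel₀ _ hn]

theorem lift_cyc_E [Group G] [Finite G] [Group Q] (θ : Perm Q) (hθ : OneCyc θ)
    (Θ : Perm G) (E : Q → G) (hΘ : ∀ y, Θ (E y) = E (θ y)) (y y' : Q)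
    (hy : y ≠ 1) (hy' : y' ≠ 1) : Θ.SameCycle (E y) (E y') := by
  have hpow : ∀ (i : ℕ) (y : Q), (Θ ^ i) (E y) = E ((θ ^ i) y) := by
    intro i
    induction i with
    | zero => simp
    | succ i ih =>
      intro y
      rw [pow_succ', Perm.mul_apply, ih, hΘ, pow_succ', Perm.mul_apply]
  obtain ⟨i, hi⟩ := hθ y y' hy hy'
  rcases Int.eq_nat_or_neg i with ⟨k, rfl | rfl⟩
  · refine ⟨(k : ℤ), ?_⟩
    rw [zpow_natCast] at hi ⊢
    rw [hpow, hi]
  · have h1 : (θ ^ k) y' = y := by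
      rw [← hi, zpow_neg, zpow_natCast, ← Perm.mul_apply, mul_inv_cancel, Perm.one_apply]
    have h2 : Θ.SameCycle (E y') (E y) := ⟨(k : ℤ), by rw [zpow_natCast, hpow, h1]⟩
    exact h2.symm

theorem lift_cyc_one [Field F] [Fintype F] [Group G] [Finite G] [Group Q] [Fintype Q]
    [DecidableEq Q] (X : Ext F G Q)
    (θ : Perm Q) (h1 : θ 1 = 1) (hθ : OneCyc θ) (c : Q → F) (hc0 : ∀ y, c y ≠ 0)
    (g : F) (hg : Prim g) (hprod : ∏ y ∈ Finset.univ.erase (1 : Q), c y = g)
    (E : Q → G) (Θ : Perm G) (hΘ : ∀ n y, Θ (X.ν n * E y) = X.ν (c y * n) * E (θ y))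
    (n n' : F) (y y' : Q) (hn : n ≠ 0) (hn' : n' ≠ 0) (hy : y ≠ 1) (hy' : y' ≠ 1) :
    Θ.SameCycle (X.ν n * E y) (X.ν n' * E y') := by
  have hcyc := t07_cycleOn θ h1 hθ
  have hmem : y ∈ ((Finset.univ.erase (1 : Q) : Finset Q) : Set Q) := by simp [hy]
  have hmem' : y' ∈ ((Finset.univ.erase (1 : Q) : Finset Q) : Set Q) := by simp [hy']
  have hpow := t07_pow X θ c E Θ hΘ
  -- one turn
  have hturn : ∀ (n : F), (Θ ^ (Fintype.card Q - 1)) (X.ν n * E y') = X.ν (g * n) * E y' := by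
    intro n
    obtain ⟨h2, h3⟩ := t07_prod θ h1 hθ c y' hy'
    rw [hpow, h2, h3, hprod]
  have hturns : ∀ (j : ℕ) (n : F), Θ.SameCycle (X.ν n * E y') (X.ν (g ^ j * n) * E y') := by
    intro j
    induction j with
    | zero => intro n; rw [pow_zero, one_mul]
    | succ j ih =>
      intro n
      refine (ih n).trans ?_
      refine ⟨((Fintype.card Q - 1 : ℕ) : ℤ), ?_⟩
      rw [zpow_natCast, hturn]
      congr 2
      ring
  obtain ⟨i, -, hi⟩ := (hθ y y' hy hy').exists_pow_eq''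
  have h4 : Θ.SameCycle (X.ν n * E y)
      (X.ν ((∏ j ∈ Finset.range i, c ((θ ^ j) y)) * n) * E y') := by
    refine ⟨(i : ℤ), ?_⟩
    rw [zpow_natCast, hpow, hi.2]
  refine h4.trans ?_
  set n'' := (∏ j ∈ Finset.range i, c ((θ ^ j) y)) * n with hn''
  have hn0 : n'' ≠ 0 := mul_ne_zero (Finset.prod_ne_zero_iff.2 (fun j _ => hc0 _)) hn
  obtain ⟨j, hj⟩ := hg.2 (n' / n'') (div_ne_zero hn' hn0)
  have h5 := hturns j n''
  rw [← hj, div_mul_cancel₀ _ hn0] at h5
  exact h5

end LibRS
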