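import Pool.Agent.LibRS.Defs

set_option autoImplicit false
namespace LibRS
open Equiv

variable {F G Q : Type}

theorem exists_prim (F : Type) [Field F] [Fintype F] : ∃ g : F, Prim g := by
  classical
  obtain ⟨g, hg⟩ := IsCyclic.exists_generator (α := Fˣ)
  refine ⟨(g : F), g.ne_zero, ?_⟩
  intro a ha
  have := hg (Units.mk0 a ha)
  rw [mem_zpowers_iff_mem_range_orderOf] at this
  simp only [Finset.mem_image, Finset.mem_range] at this
  obtain ⟨i, -, hi⟩ := this
  refine ⟨i, ?_⟩
  have := congrArg (Units.val) hi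
  simpa using this.symm

theorem t05_inv [Field F] [Fintype F] (g : F) (hg : Prim g) : Prim g⁻¹ := by
  refine ⟨inv_ne_zero hg.1, ?_⟩
  intro a ha
  obtain ⟨i, hi⟩ := hg.2 a⁻¹ (inv_ne_zero ha)
  refine ⟨i, ?_⟩
  rw [inv_pow, ← hi, inv_inv]

theorem t05_card_le [Field F] [Fintype F] (g : F) (hg : Prim g) (h2 : g ^ 2 = 1) :
    Fintype.card F ≤ 3 := by
  classical
  have : (Finset.univ : Finset F) ⊆ {0, 1, g} := by
    intro x _
    by_cases hx : x = 0
    · simp [hx]
    obtain ⟨i, hi⟩ := hg.2 x hx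
    rcases Nat.even_or_odd' i with ⟨j, hj | hj⟩
    · rw [hj, pow_mul, h2, one_pow] at hi
      simp [hi]
    · rw [hj, pow_succ, pow_mul, h2, one_pow, one_mul] at hi
      simp [hi]
  have h3 := Finset.card_le_card this
  have h4 : ({0, 1, g} : Finset F).card ≤ 3 := Finset.card_le_three
  rw [Finset.card_univ] at h3
  omega

theorem exists_prim_ne [Field F] [Fintype F] (hF : 5 ≤ Fintype.card F) (a : F) :
    ∃ g : F, Prim g ∧ g ≠ a := by
  obtain ⟨g, hg⟩ := exists_prim F
  by_cases h : g = a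
  · refine ⟨g⁻¹, t05_inv g hg, ?_⟩
    intro h'
    have h2 : g ^ 2 = 1 := by
      have : g⁻¹ = g := h'.trans h.symm
      have h3 : g * g⁻¹ = 1 := mul_inv_cancel₀ hg.1
      rw [this] at h3
      rw [pow_two, h3]
    have := t05_card_le g hg h2
    omega
  · exact ⟨g, hg, h⟩

/-- char 3: a primitive element which is not a root of `X ^ 2 + X - 1` -/
theorem exists_prim_char_three [Field F] [Fintype F] [CharP F 3] (hF : 9 ≤ Fintype.card F) :
    ∃ g : F, Prim g ∧ g ^ 2 + g - 1 ≠ 0 := by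
  obtain ⟨g, hg⟩ := exists_prim F
  by_cases h : g ^ 2 + g - 1 = 0
  · refine ⟨g⁻¹, t05_inv g hg, ?_⟩
    intro h'
    have hg0 := hg.1
    have h3 : (3 : F) = 0 := by
      have := CharP.cast_eq_zero F 3
      simpa using this
    have h1 : 1 + g - g ^ 2 = 0 := by
      have : g ^ 2 * ((g⁻¹) ^ 2 + g⁻¹ - 1) = 0 := by rw [h', mul_zero]
      have h4 : g ^ 2 * ((g⁻¹) ^ 2 + g⁻¹ - 1) = 1 + g - g ^ 2 := by
        field_simp
      rw [h4] at this
      exact this
    have h2 : 2 * g = 0 := by linear_combination h + h1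
    have : g = 0 := by linear_combination h3 * g - h2
    exact hg0 this
  · exact ⟨g, hg, h⟩

end LibRS
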