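import Pool.Agent.LibRS.Defs

set_option autoImplicit false

namespace LibRS

open Equiv

theorem t02_aux {α : Type} [DecidableEq α] [Finite α] (f : Perm α) (a b : α)
    (hab : ¬ f.SameCycle a b) : (f * swap a b).SameCycle (f a) a := by
  classical
  have hex : ∃ i : ℕ, 0 < i ∧ (f ^ i) a = a := by
    haveI := Fintype.ofFinite α
    exact ⟨orderOf f, orderOf_pos f, by rw [pow_orderOf_eq_one]; rfl⟩
  obtain ⟨hi0, hia⟩ := Nat.find_spec hex
  have key : ∀ j, j < Nat.find hex → ((f * swap a b) ^ j) (f a) = (f ^ (j + 1)) a := by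
    intro j
    induction j with
    | zero => intro _; simp
    | succ j ih =>
      intro hj
      rw [pow_succ' (f * swap a b), Perm.mul_apply, ih (by omega), Perm.mul_apply]
      have h1 : (f ^ (j + 1)) a ≠ a := fun h => Nat.find_min hex (by omega) ⟨Nat.succ_pos j, h⟩
      have h2 : (f ^ (j + 1)) a ≠ b := fun h => hab ⟨((j + 1 : ℕ) : ℤ), by rw [zpow_natCast]; exact h⟩
      rw [swap_apply_of_ne_of_ne h1 h2, ← Perm.mul_apply, ← pow_succ']
  refine ⟨((Nat.find hex - 1 : ℕ) : ℤ), ?_⟩
  rw [zpow_natCast, key _ (by omega)]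
  have : Nat.find hex - 1 + 1 = Nat.find hex := by omega
  rw [this]
  exact hia

theorem sameCycle_mul_swap {α : Type} [DecidableEq α] [Finite α] (f : Perm α) (a b : α)
    (hab : ¬ f.SameCycle a b) :
    (∀ x y, f.SameCycle x y → (f * swap a b).SameCycle x y) ∧ (f * swap a b).SameCycle a b := by
  have h1 : (f * swap a b).SameCycle (f a) a := t02_aux f a b hab
  have h2 : (f * swap a b).SameCycle (f b) b := by
    rw [swap_comm]
    exact t02_aux f b a fun h => hab h.symm
  have h3 : ∀ x, (f * swap a b).SameCycle x (f x) := by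
    intro x
    by_cases hxa : x = a
    · subst hxa; exact h1.symm
    by_cases hxb : x = b
    · subst hxb; exact h2.symm
    refine ⟨1, ?_⟩
    rw [zpow_one, Perm.mul_apply, swap_apply_of_ne_of_ne hxa hxb]
  refine ⟨?_, ?_⟩
  · intro x y hxy
    obtain ⟨i, hi⟩ := hxy.exists_nat_pow_eq
    have : ∀ j : ℕ, (f * swap a b).SameCycle x ((f ^ j) x) := by
      intro j
      induction j with
      | zero => exact Perm.SameCycle.refl _ _
      | succ j ih =>
        rw [pow_succ', Perm.mul_apply]
        exact ih.trans (h3 _)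
    rw [← hi]
    exact this i
  · have h4 : (f * swap a b).SameCycle b (f a) := ⟨1, by
      rw [zpow_one, Perm.mul_apply, swap_apply_right]⟩
    exact (h4.trans h1).symm

end LibRS
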