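import Pool.Agent.LibRS.Basics
import Pool.Agent.LibRS.T02
import Pool.Agent.LibRS.T06
import Pool.Agent.LibRS.T07

set_option autoImplicit false

namespace LibRS
open Equiv

section stubs

end stubs

theorem ext_core2 {F G Q : Type} [Field F] [Fintype F] [Group G] [Finite G] [Group Q] [Fintype Q]
    [DecidableEq Q] (X : Ext F G Q) (θ : Perm Q) (x h : Q) (hθ : Orth θ) (hc : OneCyc θ)
    (hp : Pat2 θ x h) (g : F) (hg : Prim g) (z : F) (hz : z ≠ 0) (h' : G) (hh' : X.π h' = h)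
    (a : F) (ha0 : a ≠ 0) (ha1 : a ≠ 1) (c : Q → F) (hc0 : ∀ y, c y ≠ 0) (hc1 : ∀ y, c y ≠ 1)
    (hcone : c 1 = g) (hcx : c x = a) (hcu : c (h * x) * X.β h' z = X.β h' (g * z))
    (hch : c h * X.β h' z = X.β h' (a * z))
    (hprod : ∏ y ∈ Finset.univ.erase (1 : Q), c y = g) :
    ∃ (Θ : Perm G) (x' k' : G), Orth Θ ∧ OneCyc Θ ∧ Pat2 Θ x' k' ∧
      ∀ n, n ≠ z → Θ (X.ν n) = X.ν (g * n) := by
  classical
  obtain ⟨hp1, hp2, hp3⟩ := hp
  have hθ1 : θ 1 = 1 := hθ.1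
  simp only [List.nodup_cons, List.mem_cons, List.not_mem_nil, or_false, not_or,
    List.nodup_nil, and_true, not_false_eq_true] at hp3
  obtain ⟨⟨h1x, h1u, h1h, h1f, h1hf⟩, ⟨hxu, hxh, hxf, hxhf⟩, ⟨huh, huf, huhf⟩, ⟨hhf, hhhf⟩, hfhf⟩ := hp3
  set u := h * x with hu
  set f := θ x with hf
  set hf' := h * f with hhf'
  have hg1 : g ≠ 1 := by rw [← hcone]; exact hc1 1
  -- the section
  obtain ⟨E₁, hE₁⟩ : ∃ E₁ : Q → G, ∀ y, X.π (E₁ y) = y :=
    ⟨fun y => (X.π_surj y).choose, fun y => (X.π_surj y).choose_spec⟩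
  set E0 : Q → G := fun y => if y = 1 then 1 else E₁ y with hE0
  have hE0π : ∀ y, X.π (E0 y) = y := by
    intro y
    by_cases hy : y = 1
    · simp [hE0, hy]
    · simp [hE0, hy, hE₁]
  set α : F := (c u)⁻¹ * X.β h' (g * z - z) with hα
  have hcα : c u * α = X.β h' (g * z - z) := by
    rw [hα, ← mul_assoc, mul_inv_cancel₀ (hc0 u), one_mul]
  have hgz : g * z - z ≠ 0 := by
    intro h0
    have : (g - 1) * z = 0 := by linear_combination h0
    rcases mul_eq_zero.1 this with h2 | h2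
    · exact hg1 (sub_eq_zero.1 h2)
    · exact hz h2
  have hα0 : α ≠ 0 := by
    intro h0
    rw [h0, mul_zero] at hcα
    exact hgz ((X.β h').map_eq_zero_iff.1 hcα.symm)
  set E : Q → G := fun y => if y = h then h' * X.ν z else if y = hf' then h' * E0 f else
    if y = u then X.ν (-α) * (h' * E0 x) else E0 y with hE
  have hEh : E h = h' * X.ν z := by simp [hE]
  have hEhf : E hf' = h' * E0 f := by simp [hE, (Ne.symm hhhf : hf' ≠ h)]
  have hEu : E u = X.ν (-α) * (h' * E0 x) := by simp [hE, huh, huhf]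
  have hEx : E x = E0 x := by simp [hE, hxh, hxhf, hxu]
  have hEf : E f = E0 f := by
    simp [hE, (Ne.symm hhf : f ≠ h), hfhf, (Ne.symm huf : f ≠ u)]
  have hE1 : E 1 = 1 := by
    simp [hE, h1h, h1hf, h1u, hE0]
  have hEπ : ∀ y, X.π (E y) = y := by
    intro y
    by_cases hy1 : y = h
    · rw [hy1, hEh, map_mul, X.π_ν, hh', mul_one]
    by_cases hy2 : y = hf'
    · rw [hy2, hEhf, map_mul, hh', hE0π]
    by_cases hy3 : y = u
    · rw [hy3, hEu, map_mul, map_mul, X.π_ν, hh', hE0π, one_mul]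
    · simp [hE, hy1, hy2, hy3, hE0π]
  clear_value E
  obtain ⟨Θ₀, hΘ₀, hform⟩ := exists_lift X θ hθ c hc0 hc1 E hEπ hE1
  have hΘE : ∀ y, Θ₀ (E y) = E (θ y) := by
    intro y
    have := hform 0 y
    rwa [mul_zero, X.ν_zero, one_mul, one_mul] at this
  have hΘN : ∀ n, Θ₀ (X.ν n) = X.ν (g * n) := by
    intro n
    have := hform n 1
    rwa [hE1, mul_one, hcone, hθ1, hE1, mul_one] at this
  -- the four points
  obtain ⟨p₁, hp₁⟩ : ∃ p : G, p = E x := ⟨_, rfl⟩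
  obtain ⟨p₂, hp₂⟩ : ∃ p : G, p = X.ν z := ⟨_, rfl⟩
  obtain ⟨p₃, hp₃⟩ : ∃ p : G, p = h' * E x := ⟨_, rfl⟩
  obtain ⟨p₄, hp₄⟩ : ∃ p : G, p = h' * X.ν z := ⟨_, rfl⟩
  have π₁ : X.π p₁ = x := by rw [hp₁]; exact hEπ x
  have π₂ : X.π p₂ = 1 := by rw [hp₂]; exact X.π_ν z
  have π₃ : X.π p₃ = u := by rw [hp₃, map_mul, hh', hEπ]
  have π₄ : X.π p₄ = h := by rw [hp₄, map_mul, hh', X.π_ν, mul_one]
  have ne_of_π : ∀ {a b : G}, X.π a ≠ X.π b → a ≠ b := fun hab hab' => hab (by rw [hab'])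
  have n12 : p₁ ≠ p₂ := ne_of_π (by rw [π₁, π₂]; exact Ne.symm h1x)
  have n13 : p₁ ≠ p₃ := ne_of_π (by rw [π₁, π₃]; exact hxu)
  have n14 : p₁ ≠ p₄ := ne_of_π (by rw [π₁, π₄]; exact hxh)
  have n23 : p₂ ≠ p₃ := ne_of_π (by rw [π₂, π₃]; exact h1u)
  have n24 : p₂ ≠ p₄ := ne_of_π (by rw [π₂, π₄]; exact h1h)
  have n34 : p₃ ≠ p₄ := ne_of_π (by rw [π₃, π₄]; exact huh)
  have e₁ : Θ₀ p₁ = E f := by rw [hp₁]; exact hΘE x
  have e₂ : Θ₀ p₂ = X.ν (g * z) := by rw [hp₂]; exact hΘN z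
  have hp₃' : p₃ = X.ν α * E u := by
    rw [hp₃, hEu, X.ν_mul', add_neg_cancel, X.ν_zero, one_mul, hEx]
  have e₃ : Θ₀ p₃ = h' * X.ν (g * z) := by
    rw [hp₃', hform, hcα, hp1, hEh, ← mul_assoc, ← X.mul_ν, mul_assoc, X.ν_mul]
    congr 2; ring
  have e₄ : Θ₀ p₄ = h' * E f := by
    rw [hp₄, ← hEh, hΘE, hp2, hEhf, hEf]
  -- the trade
  obtain ⟨s1, s2, s3, s4, s5⟩ := swap_swap_apply n13 n14 n23 n24
  obtain ⟨t1, t3, t2, t4, t5⟩ := swap_swap_apply (a := p₁) (b := p₃) (c := p₂) (d := p₄)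
    n12 n14 n23.symm n34
  set σ : Perm G := swap p₁ p₂ * swap p₃ p₄ with hσ
  set τ : Perm G := swap p₁ p₃ * swap p₂ p₄ with hτ
  have one_ne₁ : (1 : G) ≠ p₁ := ne_of_π (by rw [π₁, map_one]; exact h1x)
  have one_ne₂ : (1 : G) ≠ p₂ := fun h0 => hz (X.ν_eq_one (hp₂.symm.trans h0.symm))
  have one_ne₃ : (1 : G) ≠ p₃ := ne_of_π (by rw [π₃, map_one]; exact h1u)
  have one_ne₄ : (1 : G) ≠ p₄ := ne_of_π (by rw [π₄, map_one]; exact h1h)
  have hOrth : Orth (Θ₀ * σ) := by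
    apply orth_trade Θ₀ σ τ hΘ₀
    · rw [s5 1 one_ne₁ one_ne₂ one_ne₃ one_ne₄]; exact hΘ₀.1
    · intro y
      by_cases y1 : y = p₁
      · rw [y1, s1, t1, e₂, e₃, hp₃, hp₁]; group
      by_cases y2 : y = p₂
      · rw [y2, s2, t2, e₁, e₄, hp₄, hp₂]; group
      by_cases y3 : y = p₃
      · rw [y3, s3, t3, e₁, e₄, hp₃, hp₁]; group
      by_cases y4 : y = p₄
      · rw [y4, s4, t4, e₂, e₃, hp₄, hp₂]; group
      rw [s5 y y1 y2 y3 y4, t5 y y1 y3 y2 y4]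
  -- the cycles
  have hΘσ : Θ₀ * σ = (Θ₀ * swap p₁ p₂) * swap p₃ p₄ := by rw [hσ, mul_assoc]
  have m0 : ¬ Θ₀.SameCycle p₁ p₂ := by
    intro hs
    refine not_sameCycle_of_inv Θ₀ {y | X.π y = 1} ?_ (a := p₂) (b := p₁) π₂ ?_ hs.symm
    · intro y hy
      obtain ⟨n, rfl⟩ := (X.π_ker y).1 hy
      rw [hΘN]
      exact X.π_ν _
    · intro hy
      exact h1x (π₁.symm.trans hy).symm
  obtain ⟨m1, m1'⟩ := sameCycle_mul_swap Θ₀ p₁ p₂ m0
  have m2 : ¬ (Θ₀ * swap p₁ p₂).SameCycle p₃ p₄ := by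
    refine not_sameCycle_of_inv _ {y | ∃ n q, n ≠ 0 ∧ q ≠ 1 ∧ y = X.ν n * E q} ?_ ?_ ?_
    · rintro y ⟨n, q, hn, hq, rfl⟩
      have hne1 : X.ν n * E q ≠ p₁ := by
        intro h0
        have h2 : X.ν n * E q = X.ν 0 * E x := by rw [h0, X.ν_zero, one_mul, hp₁]
        exact hn (X.coord_inj hEπ h2).1
      have hne2 : X.ν n * E q ≠ p₂ := by
        apply ne_of_π
        rw [π₂, map_mul, X.π_ν, hEπ, one_mul]
        exact hq
      refine ⟨c q * n, θ q, mul_ne_zero (hc0 q) hn, ?_, ?_⟩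
      · intro h0
        exact hq (θ.injective (h0.trans hθ1.symm))
      · rw [Perm.mul_apply, swap_apply_of_ne_of_ne hne1 hne2, hform]
    · exact ⟨α, u, hα0, Ne.symm h1u, hp₃'⟩
    · rintro ⟨n, q, hn, hq, h0⟩
      have h2 : X.ν 0 * E h = X.ν n * E q := by rw [← h0, X.ν_zero, one_mul, hEh, hp₄]
      exact hn (X.coord_inj hEπ h2).1.symm
  obtain ⟨m3, m3'⟩ := sameCycle_mul_swap (Θ₀ * swap p₁ p₂) p₃ p₄ m2
  rw [← hΘσ] at m3 m3'
  have hall : ∀ y, y ≠ 1 → (Θ₀ * σ).SameCycle y p₄ := by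
    intro y hy
    have h14 : (Θ₀ * σ).SameCycle p₁ p₄ := by
      have := lift_cyc_E θ hc Θ₀ E hΘE x h (Ne.symm h1x) (Ne.symm h1h)
      rw [hEh, ← hp₁, ← hp₄] at this
      exact m3 _ _ (m1 _ _ this)
    obtain ⟨n, hn⟩ := X.exists_coord hEπ y
    by_cases hq : X.π y = 1
    · rw [hq, hE1, mul_one] at hn
      have hn0 : n ≠ 0 := by
        rintro rfl
        rw [X.ν_zero] at hn
        exact hy hn
      have h2 : Θ₀.SameCycle y p₂ := by
        rw [hn, hp₂]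
        exact lift_cyc_N X Θ₀ g hg hΘN n z hn0 hz
      exact ((m3 _ _ (m1 _ _ h2)).trans (m3 _ _ m1').symm).trans h14
    · by_cases hn0 : n = 0
      · rw [hn0, X.ν_zero, one_mul] at hn
        have h2 : Θ₀.SameCycle y p₄ := by
          have := lift_cyc_E θ hc Θ₀ E hΘE (X.π y) h hq (Ne.symm h1h)
          rwa [hEh, ← hn, ← hp₄] at this
        exact m3 _ _ (m1 _ _ h2)
      · have h2 : Θ₀.SameCycle y p₃ := by
          have := lift_cyc_one X θ hθ1 hc c hc0 g hg hprod E Θ₀ hform n α (X.π y) u hn0 hα0 hq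
            (Ne.symm h1u)
          rwa [← hn, ← hp₃'] at this
        exact (m3 _ _ (m1 _ _ h2)).trans m3'
  have hcyc : OneCyc (Θ₀ * σ) := fun y y' hy hy' => (hall y hy).trans (hall y' hy').symm
  have hoff : ∀ y, y ≠ p₁ → y ≠ p₂ → y ≠ p₃ → y ≠ p₄ → (Θ₀ * σ) y = Θ₀ y := by
    intro y y1 y2 y3 y4
    rw [Perm.mul_apply, s5 y y1 y2 y3 y4]
  -- the pattern
  have hβz : X.β h' z ≠ 0 := fun h0 => hz ((X.β h').map_eq_zero_iff.1 h0)
  set x' : G := X.ν (-z) * E x with hx'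
  have πx' : X.π x' = x := by rw [hx', map_mul, X.π_ν, one_mul, hEπ]
  have hhx' : h' * x' = X.ν (-(X.β h' z)) * p₃ := by
    rw [hx', X.mul_ν', map_neg, hp₃]
  have πhx' : X.π (h' * x') = u := by rw [map_mul, hh', πx']
  have v1 : (Θ₀ * σ) x' = X.ν (-(a * z)) * E f := by
    rw [hoff]
    · rw [hx', hform, hcx, ← hf]; congr 2; ring
    · intro h0
      have : X.ν (-z) * E x = X.ν 0 * E x := by rw [← hx', h0, X.ν_zero, one_mul, hp₁]
      exact hz (neg_eq_zero.1 (X.coord_inj hEπ this).1)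
    · exact ne_of_π (by rw [πx', π₂]; exact Ne.symm h1x)
    · exact ne_of_π (by rw [πx', π₃]; exact hxu)
    · exact ne_of_π (by rw [πx', π₄]; exact hxh)
  have v2 : (Θ₀ * σ) (h' * x') = h' := by
    rw [hoff]
    · rw [hhx', hp₃', X.ν_mul', hform, hp1, hEh, mul_add, mul_neg, hcu, hcα, map_sub,
        ← mul_assoc, show -(X.β h' (g * z)) + (X.β h' (g * z) - X.β h' z) = X.β h' (-z) by
          rw [map_neg]; ring, ← X.mul_ν, mul_assoc, X.ν_mul, neg_add_cancel, X.ν_zero, mul_one]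
    · exact ne_of_π (by rw [πhx', π₁]; exact Ne.symm hxu)
    · exact ne_of_π (by rw [πhx', π₂]; exact Ne.symm h1u)
    · intro h0
      rw [hhx'] at h0
      have : X.ν (-(X.β h' z)) = 1 := mul_eq_right.1 h0
      exact hβz (neg_eq_zero.1 (X.ν_eq_one this))
    · exact ne_of_π (by rw [πhx', π₄]; exact huh)
  have hh'E : h' = X.ν (-(X.β h' z)) * E h := by
    rw [hEh, ← mul_assoc, ← map_neg, ← X.mul_ν, mul_assoc, X.ν_mul, neg_add_cancel, X.ν_zero,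
      mul_one]
  have v3 : (Θ₀ * σ) h' = h' * (X.ν (-(a * z)) * E f) := by
    rw [hoff]
    · conv_lhs => rw [hh'E]
      rw [hform, hp2, hEhf, mul_neg, hch, ← hEf, X.mul_ν', map_neg]
    · exact ne_of_π (by rw [hh', π₁]; exact Ne.symm hxh)
    · exact ne_of_π (by rw [hh', π₂]; exact Ne.symm h1h)
    · exact ne_of_π (by rw [hh', π₃]; exact Ne.symm huh)
    · intro h0
      have h2 : h' * 1 = h' * X.ν z := by rw [mul_one, ← hp₄]; exact h0
      exact hz (X.ν_eq_one (mul_left_cancel h2).symm)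
  refine ⟨Θ₀ * σ, x', h', hOrth, hcyc, ⟨v2, ?_, ?_⟩, ?_⟩
  · rw [v3, v1]
  · have hnd : ([1, x', h' * x', h', (Θ₀ * σ) x', h' * (Θ₀ * σ) x'].map X.π).Nodup := by
      rw [v1]
      simp only [List.map_cons, List.map_nil, map_one, map_mul, πx', hh', X.π_ν, one_mul, hEπ]
      simp only [List.nodup_cons, List.mem_cons, List.not_mem_nil, or_false, not_or,
        List.nodup_nil, and_true, not_false_eq_true]
      exact ⟨⟨h1x, h1u, h1h, h1f, h1hf⟩, ⟨hxu, hxh, hxf, hxhf⟩, ⟨huh, huf, huhf⟩, ⟨hhf, hhhf⟩, hfhf⟩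
    exact List.Nodup.of_map _ hnd
  · intro n hn
    rw [hoff, hΘN]
    · exact ne_of_π (by rw [X.π_ν, π₁]; exact h1x)
    · exact fun h0 => hn (X.ν_inj (h0.trans hp₂))
    · exact ne_of_π (by rw [X.π_ν, π₃]; exact h1u)
    · exact ne_of_π (by rw [X.π_ν, π₄]; exact h1h)

end LibRS
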