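import Pool.Agent.LibRS.T04
import Pool.Agent.LibRS.T05
import Pool.Agent.LibRS.T20

set_option autoImplicit false

namespace LibRS
open Equiv

section stubs

end stubs

theorem Prim.card_le {F : Type} [Field F] [Fintype F] {g : F} (hg : Prim g) {m : ℕ} (hm : 0 < m)
    (h : g ^ m = 1) : Fintype.card F ≤ m + 1 := by
  classical
  have hsub : (Finset.univ : Finset F) ⊆ insert 0 ((Finset.range m).image (fun i => g ^ i)) := by
    intro a _
    by_cases ha : a = 0
    · simp [ha]
    · obtain ⟨i, hi⟩ := hg.2 a ha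
      rw [Finset.mem_insert, Finset.mem_image]
      right
      refine ⟨i % m, Finset.mem_range.2 (Nat.mod_lt _ hm), ?_⟩
      rw [hi]
      conv_rhs => rw [← Nat.mod_add_div i m, pow_add, pow_mul, h, one_pow, mul_one]
  calc Fintype.card F = (Finset.univ : Finset F).card := rfl
    _ ≤ _ := Finset.card_le_card hsub
    _ ≤ ((Finset.range m).image (fun i => g ^ i)).card + 1 := Finset.card_insert_le _ _
    _ ≤ m + 1 := by
      have := Finset.card_image_le (s := Finset.range m) (f := fun i => g ^ i)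
      rw [Finset.card_range] at this
      omega

theorem ext_two {F G Q : Type} [Field F] [Fintype F] [Group G] [Finite G] [Group Q] [Finite Q]
    (X : Ext F G Q) (hF : 4 ≤ Fintype.card F) (hQ : R2 Q) (g : F) (hg : Prim g) (z : F)
    (hz : z ≠ 0) :
    ∃ (Θ : Perm G) (x' k' : G), Orth Θ ∧ OneCyc Θ ∧ Pat2 Θ x' k' ∧
      ∀ n, n ≠ z → Θ (X.ν n) = X.ν (g * n) := by
  classical
  haveI : Fintype Q := Fintype.ofFinite Q
  obtain ⟨θ, x, h, hθ, hc, hp⟩ := hQ
  have hp' := hp
  obtain ⟨hp1, hp2, hp3⟩ := hp'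
  simp only [List.nodup_cons, List.mem_cons, List.not_mem_nil, or_false, not_or,
    List.nodup_nil, and_true, not_false_eq_true] at hp3
  obtain ⟨⟨h1x, h1u, h1h, h1f, h1hf⟩, ⟨hxu, hxh, hxf, hxhf⟩, ⟨huh, huf, huhf⟩, ⟨hhf, hhhf⟩, hfhf⟩ := hp3
  have hg1 : g ≠ 1 := by
    rintro rfl
    have := hg.card_le (m := 1) one_pos (by simp)
    omega
  obtain ⟨h', hh'⟩ := X.π_surj h
  obtain ⟨a, ha⟩ : ∃ a : F, a ∉ ({0, 1} : Finset F) := by
    by_contra hcon
    push_neg at hcon
    have : Fintype.card F ≤ ({0, 1} : Finset F).card :=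
      Finset.card_le_card (fun a _ => hcon a)
    have h2 : ({0, 1} : Finset F).card ≤ 2 := Finset.card_le_two
    omega
  simp only [Finset.mem_insert, Finset.mem_singleton, not_or] at ha
  obtain ⟨ha0, ha1⟩ := ha
  have hβ0 : ∀ n : F, n ≠ 0 → X.β h' n ≠ 0 := fun n hn h0 =>
    hn ((X.β h').map_eq_zero_iff.1 h0)
  have hβz := hβ0 z hz
  have key : ∀ b : F, b ≠ 0 → b ≠ 1 → X.β h' (b * z) / X.β h' z ≠ 0 ∧
      X.β h' (b * z) / X.β h' z ≠ 1 := by
    intro b hb0 hb1
    refine ⟨div_ne_zero (hβ0 _ (mul_ne_zero hb0 hz)) hβz, ?_⟩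
    rw [Ne, div_eq_one_iff_eq hβz]
    intro h0
    have h2 := (X.β h').injective h0
    apply hb1
    exact mul_right_cancel₀ hz (by rw [h2, one_mul])
  have hu1 := key g hg.1 hg1
  have hh1 := key a ha0 ha1
  obtain ⟨c₀, hc₀⟩ : ∃ c₀ : Q → F, c₀ = fun y => if y = 1 then g else
      if y = h * x then X.β h' (g * z) / X.β h' z else
      if y = h then X.β h' (a * z) / X.β h' z else a := ⟨_, rfl⟩
  have c₀0 : ∀ y, c₀ y ≠ 0 := by
    intro y; rw [hc₀]; dsimp only; split_ifs
    · exact hg.1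
    · exact hu1.1
    · exact hh1.1
    · exact ha0
  have c₀1 : ∀ y, c₀ y ≠ 1 := by
    intro y; rw [hc₀]; dsimp only; split_ifs
    · exact hg1
    · exact hu1.2
    · exact hh1.2
    · exact ha1
  obtain ⟨c, hc0, hc1, hcc, hprod⟩ := exists_scalars hF c₀ c₀0 c₀1 (Finset.univ.erase (1 : Q))
    (θ x) (h * θ x) (by simp [Ne.symm h1f]) (by simp only [Finset.mem_erase, Finset.mem_univ, and_true]; exact Ne.symm h1hf) hfhf g hg.1
  refine ext_core2 X θ x h hθ hc hp g hg z hz h' hh' a ha0 ha1 c hc0 hc1 ?_ ?_ ?_ ?_ hprod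
  · rw [hcc 1 h1f h1hf, hc₀]; simp
  · rw [hcc x hxf hxhf, hc₀]; simp [Ne.symm h1x, hxu, hxh]
  · rw [hcc (h * x) huf huhf, hc₀]
    dsimp only
    rw [if_neg (Ne.symm h1u), if_pos rfl, div_mul_cancel₀ _ hβz]
  · rw [hcc h hhf hhhf, hc₀]
    dsimp only
    rw [if_neg (Ne.symm h1h), if_neg (Ne.symm huh), if_pos rfl, div_mul_cancel₀ _ hβz]

theorem ext_R2 {F G Q : Type} [Field F] [Fintype F] [Group G] [Finite G] [Group Q] [Finite Q]
    (X : Ext F G Q) (hF : 4 ≤ Fintype.card F) (hQ : R2 Q) : R2 G := by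
  obtain ⟨g, hg⟩ := exists_prim F
  obtain ⟨Θ, x', k', h1, h2, h3, -⟩ := ext_two X hF hQ g hg 1 one_ne_zero
  exact ⟨Θ, x', k', h1, h2, h3⟩

theorem ext_R2_char_three {F G Q : Type} [Field F] [Fintype F] [CharP F 3] [Group G] [Finite G]
    [Group Q] [Finite Q] (X : Ext F G Q) (hF : 9 ≤ Fintype.card F) (hQ : R2 Q) : R3 G := by
  classical
  obtain ⟨g, hg, hgg⟩ := exists_prim_char_three (F := F) hF
  have h3 : (3 : F) = 0 := by exact_mod_cast CharP.cast_eq_zero F 3
  have g0 : g ≠ 0 := hg.1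
  have g1 : g ≠ 1 := by
    rintro rfl
    have := hg.card_le (m := 1) one_pos (by simp)
    omega
  have g2 : g ^ 2 ≠ 1 := by
    intro h0
    have := hg.card_le (m := 2) two_pos h0
    omega
  have g4 : g ^ 2 ≠ -1 := by
    intro h0
    have := hg.card_le (m := 4) (by norm_num) (by
      calc g ^ 4 = (g ^ 2) ^ 2 := by ring
        _ = 1 := by rw [h0]; ring)
    omega
  have gm1 : g ≠ -1 := by
    rintro rfl
    exact g2 (by ring)
  have two0 : (2 : F) ≠ 0 := by
    intro h0
    have : (1 : F) = 0 := by linear_combination h3 - h0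
    exact one_ne_zero this
  obtain ⟨z, hz⟩ : ∃ z : F, z ∉ ({0, 1 - g, 1, g, 1 + g, -g} : Finset F) := by
    by_contra hcon
    push_neg at hcon
    have h4 : Fintype.card F ≤ ({0, 1 - g, 1, g, 1 + g, -g} : Finset F).card :=
      Finset.card_le_card (fun a _ => hcon a)
    have h5 : ({0, 1 - g, 1, g, 1 + g, -g} : Finset F).card ≤ 6 := Finset.card_le_six
    omega
  simp only [Finset.mem_insert, Finset.mem_singleton, not_or] at hz
  obtain ⟨z0, z1, z2, z3, z4, z5⟩ := hz
  obtain ⟨Θ, -, -, hO, hC, -, hΘ⟩ := ext_two X (by omega) hQ g hg z z0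
  have ne : ∀ {a b : F}, a ≠ b → X.ν a ≠ X.ν b := fun hab h0 => hab (X.ν_inj h0)
  have eu : X.ν g * X.ν (1 - g) = X.ν 1 := by rw [X.ν_mul]; congr 1; ring
  have ew : X.ν (-g) * X.ν (1 - g) = X.ν (1 + g) := by
    rw [X.ν_mul]; congr 1; linear_combination -g * h3
  have vx : Θ (X.ν (1 - g)) = X.ν (g - g ^ 2) := by
    rw [hΘ _ (Ne.symm z1)]; congr 1; ring
  have vu : Θ (X.ν 1) = X.ν g := by rw [hΘ _ (Ne.symm z2), mul_one]
  have vh : Θ (X.ν g) = X.ν (g ^ 2) := by rw [hΘ _ (Ne.symm z3)]; congr 1; ring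
  have vw : Θ (X.ν (1 + g)) = X.ν (g + g ^ 2) := by rw [hΘ _ (Ne.symm z4)]; congr 1; ring
  have vk : Θ (X.ν (-g)) = X.ν (-g ^ 2) := by rw [hΘ _ (Ne.symm z5)]; congr 1; ring
  have d1 : (0 : F) ≠ 1 - g := fun h0 => g1 (by linear_combination h0)
  have d2 : (0 : F) ≠ 1 + g := fun h0 => gm1 (by linear_combination -h0)
  have d3 : (0 : F) ≠ -g := fun h0 => g0 (by linear_combination h0)
  have d4 : 1 - g ≠ 1 := fun h0 => g0 (by linear_combination -h0)
  have d5 : 1 - g ≠ g := fun h0 => gm1 (by linear_combination h0 + g * h3)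
  have d6 : 1 - g ≠ 1 + g := by
    intro h0
    have : 2 * g = 0 := by linear_combination -h0
    rcases mul_eq_zero.1 this with h4 | h4
    · exact two0 h4
    · exact g0 h4
  have d7 : 1 - g ≠ -g := fun h0 => one_ne_zero (by linear_combination h0 : (1 : F) = 0)
  have d8 : 1 ≠ 1 + g := fun h0 => g0 (by linear_combination -h0)
  have d9 : (1 : F) ≠ -g := fun h0 => gm1 (by linear_combination h0)
  have d10 : g ≠ 1 + g := fun h0 => one_ne_zero (by linear_combination -h0 : (1 : F) = 0)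
  have d11 : g ≠ -g := by
    intro h0
    have : 2 * g = 0 := by linear_combination h0
    rcases mul_eq_zero.1 this with h4 | h4
    · exact two0 h4
    · exact g0 h4
  have d12 : 1 + g ≠ -g := fun h0 => g1 (by linear_combination g * h3 - h0)
  refine ⟨Θ, X.ν (1 - g), X.ν g, X.ν (-g), hO, hC, ?_, ?_, ?_, ?_, ?_, ?_, ?_, ?_, ?_, ?_, ?_, ?_,
    ?_, ?_, ?_⟩
  · rw [eu, vu]
  · rw [vk, vx, X.ν_mul]; congr 1; ring
  · rw [ew, vw, vh, ← X.ν_neg, X.ν_mul, X.ν_mul]; congr 1; linear_combination g * h3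
  · rw [eu, ew]
    have : ([0, 1 - g, 1, g, 1 + g, -g].map X.ν).Nodup := by
      apply List.Nodup.map X.ν_inj
      simp only [List.nodup_cons, List.mem_cons, List.not_mem_nil, or_false, not_or,
        List.nodup_nil, and_true, not_false_eq_true]
      exact ⟨⟨d1, zero_ne_one, g0.symm, d2, d3⟩, ⟨d4, d5, d6, d7⟩, ⟨g1.symm, d8, d9⟩, ⟨d10, d11⟩,
        d12⟩
    simpa [X.ν_zero] using this
  · rw [vh, eu]; exact ne g2
  · rw [vh]; exact ne (fun h0 => by
      have : g * (g + 1) = 0 := by linear_combination h0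
      rcases mul_eq_zero.1 this with h4 | h4
      · exact g0 h4
      · exact gm1 (by linear_combination h4))
  · rw [vh]; exact ne (fun h0 => hgg (by linear_combination h0))
  · rw [vk, eu]; exact ne (fun h0 => g4 (by linear_combination -h0))
  · rw [vk]; exact ne (fun h0 => by
      have : (g + 1) ^ 2 = 0 := by linear_combination -h0 + g * h3
      have h4 := pow_eq_zero_iff (n := 2) two_ne_zero |>.1 this
      exact gm1 (by linear_combination h4))
  · rw [vx, eu]; exact ne (fun h0 => by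
      have : (g + 1) ^ 2 = 0 := by linear_combination -h0 + g * h3
      have h4 := pow_eq_zero_iff (n := 2) two_ne_zero |>.1 this
      exact gm1 (by linear_combination h4))
  · rw [vx, ew]; exact ne (fun h0 => g4 (by linear_combination -h0))
  · rw [vx]; exact ne (fun h0 => by
      have : g * (2 - g) = 0 := by linear_combination h0
      rcases mul_eq_zero.1 this with h4 | h4
      · exact g0 h4
      · exact gm1 (by linear_combination -h4 + h3))
  · rw [ew, vw, eu]; exact ne (fun h0 => hgg (by linear_combination h0))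
  · rw [ew, vw]; exact ne (fun h0 => by
      have : g * (g + 2) = 0 := by linear_combination h0
      rcases mul_eq_zero.1 this with h4 | h4
      · exact g0 h4
      · exact g1 (by linear_combination h4 - h3))
  · rw [ew, vh, vw]
    intro h0
    have h4 := X.ν_inj h0
    congr 1
    linear_combination h4 + g * h3

end LibRS
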