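import Pool.Agent.LibRS.Defs

set_option autoImplicit false

namespace LibRS

open Equiv

theorem pat2_of_subgroup {M G : Type} [Group M] [Group G] (φ : M →* G)
    (hφ : Function.Injective φ) (ζ : Perm M) (Θ : Perm G) (s : M)
    (hΘ : ∀ m, m ≠ s → Θ (φ m) = φ (ζ m)) (x h : M) (hp : Pat2 ζ x h) (hs1 : s ≠ x)
    (hs2 : s ≠ h) (hs3 : s ≠ h * x) : Pat2 Θ (φ x) (φ h) := by
  obtain ⟨h1, h2, h3⟩ := hp
  refine ⟨?_, ?_, ?_⟩
  · rw [← map_mul, hΘ _ hs3.symm, h1]
  · rw [hΘ _ hs2.symm, hΘ _ hs1.symm, h2, map_mul]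
  · have h4 := h3.map hφ
    rw [hΘ _ hs1.symm]
    simpa [map_mul] using h4

theorem pat3_of_subgroup {M G : Type} [Group M] [Group G] (φ : M →* G)
    (hφ : Function.Injective φ) (ζ : Perm M) (Θ : Perm G) (s : M)
    (hΘ : ∀ m, m ≠ s → Θ (φ m) = φ (ζ m)) (x h k : M) (hp : Pat3 ζ x h k) (hs1 : s ≠ x)
    (hs2 : s ≠ h) (hs3 : s ≠ h * x) (hs4 : s ≠ k) (hs5 : s ≠ k * x) :
    Pat3 Θ (φ x) (φ h) (φ k) := by
  obtain ⟨h1, h2, h3, h4, h5, h6, h7, h8, h9, h10, h11, h12, h13, h14, h15⟩ := hp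
  have ex := hΘ _ hs1.symm
  have eh := hΘ _ hs2.symm
  have ehx := hΘ _ hs3.symm
  have ek := hΘ _ hs4.symm
  have ekx := hΘ _ hs5.symm
  have hne : ∀ a b : M, a ≠ b → φ a ≠ φ b := fun a b hab h => hab (hφ h)
  unfold Pat3
  rw [← map_mul, ← map_mul, ehx, ekx, eh, ek, ex, h1, h2]
  rw [h2] at h8 h9
  refine ⟨rfl, map_mul _ _ _, ?_, ?_, hne _ _ h5, hne _ _ h6, hne _ _ h7, hne _ _ h8, hne _ _ h9,
    hne _ _ h10, hne _ _ h11, hne _ _ h12, hne _ _ h13, hne _ _ h14, ?_⟩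
  · rw [h3, map_mul, map_mul, map_inv]
  · have h16 := h4.map hφ
    simpa [map_mul] using h16
  · intro h17
    rw [h15 (hφ h17)]

private theorem t09_sameCycle {G H : Type} (e : G ≃ H) (θ : Perm G) (x y : G)
    (h : θ.SameCycle x y) : (e.permCongr θ).SameCycle (e x) (e y) := by
  obtain ⟨i, hi⟩ := h
  refine ⟨i, ?_⟩
  have h1 : (e.permCongr θ) ^ i = e.permCongr (θ ^ i) := by
    have := map_zpow (Equiv.permCongrHom e) θ i
    exact this.symm
  rw [h1, Equiv.permCongr_apply, Equiv.symm_apply_apply, hi]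

private theorem t09_orth {G H : Type} [Group G] [Group H] (e : G ≃* H) (θ : Perm G)
    (h : Orth θ) : Orth (e.toEquiv.permCongr θ) := by
  refine ⟨?_, ?_⟩
  · rw [Equiv.permCongr_apply]
    have h1 : e.toEquiv.symm 1 = 1 := map_one e.symm
    rw [h1, h.1]
    exact map_one e
  · intro x y hxy
    simp only [Equiv.permCongr_apply] at hxy
    have h2 : ∀ z : H, z⁻¹ * e.toEquiv (θ (e.toEquiv.symm z)) =
        e ((e.symm z)⁻¹ * θ (e.symm z)) := by
      intro z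
      rw [map_mul, map_inv]
      simp
    rw [h2, h2] at hxy
    exact e.symm.injective (h.2 (e.injective hxy))

private theorem t09_onecyc {G H : Type} [Group G] [Group H] (e : G ≃* H) (θ : Perm G)
    (h : OneCyc θ) : OneCyc (e.toEquiv.permCongr θ) := by
  intro x y hx hy
  have h1 := t09_sameCycle e.toEquiv θ (e.symm x) (e.symm y)
    (h _ _ (by simpa using hx) (by simpa using hy))
  simpa using h1

private theorem t09_apply {G H : Type} [Group G] [Group H] (e : G ≃* H) (θ : Perm G) (m : G) :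
    (e.toEquiv.permCongr θ) (e m) = e (θ m) := by
  rw [Equiv.permCongr_apply]
  simp

theorem R2_of_equiv {G H : Type} [Group G] [Group H] (e : G ≃* H) (h : R2 G) : R2 H := by
  obtain ⟨θ, x, k, h1, h2, h3⟩ := h
  refine ⟨e.toEquiv.permCongr θ, e x, e k, t09_orth e θ h1, t09_onecyc e θ h2, ?_⟩
  obtain ⟨h4, h5, h6⟩ := h3
  refine ⟨?_, ?_, ?_⟩
  · rw [← map_mul, t09_apply, h4]
  · rw [t09_apply, t09_apply, h5, map_mul]
  · have h7 := h6.map e.injective
    rw [t09_apply]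
    simpa [map_mul] using h7

theorem R3_of_equiv {G H : Type} [Group G] [Group H] (e : G ≃* H) (h : R3 G) : R3 H := by
  obtain ⟨θ, x, k, l, h1, h2, hp⟩ := h
  refine ⟨e.toEquiv.permCongr θ, e x, e k, e l, t09_orth e θ h1, t09_onecyc e θ h2, ?_⟩
  obtain ⟨h1, h2, h3, h4, h5, h6, h7, h8, h9, h10, h11, h12, h13, h14, h15⟩ := hp
  have hne : ∀ a b : G, a ≠ b → e a ≠ e b := fun a b hab h => hab (e.injective h)
  unfold Pat3
  rw [← map_mul, ← map_mul, t09_apply, t09_apply, t09_apply, t09_apply, t09_apply, h1, h2]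
  rw [h2] at h8 h9
  refine ⟨rfl, map_mul _ _ _, ?_, ?_, hne _ _ h5, hne _ _ h6, hne _ _ h7, hne _ _ h8, hne _ _ h9,
    hne _ _ h10, hne _ _ h11, hne _ _ h12, hne _ _ h13, hne _ _ h14, ?_⟩
  · rw [h3, map_mul, map_mul, map_inv]
  · have h16 := h4.map e.injective
    simpa [map_mul] using h16
  · intro h17
    rw [h15 (e.injective h17)]

end LibRS
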