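import Pool.Agent.LibRS.Defs

set_option autoImplicit false

namespace LibRS

open Equiv

/-- a permutation of `ZMod n` given by a function on representatives -/
noncomputable def t11_mk (n : ℕ) [NeZero n] (f : ℕ → ℕ) (hlt : ∀ v < n, f v < n)
    (hinj : ∀ a < n, ∀ b < n, f a = f b → a = b) : Perm (ZMod n) :=
  Equiv.ofBijective (fun x => ((f x.val : ℕ) : ZMod n)) (Finite.injective_iff_bijective.1 (by
    intro x y hxy
    have h1 := congrArg ZMod.val hxy
    simp only at h1
    rw [ZMod.val_cast_of_lt (hlt _ (ZMod.val_lt x)), ZMod.val_cast_of_lt (hlt _ (ZMod.val_lt y))] at h1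
    exact ZMod.val_injective n (hinj _ (ZMod.val_lt x) _ (ZMod.val_lt y) h1)))

theorem t11_mk_apply (n : ℕ) [NeZero n] (f : ℕ → ℕ) (hlt : ∀ v < n, f v < n)
    (hinj : ∀ a < n, ∀ b < n, f a = f b → a = b) (v : ℕ) (hv : v < n) :
    t11_mk n f hlt hinj (v : ZMod n) = ((f v : ℕ) : ZMod n) := by
  change ((f (v : ZMod n).val : ℕ) : ZMod n) = _
  rw [ZMod.val_cast_of_lt hv]

theorem t11_R2 (n : ℕ) [NeZero n] (f : ℕ → ℕ) (h0 : f 0 = 0) (hlt : ∀ v < n, f v < n)
    (hinj : ∀ a < n, ∀ b < n, f a = f b → a = b)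
    (hdiff : ∀ a < n, ∀ b < n, (f a + b) % n = (f b + a) % n → a = b)
    (c : ℕ) (hcyc : ∀ R : ℕ → Prop, R c → (∀ v < n, R v → R (f v)) → ∀ v, 1 ≤ v → v < n → R v)
    (x h : ℕ) (hx : x < n) (hh : h < n) (p1 : f ((h + x) % n) = h) (p2 : f h = (h + f x) % n)
    (hnd : [0, x, (h + x) % n, h, f x, (h + f x) % n].Nodup) : R2 (Multiplicative (ZMod n)) := by
  have hn : 0 < n := Nat.pos_of_ne_zero (NeZero.ne n)
  set θ : Perm (ZMod n) := t11_mk n f hlt hinj with hθ
  have hap : ∀ v, v < n → θ (v : ZMod n) = ((f v : ℕ) : ZMod n) := t11_mk_apply n f hlt hinj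
  have hcast : ∀ a b : ℕ, a < n → b < n → (a : ZMod n) = (b : ZMod n) → a = b := by
    intro a b ha hb hab
    have := congrArg ZMod.val hab
    rwa [ZMod.val_cast_of_lt ha, ZMod.val_cast_of_lt hb] at this
  have hval : ∀ z : ZMod n, ((z.val : ℕ) : ZMod n) = z := fun z => ZMod.natCast_zmod_val z
  have hmod : ∀ a : ℕ, ((a % n : ℕ) : ZMod n) = (a : ZMod n) := fun a => ZMod.natCast_mod a n
  have F1 : ∀ u v : ZMod n, -u + θ u = -v + θ v → u = v := by
    intro u v huv
    have h1 : ((f u.val + v.val : ℕ) : ZMod n) = ((f v.val + u.val : ℕ) : ZMod n) := by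
      push_cast
      rw [← hap _ (ZMod.val_lt _), ← hap _ (ZMod.val_lt _), hval, hval]
      linear_combination huv
    rw [ZMod.natCast_eq_natCast_iff'] at h1
    exact ZMod.val_injective n (hdiff _ (ZMod.val_lt u) _ (ZMod.val_lt v) h1)
  have F2 : ∀ u v : ZMod n, u ≠ 0 → v ≠ 0 → θ.SameCycle u v := by
    intro u v hu hv
    have hR := hcyc (fun w => θ.SameCycle (c : ZMod n) (w : ZMod n)) (Perm.SameCycle.refl _ _)
      (fun w hw hs => by
        refine hs.trans ⟨1, ?_⟩
        rw [zpow_one, hap w hw])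
    have key : ∀ z : ZMod n, z ≠ 0 → θ.SameCycle (c : ZMod n) z := by
      intro z hz
      have := hR z.val (Nat.one_le_iff_ne_zero.2 fun h => hz ((ZMod.val_eq_zero z).1 h))
        (ZMod.val_lt z)
      simp only [hval] at this
      exact this
    exact (key u hu).symm.trans (key v hv)
  refine ⟨(θ : Perm (ZMod n)), ((x : ZMod n) : ZMod n), ((h : ZMod n) : ZMod n), ⟨?_, ?_⟩, ?_, ?_⟩
  · change θ (0 : ZMod n) = (0 : ZMod n)
    have := hap 0 hn
    rw [h0, Nat.cast_zero] at this
    exact this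
  · intro u v huv
    exact F1 u v huv
  · intro u v hu hv
    exact F2 u v hu hv
  · refine ⟨?_, ?_, ?_⟩
    · change θ ((h : ZMod n) + (x : ZMod n)) = (h : ZMod n)
      have h1 := hap ((h + x) % n) (Nat.mod_lt _ hn)
      rw [p1, hmod, Nat.cast_add] at h1
      exact h1
    · change θ (h : ZMod n) = (h : ZMod n) + θ (x : ZMod n)
      rw [hap h hh, hap x hx, p2, hmod, Nat.cast_add]
    · have h1 : ([0, x, (h + x) % n, h, f x, (h + f x) % n].map
          (fun v : ℕ => (v : ZMod n))).Nodup := by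
        apply List.Nodup.map_on _ hnd
        intro a ha b hb hab
        have hb' : ∀ a ∈ [0, x, (h + x) % n, h, f x, (h + f x) % n], a < n := by
          intro a ha
          simp only [List.mem_cons, List.not_mem_nil, or_false] at ha
          rcases ha with rfl | rfl | rfl | rfl | rfl | rfl
          · exact hn
          · exact hx
          · exact Nat.mod_lt _ hn
          · exact hh
          · exact hlt _ hx
          · exact Nat.mod_lt _ hn
        exact hcast a b (hb' a ha) (hb' b hb) hab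
      change ([0, (x : ZMod n), (h : ZMod n) + (x : ZMod n), (h : ZMod n), θ (x : ZMod n),
        (h : ZMod n) + θ (x : ZMod n)] : List (ZMod n)).Nodup
      rw [hap x hx]
      simpa only [List.map_cons, List.map_nil, hmod, Nat.cast_add, Nat.cast_zero] using h1

/-- the zigzag permutation for `n = 4 k + 1` -/
def t11_f (k v : ℕ) : ℕ :=
  if v = 0 then 0 else if v ≤ k then 2 * k + 1 - v else if v < 2 * k then 2 * k - v
  else if v = 2 * k then 4 * k
  else if v ≤ 3 * k - 1 then 6 * k - v else if v = 3 * k then k else 6 * k + 1 - v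

theorem R2_zmod_one (k : ℕ) (hk : 3 ≤ k) : R2 (Multiplicative (ZMod (4 * k + 1))) := by
  have hb : ∀ a b n : ℕ, a < 2 * n → b < 2 * n → a % n = b % n → a = b ∨ a = b + n ∨ b = a + n := by
    intro a b n ha hb h
    have g : ∀ a : ℕ, a < 2 * n → a % n = a ∨ (n ≤ a ∧ a % n = a - n) := by
      intro a ha
      by_cases hc : a < n
      · exact Or.inl (Nat.mod_eq_of_lt hc)
      · refine Or.inr ⟨by omega, ?_⟩
        rw [Nat.mod_eq_sub_mod (by omega), Nat.mod_eq_of_lt (by omega)]
    rcases g a ha with h1 | ⟨h1, h1'⟩ <;> rcases g b hb with h2 | ⟨h2, h2'⟩ <;> omega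
  have H0 : t11_f k 0 = 0 := by simp [t11_f]
  have Hlt : ∀ v < 4 * k + 1, t11_f k v < 4 * k + 1 := by
    intro v hv
    unfold t11_f
    split_ifs <;> omega
  have Hs : ∀ a < 4 * k + 1, (a = 0 ∧ t11_f k a = 0) ∨ (1 ≤ a ∧ a ≤ k ∧ t11_f k a = 2 * k + 1 - a) ∨
        (k < a ∧ a < 2 * k ∧ t11_f k a = 2 * k - a) ∨ (a = 2 * k ∧ t11_f k a = 4 * k) ∨
        (2 * k + 1 ≤ a ∧ a ≤ 3 * k - 1 ∧ t11_f k a = 6 * k - a) ∨
        (a = 3 * k ∧ t11_f k a = k) ∨ (3 * k + 1 ≤ a ∧ t11_f k a = 6 * k + 1 - a) := by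
    intro a ha
    unfold t11_f; split_ifs <;> omega
  have Hinj : ∀ a < 4 * k + 1, ∀ b < 4 * k + 1, t11_f k a = t11_f k b → a = b := by
    intro a ha b hb' hab
    rcases Hs a ha with ⟨a1, a2⟩ | ⟨a1, a2, a3⟩ | ⟨a1, a2, a3⟩ | ⟨a1, a2⟩ | ⟨a1, a2, a3⟩ | ⟨a1, a2⟩ |
      ⟨a1, a2⟩ <;>
    rcases Hs b hb' with ⟨b1, b2⟩ | ⟨b1, b2, b3⟩ | ⟨b1, b2, b3⟩ | ⟨b1, b2⟩ | ⟨b1, b2, b3⟩ | ⟨b1, b2⟩ |
      ⟨b1, b2⟩ <;> omega
  have Hdiff : ∀ a < 4 * k + 1, ∀ b < 4 * k + 1,
      (t11_f k a + b) % (4 * k + 1) = (t11_f k b + a) % (4 * k + 1) → a = b := by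
    intro a ha b hb' hab
    have hfa : t11_f k a < 4 * k + 1 := Hlt a ha
    have hfb : t11_f k b < 4 * k + 1 := Hlt b hb'
    have h := hb _ _ _ (by omega) (by omega) hab
    clear hab
    rcases Hs a ha with ⟨a1, a2⟩ | ⟨a1, a2, a3⟩ | ⟨a1, a2, a3⟩ | ⟨a1, a2⟩ | ⟨a1, a2, a3⟩ | ⟨a1, a2⟩ |
      ⟨a1, a2⟩ <;>
    rcases Hs b hb' with ⟨b1, b2⟩ | ⟨b1, b2, b3⟩ | ⟨b1, b2, b3⟩ | ⟨b1, b2⟩ | ⟨b1, b2, b3⟩ | ⟨b1, b2⟩ |
      ⟨b1, b2⟩ <;>
    rcases h with h | h | h <;> omega
  have Hcyc : ∀ R : ℕ → Prop, R k → (∀ v < 4 * k + 1, R v → R (t11_f k v)) →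
      ∀ v, 1 ≤ v → v < 4 * k + 1 → R v := by
    intro R h0 hs
    have A : ∀ i, i < k → R (k - i) ∧ R (k + 1 + i) := by
      intro i
      induction i with
      | zero =>
        intro _
        refine ⟨h0, ?_⟩
        have := hs k (by omega) h0
        have e : t11_f k k = k + 1 := by unfold t11_f; split_ifs <;> omega
        rwa [e] at this
      | succ i ih =>
        intro hi
        obtain ⟨_, h2⟩ := ih (by omega)
        have h3 := hs (k + 1 + i) (by omega) h2
        have e : t11_f k (k + 1 + i) = k - (i + 1) := by unfold t11_f; split_ifs <;> omega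
        rw [e] at h3
        refine ⟨h3, ?_⟩
        have h4 := hs (k - (i + 1)) (by omega) h3
        have e' : t11_f k (k - (i + 1)) = k + 1 + (i + 1) := by
          unfold t11_f; split_ifs <;> omega
        rwa [e'] at h4
    have B : ∀ i, i < k → R (4 * k - i) ∧ R (2 * k + 1 + i) := by
      intro i
      induction i with
      | zero =>
        intro _
        have h1 : R (2 * k) := by
          have := (A (k - 1) (by omega)).2
          have e : k + 1 + (k - 1) = 2 * k := by omega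
          rwa [e] at this
        have h2 := hs (2 * k) (by omega) h1
        have e : t11_f k (2 * k) = 4 * k - 0 := by unfold t11_f; split_ifs <;> omega
        rw [e] at h2
        refine ⟨h2, ?_⟩
        have h3 := hs (4 * k - 0) (by omega) h2
        have e' : t11_f k (4 * k - 0) = 2 * k + 1 + 0 := by unfold t11_f; split_ifs <;> omega
        rwa [e'] at h3
      | succ i ih =>
        intro hi
        obtain ⟨_, h2⟩ := ih (by omega)
        have h3 := hs (2 * k + 1 + i) (by omega) h2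
        have e : t11_f k (2 * k + 1 + i) = 4 * k - (i + 1) := by
          unfold t11_f; split_ifs <;> omega
        rw [e] at h3
        refine ⟨h3, ?_⟩
        have h4 := hs (4 * k - (i + 1)) (by omega) h3
        have e' : t11_f k (4 * k - (i + 1)) = 2 * k + 1 + (i + 1) := by
          unfold t11_f; split_ifs <;> omega
        rwa [e'] at h4
    intro v hv1 hv2
    by_cases c1 : v ≤ k
    · have := (A (k - v) (by omega)).1
      have e : k - (k - v) = v := by omega
      rwa [e] at this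
    by_cases c2 : v ≤ 2 * k
    · have := (A (v - (k + 1)) (by omega)).2
      have e : k + 1 + (v - (k + 1)) = v := by omega
      rwa [e] at this
    by_cases c3 : v ≤ 3 * k
    · have := (B (v - (2 * k + 1)) (by omega)).2
      have e : 2 * k + 1 + (v - (2 * k + 1)) = v := by omega
      rwa [e] at this
    · have := (B (4 * k - v) (by omega)).1
      have e : 4 * k - (4 * k - v) = v := by omega
      rwa [e] at this
  rcases Nat.even_or_odd' k with ⟨t, ht | ht⟩
  · -- `k = 2 t`
    refine t11_R2 (4 * k + 1) (t11_f k) H0 Hlt Hinj Hdiff k Hcyc (2 * t) t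
      (by omega) (by omega) ?_ ?_ ?_
    · rw [Nat.mod_eq_of_lt (by omega)]
      unfold t11_f
      split_ifs <;> omega
    · have e : t11_f k (2 * t) = 2 * t + 1 := by unfold t11_f; split_ifs <;> omega
      rw [e, Nat.mod_eq_of_lt (by omega)]
      unfold t11_f
      split_ifs <;> omega
    · have e : t11_f k (2 * t) = 2 * t + 1 := by unfold t11_f; split_ifs <;> omega
      rw [e, Nat.mod_eq_of_lt (show t + 2 * t < 4 * k + 1 by omega),
        Nat.mod_eq_of_lt (show t + (2 * t + 1) < 4 * k + 1 by omega)]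
      simp only [List.nodup_cons, List.mem_cons, List.not_mem_nil, or_false, not_or,
        not_false_eq_true, List.nodup_nil, and_true]
      omega
  · -- `k = 2 t + 1`
    have e1 : (3 * t + 2 + (6 * t + 4)) % (4 * k + 1) = t + 1 := by
      rw [Nat.mod_eq_sub_mod (by omega), Nat.mod_eq_of_lt (by omega)]; omega
    have e2 : t11_f k (6 * t + 4) = 6 * t + 3 := by unfold t11_f; split_ifs <;> omega
    have e3 : (3 * t + 2 + (6 * t + 3)) % (4 * k + 1) = t := by
      rw [Nat.mod_eq_sub_mod (by omega), Nat.mod_eq_of_lt (by omega)]; omega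
    refine t11_R2 (4 * k + 1) (t11_f k) H0 Hlt Hinj Hdiff k Hcyc (6 * t + 4) (3 * t + 2)
      (by omega) (by omega) ?_ ?_ ?_
    · rw [e1]
      unfold t11_f
      split_ifs <;> omega
    · rw [e2, e3]
      unfold t11_f
      split_ifs <;> first | omega | contradiction
    · rw [e1, e2, e3]
      simp only [List.nodup_cons, List.mem_cons, List.not_mem_nil, or_false, not_or,
        not_false_eq_true, List.nodup_nil, and_true]
      omega

end LibRS
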