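import Pool.Agent.LibRS.Defs

set_option autoImplicit false
set_option maxRecDepth 100000

namespace LibRS

open Equiv

private theorem t12_onecyc {G : Type} [Group G] (θ : Perm G) (L : List G)
    (h1 : ∀ i, i < L.length - 1 → θ (L.getD i 1) = L.getD (i + 1) 1)
    (h2 : ∀ x : G, x ≠ 1 → x ∈ L) : OneCyc θ := by
  have h3 : ∀ i, i < L.length → θ.SameCycle (L.getD 0 1) (L.getD i 1) := by
    intro i
    induction i with
    | zero => intro _; exact Perm.SameCycle.refl _ _
    | succ i ih =>
      intro hi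
      have h4 := ih (by omega)
      rw [← h1 i (by omega)]
      exact h4.trans (Perm.sameCycle_apply_right.mpr (Perm.SameCycle.refl θ _))
  have h5 : ∀ x : G, x ≠ 1 → θ.SameCycle (L.getD 0 1) x := by
    intro x hx
    obtain ⟨i, hi, rfl⟩ := List.getElem_of_mem (h2 x hx)
    have h6 := h3 i hi
    rwa [List.getD_eq_getElem L 1 hi] at h6
  intro x y hx hy
  exact (h5 x hx).symm.trans (h5 y hy)

private def t12_L7 : List (ZMod 7) := [0, 4, 3, 1, 6, 2, 5]
private def t12_I7 : List (ZMod 7) := [0, 3, 5, 2, 1, 6, 4]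
private def t12_Q7 : List (ZMod 7) := [0, 2, 4, 1, 5, 3, 6]
private def t12_C7 : List (ZMod 7) := [2, 3, 1, 4, 6, 5]

private def t12_P7 : Perm (Multiplicative (ZMod 7)) where
  toFun x := Multiplicative.ofAdd (t12_L7.getD (Multiplicative.toAdd x).val 0)
  invFun x := Multiplicative.ofAdd (t12_I7.getD (Multiplicative.toAdd x).val 0)
  left_inv := by decide
  right_inv := by decide

private theorem t12_orth7 : Orth t12_P7 := by
  refine ⟨by decide, ?_⟩
  have h : Function.LeftInverse
      (fun x : Multiplicative (ZMod 7) => Multiplicative.ofAdd (t12_Q7.getD (Multiplicative.toAdd x).val 0))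
      (fun x : Multiplicative (ZMod 7) => x⁻¹ * t12_P7 x) := by
    unfold Function.LeftInverse
    decide
  exact h.injective

private theorem t12_one7 : OneCyc t12_P7 := by
  apply t12_onecyc t12_P7 (t12_C7.map Multiplicative.ofAdd)
  · decide
  · decide

private def t12_L9 : List (ZMod 9) := [0, 2, 5, 8, 3, 7, 1, 4, 6]
private def t12_I9 : List (ZMod 9) := [0, 6, 1, 4, 7, 2, 8, 5, 3]
private def t12_Q9 : List (ZMod 9) := [0, 1, 5, 2, 6, 3, 7, 8, 4]
private def t12_C9 : List (ZMod 9) := [1, 2, 5, 7, 4, 3, 8, 6]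

private def t12_P9 : Perm (Multiplicative (ZMod 9)) where
  toFun x := Multiplicative.ofAdd (t12_L9.getD (Multiplicative.toAdd x).val 0)
  invFun x := Multiplicative.ofAdd (t12_I9.getD (Multiplicative.toAdd x).val 0)
  left_inv := by decide
  right_inv := by decide

private theorem t12_orth9 : Orth t12_P9 := by
  refine ⟨by decide, ?_⟩
  have h : Function.LeftInverse
      (fun x : Multiplicative (ZMod 9) => Multiplicative.ofAdd (t12_Q9.getD (Multiplicative.toAdd x).val 0))
      (fun x : Multiplicative (ZMod 9) => x⁻¹ * t12_P9 x) := by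
    unfold Function.LeftInverse
    decide
  exact h.injective

private theorem t12_one9 : OneCyc t12_P9 := by
  apply t12_onecyc t12_P9 (t12_C9.map Multiplicative.ofAdd)
  · decide
  · decide

private def t12_L33 : List (ZMod 3 × ZMod 3) := [(0, 0), (1, 1), (2, 2), (0, 1), (1, 2), (2, 0), (0, 2), (1, 0), (2, 1)]
private def t12_I33 : List (ZMod 3 × ZMod 3) := [(0, 0), (1, 0), (2, 0), (2, 1), (0, 1), (1, 1), (1, 2), (2, 2), (0, 2)]
private def t12_Q33 : List (ZMod 3 × ZMod 3) := [(0, 0), (1, 1), (2, 2), (0, 1), (1, 2), (2, 0), (0, 2), (1, 0), (2, 1)]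
private def t12_C33 : List (ZMod 3 × ZMod 3) := [(1, 0), (0, 1), (1, 1), (1, 2), (2, 0), (0, 2), (2, 2), (2, 1)]

private def t12_P33 : Perm (Multiplicative (ZMod 3 × ZMod 3)) where
  toFun x := Multiplicative.ofAdd (t12_L33.getD (3 * (Multiplicative.toAdd x).1.val + (Multiplicative.toAdd x).2.val) 0)
  invFun x := Multiplicative.ofAdd (t12_I33.getD (3 * (Multiplicative.toAdd x).1.val + (Multiplicative.toAdd x).2.val) 0)
  left_inv := by decide
  right_inv := by decide

private theorem t12_orth33 : Orth t12_P33 := by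
  refine ⟨by decide, ?_⟩
  have h : Function.LeftInverse
      (fun x : Multiplicative (ZMod 3 × ZMod 3) => Multiplicative.ofAdd (t12_Q33.getD (3 * (Multiplicative.toAdd x).1.val + (Multiplicative.toAdd x).2.val) 0))
      (fun x : Multiplicative (ZMod 3 × ZMod 3) => x⁻¹ * t12_P33 x) := by
    unfold Function.LeftInverse
    decide
  exact h.injective

private theorem t12_one33 : OneCyc t12_P33 := by
  apply t12_onecyc t12_P33 (t12_C33.map Multiplicative.ofAdd)
  · decide
  · decide

private def t12_L55 : List (ZMod 5 × ZMod 5) := [(0, 0), (4, 3), (3, 1), (3, 4), (3, 2), (4, 2), (0, 1), (2, 4), (0, 4), (1, 1), (3, 3), (2, 2), (4, 0), (4, 4), (2, 3), (4, 1), (2, 0), (3, 0), (2, 1), (1, 4), (1, 2), (1, 0), (0, 2), (1, 3), (0, 3)]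
private def t12_I55 : List (ZMod 5 × ZMod 5) := [(0, 0), (1, 1), (4, 2), (4, 4), (1, 3), (4, 1), (1, 4), (4, 0), (4, 3), (3, 4), (3, 1), (3, 3), (2, 1), (2, 4), (1, 2), (3, 2), (0, 2), (0, 4), (2, 0), (0, 3), (2, 2), (3, 0), (1, 0), (0, 1), (2, 3)]
private def t12_Q55 : List (ZMod 5 × ZMod 5) := [(0, 0), (2, 1), (1, 4), (3, 2), (2, 4), (4, 2), (3, 0), (1, 2), (2, 0), (4, 4), (4, 3), (2, 3), (4, 0), (2, 2), (4, 1), (3, 4), (0, 3), (1, 0), (0, 4), (0, 2), (1, 1), (1, 3), (0, 1), (3, 3), (3, 1)]
private def t12_C55 : List (ZMod 5 × ZMod 5) := [(1, 0), (4, 2), (0, 2), (3, 1), (2, 0), (3, 3), (2, 1), (2, 2), (4, 0), (1, 2), (2, 4), (2, 3), (4, 4), (0, 3), (3, 4), (1, 4), (1, 1), (0, 1), (4, 3), (1, 3), (0, 4), (3, 2), (3, 0), (4, 1)]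

private def t12_P55 : Perm (Multiplicative (ZMod 5 × ZMod 5)) where
  toFun x := Multiplicative.ofAdd (t12_L55.getD (5 * (Multiplicative.toAdd x).1.val + (Multiplicative.toAdd x).2.val) 0)
  invFun x := Multiplicative.ofAdd (t12_I55.getD (5 * (Multiplicative.toAdd x).1.val + (Multiplicative.toAdd x).2.val) 0)
  left_inv := by decide
  right_inv := by decide

private theorem t12_orth55 : Orth t12_P55 := by
  refine ⟨by decide, ?_⟩
  have h : Function.LeftInverse
      (fun x : Multiplicative (ZMod 5 × ZMod 5) => Multiplicative.ofAdd (t12_Q55.getD (5 * (Multiplicative.toAdd x).1.val + (Multiplicative.toAdd x).2.val) 0))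
      (fun x : Multiplicative (ZMod 5 × ZMod 5) => x⁻¹ * t12_P55 x) := by
    unfold Function.LeftInverse
    decide
  exact h.injective

private theorem t12_one55 : OneCyc t12_P55 := by
  apply t12_onecyc t12_P55 (t12_C55.map Multiplicative.ofAdd)
  · decide
  · decide

theorem R2_zmod_seven : R2 (Multiplicative (ZMod 7)) := by
  refine ⟨t12_P7, Multiplicative.ofAdd 6, Multiplicative.ofAdd 3, t12_orth7, t12_one7, ?_⟩
  refine ⟨by decide, by decide, by decide⟩

theorem R3_zmod_nine : R3 (Multiplicative (ZMod 9)) := by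
  refine ⟨t12_P9, Multiplicative.ofAdd 1, Multiplicative.ofAdd 3, Multiplicative.ofAdd 5,
    t12_orth9, t12_one9, ?_⟩
  refine ⟨by decide, by decide, by decide, by decide, by decide, by decide, by decide, by decide,
    by decide, by decide, by decide, by decide, by decide, by decide, by decide⟩

theorem R3_three_three : R3 (Multiplicative (ZMod 3 × ZMod 3)) := by
  refine ⟨t12_P33, Multiplicative.ofAdd (1, 0), Multiplicative.ofAdd (2, 2),
    Multiplicative.ofAdd (1, 1), t12_orth33, t12_one33, ?_⟩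
  refine ⟨by decide, by decide, by decide, by decide, by decide, by decide, by decide, by decide,
    by decide, by decide, by decide, by decide, by decide, by decide, by decide⟩

theorem R2_five_five : R2 (Multiplicative (ZMod 5 × ZMod 5)) := by
  refine ⟨t12_P55, Multiplicative.ofAdd (1, 0), Multiplicative.ofAdd (0, 1), t12_orth55,
    t12_one55, ?_⟩
  refine ⟨by decide, by decide, by decide⟩

private theorem t12_rseq {G : Type} [Group G] [Fintype G] (p : ℕ) [Fact p.Prime]
    (h : Fintype.card G = p)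
    (h1 : ∀ i, i < p - 1 → Multiplicative.ofAdd ((2 : ZMod p) ^ i) ≠ 1)
    (h2 : ∀ i, i < p - 1 → ∀ j, j < p - 1 → Multiplicative.ofAdd ((2 : ZMod p) ^ i) =
      Multiplicative.ofAdd ((2 : ZMod p) ^ j) → i = j)
    (h3 : ∀ i, i < p - 1 → ∀ j, j < p - 1 → (Multiplicative.ofAdd ((2 : ZMod p) ^ i))⁻¹ *
      Multiplicative.ofAdd ((2 : ZMod p) ^ ((i + 1) % (p - 1))) =
      (Multiplicative.ofAdd ((2 : ZMod p) ^ j))⁻¹ *
      Multiplicative.ofAdd ((2 : ZMod p) ^ ((j + 1) % (p - 1))) → i = j) : RSeq G := by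
  have hc : Nat.card G = p := by rw [Nat.card_eq_fintype_card, h]
  have hcyc : IsCyclic G := isCyclic_of_prime_card hc
  obtain ⟨e⟩ : Nonempty (Multiplicative (ZMod p) ≃* G) := by
    have e := zmodCyclicMulEquiv hcyc
    rw [hc] at e
    exact ⟨e⟩
  refine ⟨fun i => e (Multiplicative.ofAdd ((2 : ZMod p) ^ i)), ?_, ?_, ?_⟩
  · intro i hi h0
    rw [h] at hi
    exact h1 i hi (e.injective (h0.trans (map_one e).symm))
  · intro i j hi hj hij
    rw [h] at hi hj
    exact h2 i hi j hj (e.injective hij)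
  · intro i j hi hj hij
    rw [h] at hi hj hij
    simp only [← map_inv, ← map_mul] at hij
    exact h3 i hi j hj (e.injective hij)

theorem rseq_card_three (G : Type) [Group G] [Fintype G] (h : Fintype.card G = 3) : RSeq G :=
  t12_rseq 3 h (by decide) (by decide) (by decide)

private theorem t12_prime_five : Fact (Nat.Prime 5) := ⟨by norm_num⟩

theorem rseq_card_five (G : Type) [Group G] [Fintype G] (h : Fintype.card G = 5) : RSeq G :=
  @t12_rseq G _ _ 5 t12_prime_five h (by decide) (by decide) (by decide)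

end LibRS
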