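import Pool.Agent.LibRS.Defs

set_option autoImplicit false

namespace LibRS

open Equiv

theorem exists_min_normal {G : Type} [Group G] [Finite G] [Group.IsSolvable G] (M : Subgroup G)
    (hMn : M.Normal) (hM : M ≠ ⊥) :
    ∃ (p : ℕ) (N : Subgroup G), p.Prime ∧ N.Normal ∧ N ≠ ⊥ ∧ N ≤ M ∧
      (∀ a ∈ N, ∀ b ∈ N, a * b = b * a) ∧ (∀ a ∈ N, a ^ p = 1) ∧
      (∀ K : Subgroup G, K.Normal → K ≤ N → K = ⊥ ∨ K = N) := by
  obtain ⟨N, hN⟩ := (Set.toFinite {N : Subgroup G | N.Normal ∧ N ≠ ⊥ ∧ N ≤ M}).exists_minimal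
    ⟨M, hMn, hM, le_rfl⟩
  obtain ⟨⟨hNn, hN0, hNM⟩, hmin⟩ := hN
  have hmin' : ∀ K : Subgroup G, K.Normal → K ≤ N → K = ⊥ ∨ K = N := by
    intro K hK hKN
    by_cases h0 : K = ⊥
    · exact Or.inl h0
    · exact Or.inr (le_antisymm hKN (hmin ⟨hK, h0, hKN.trans hNM⟩ hKN))
  -- commutative
  have hcomm : ⁅N, N⁆ = ⊥ := by
    have h1 : ⁅N, N⁆ < N := Group.IsSolvable.commutator_lt_of_ne_bot hN0
    rcases hmin' ⁅N, N⁆ inferInstance h1.le with h2 | h2
    · exact h2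
    · exact absurd h2 h1.ne
  have hab : ∀ a ∈ N, ∀ b ∈ N, a * b = b * a := by
    intro a ha b hb
    have h1 := Subgroup.commutator_mem_commutator ha hb
    rw [hcomm, Subgroup.mem_bot] at h1
    exact commutatorElement_eq_one_iff_mul_comm.mp h1
  -- the prime
  have hcard : Nat.card N ≠ 1 := by
    intro h
    exact hN0 (Subgroup.card_eq_one.mp h)
  obtain ⟨p, hp, hpd⟩ := Nat.exists_prime_and_dvd hcard
  have : Fact p.Prime := ⟨hp⟩
  obtain ⟨x, hx⟩ := exists_prime_orderOf_dvd_card' p hpd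
  let K : Subgroup G :=
    { carrier := {a | a ∈ N ∧ a ^ p = 1}
      mul_mem' := by
        rintro a b ⟨ha, ha'⟩ ⟨hb, hb'⟩
        refine ⟨N.mul_mem ha hb, ?_⟩
        rw [(show Commute a b from hab a ha b hb).mul_pow, ha', hb', mul_one]
      one_mem' := ⟨N.one_mem, one_pow _⟩
      inv_mem' := by
        rintro a ⟨ha, ha'⟩
        exact ⟨N.inv_mem ha, by rw [inv_pow, ha', inv_one]⟩ }
  have hKn : K.Normal := by
    constructor
    rintro a ⟨ha, ha'⟩ g
    refine ⟨hNn.conj_mem a ha g, ?_⟩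
    rw [conj_pow, ha', mul_one, mul_inv_cancel]
  have hKN : K ≤ N := fun a ha => ha.1
  have hK0 : K ≠ ⊥ := by
    intro h
    have hxp : (x : G) ^ p = 1 := by
      have := pow_orderOf_eq_one x
      rw [hx] at this
      exact_mod_cast congrArg Subtype.val this
    have hxK : (x : G) ∈ K := ⟨x.2, hxp⟩
    rw [h, Subgroup.mem_bot] at hxK
    have hx1 : x = 1 := Subtype.ext hxK
    rw [hx1, orderOf_one] at hx
    exact hp.one_lt.ne hx
  have hKeq : K = N := (hmin' K hKn hKN).resolve_left hK0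
  refine ⟨p, N, hp, hNn, hN0, hNM, hab, ?_, hmin'⟩
  intro a ha
  rw [← hKeq] at ha
  exact ha.2

end LibRS
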