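import Pool.Agent.LibRS.Defs

set_option autoImplicit false

namespace LibRS

open Equiv

theorem t14_aux (A : Type) [AddCommGroup A] [Finite A] [Nontrivial A] (p : ℕ) [Fact p.Prime]
    (h : ∀ a : A, p • a = 0) : ∃ k : ℕ, Nonempty (GaloisField p k ≃+ A) := by
  let iM : Module (ZMod p) A := AddCommGroup.zmodModule (n := p) h
  have hfin : Module.Finite (ZMod p) A := Module.Finite.of_finite
  have hfree : Module.Free (ZMod p) A := Module.Free.of_divisionRing _ _
  have hk0 : Module.finrank (ZMod p) A ≠ 0 := by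
    intro h0
    have h1 : Subsingleton A := Module.finrank_zero_iff.mp h0
    exact not_subsingleton A h1
  refine ⟨Module.finrank (ZMod p) A, ⟨LinearEquiv.toAddEquiv
    (LinearEquiv.ofFinrankEq (R := ZMod p) (GaloisField p (Module.finrank (ZMod p) A)) A ?_)⟩⟩
  rw [GaloisField.finrank p hk0]

theorem t14_aux2 {G : Type} [Group G] [Finite G] (p : ℕ) [Fact p.Prime] (N : Subgroup G)
    (hne : N ≠ ⊥) (hab : ∀ a ∈ N, ∀ b ∈ N, a * b = b * a)
    (hexp : ∀ a ∈ N, a ^ p = 1) : ∃ k : ℕ, Nonempty (Multiplicative (GaloisField p k) ≃* N) := by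
  let iN : CommGroup N :=
    { (inferInstance : Group N) with
      mul_comm := fun a b => Subtype.ext (hab a a.2 b b.2) }
  have hnt : Nontrivial (Additive N) := (Subgroup.nontrivial_iff_ne_bot N).mpr hne
  obtain ⟨k, ⟨e⟩⟩ := t14_aux (Additive N) p (by
    intro x
    have h1 : (x.toMul : N) ^ p = 1 := Subtype.ext (hexp _ x.toMul.2)
    have h2 : Additive.ofMul ((x.toMul : N) ^ p) = p • x := by
      rw [ofMul_pow, ofMul_toMul]
    rw [← h2, h1, ofMul_one])
  exact ⟨k, ⟨AddEquiv.toMultiplicativeLeft e⟩⟩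

theorem exists_ext {G : Type} [Group G] [Finite G] (p : ℕ) (hp : p.Prime) (N : Subgroup G)
    [hN : N.Normal] (hne : N ≠ ⊥) (hab : ∀ a ∈ N, ∀ b ∈ N, a * b = b * a)
    (hexp : ∀ a ∈ N, a ^ p = 1) :
    ∃ (F : Type) (_ : Field F) (_ : Fintype F) (X : Ext F G (G ⧸ N)), CharP F p ∧
      Fintype.card F = Nat.card N ∧ (∀ g, g ∈ N ↔ ∃ n, X.ν n = g) ∧
      X.π = QuotientGroup.mk' N := by
  have hfact : Fact p.Prime := ⟨hp⟩
  obtain ⟨k, ⟨e⟩⟩ := t14_aux2 p N hne hab hexp
  have hfF : Finite (GaloisField p k) := Finite.of_equiv N e.symm.toEquiv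
  let iF : Fintype (GaloisField p k) := Fintype.ofFinite _
  let ν : GaloisField p k → G := fun n => (e (Multiplicative.ofAdd n) : G)
  have hνN : ∀ g, g ∈ N ↔ ∃ n, ν n = g := by
    intro g
    constructor
    · intro hg
      refine ⟨(e.symm ⟨g, hg⟩).toAdd, ?_⟩
      show ((e (Multiplicative.ofAdd (e.symm ⟨g, hg⟩).toAdd) : N) : G) = g
      rw [ofAdd_toAdd, MulEquiv.apply_symm_apply]
    · rintro ⟨n, rfl⟩
      exact (e (Multiplicative.ofAdd n)).2
  let β : G → GaloisField p k ≃+ GaloisField p k := fun g =>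
    AddEquiv.toMultiplicative.symm (((e.trans (MulAut.conjNormal (H := N) g)).trans e.symm))
  have hβ : ∀ g n, ν (β g n) = g * ν n * g⁻¹ := by
    intro g n
    show ((e (e.symm (MulAut.conjNormal (H := N) g (e (Multiplicative.ofAdd n)))) : N) : G) = _
    rw [MulEquiv.apply_symm_apply, MulAut.conjNormal_apply]
  let X : Ext (GaloisField p k) G (G ⧸ N) :=
    { ν := ν
      ν_add := by
        intro a b
        show ((e (Multiplicative.ofAdd (a + b)) : N) : G) = _
        rw [ofAdd_add, map_mul, Subgroup.coe_mul]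
      ν_inj := by
        intro a b hab
        exact Multiplicative.ofAdd.injective (e.injective (Subtype.ext hab))
      π := QuotientGroup.mk' N
      π_surj := QuotientGroup.mk'_surjective N
      π_ker := by
        intro g
        rw [← hνN, QuotientGroup.mk'_apply, QuotientGroup.eq_one_iff]
      β := β
      β_spec := by
        intro g n
        rw [hβ g n, inv_mul_cancel_right] }
  refine ⟨GaloisField p k, inferInstance, iF, X, inferInstance, ?_, hνN, rfl⟩
  rw [← Nat.card_eq_fintype_card]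
  exact Nat.card_congr (Multiplicative.ofAdd.trans e.toEquiv)

end LibRS
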