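import Pool.Agent.LibRS.Defs
import Pool.Agent.LibRS.T13

set_option autoImplicit false

namespace LibRS

open Equiv

/-- an automorphism of order dividing a prime `r ≥ 5` of a group of order dividing 9 is trivial -/
theorem t15_aut {P : Type} [Group P] [Finite P] (hcard : Nat.card P ∣ 9) (r : ℕ) (hr : r.Prime)
    (h2 : r ≠ 2) (h3 : r ≠ 3) (σ : MulAut P) (hσ : σ ^ r = 1) : ∀ x, σ x = x := by
  have hfact : Fact r.Prime := ⟨hr⟩
  let Fx : Subgroup P := MonoidHom.eqLocus (MulEquiv.toMonoidHom σ) (MonoidHom.id P)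
  have hFx : ∀ x, x ∈ Fx ↔ σ x = x := fun x => Iff.rfl
  have hpg : IsPGroup r (Subgroup.zpowers σ) := by
    apply IsPGroup.of_card_dvd_pow (n := 1)
    rw [Nat.card_zpowers, pow_one]
    exact orderOf_dvd_of_pow_eq_one hσ
  have hmod := hpg.card_modEq_card_fixedPoints P
  have hfix : (MulAction.fixedPoints (Subgroup.zpowers σ) P : Set P) = (Fx : Set P) := by
    ext x
    rw [MulAction.mem_fixedPoints]
    constructor
    · intro h
      exact h ⟨σ, Subgroup.mem_zpowers σ⟩
    · rintro h ⟨τ, hτ⟩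
      obtain ⟨i, rfl⟩ := Subgroup.mem_zpowers_iff.mp hτ
      have h4 : σ ∈ MulAction.stabilizer (MulAut P) x := h
      exact Subgroup.zpow_mem _ h4 i
  have hfc : Nat.card (MulAction.fixedPoints (Subgroup.zpowers σ) P) = Nat.card Fx := by
    rw [hfix]
    rfl
  rw [hfc] at hmod
  have hdvd : Nat.card Fx ∣ Nat.card P := Subgroup.card_subgroup_dvd_card Fx
  have hc : Nat.card P = 1 ∨ Nat.card P = 3 ∨ Nat.card P = 9 := by
    have h9 : (9 : ℕ) = 3 ^ 2 := by norm_num
    rw [h9] at hcard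
    obtain ⟨k, hk, hk'⟩ := (Nat.dvd_prime_pow Nat.prime_three).mp hcard
    interval_cases k <;> omega
  have hf : Nat.card Fx = 1 ∨ Nat.card Fx = 3 ∨ Nat.card Fx = 9 := by
    have h9 : (9 : ℕ) = 3 ^ 2 := by norm_num
    have h10 := hdvd.trans hcard
    rw [h9] at h10
    obtain ⟨k, hk, hk'⟩ := (Nat.dvd_prime_pow Nat.prime_three).mp h10
    interval_cases k <;> omega
  have hle : Nat.card Fx ≤ Nat.card P := Nat.le_of_dvd Nat.card_pos hdvd
  have hsub : r ∣ Nat.card P - Nat.card Fx := (Nat.modEq_iff_dvd' hle).mp hmod.symm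
  have hr2 : ¬ r ∣ 2 := fun h => h2 ((Nat.prime_dvd_prime_iff_eq hr Nat.prime_two).mp h)
  have hr3 : ¬ r ∣ 3 := fun h => h3 ((Nat.prime_dvd_prime_iff_eq hr Nat.prime_three).mp h)
  have heq : Nat.card Fx = Nat.card P := by
    rcases hc with hc | hc | hc <;> rcases hf with hf | hf | hf <;> rw [hc, hf] at hsub hle ⊢
    · omega
    · omega
    · exact absurd hsub hr2
    · omega
    · exfalso
      have : (9 - 1 : ℕ) = 2 ^ 3 := by norm_num
      rw [this] at hsub
      exact hr2 (hr.dvd_of_dvd_pow hsub)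
    · exfalso
      have : (9 - 3 : ℕ) = 2 * 3 := by norm_num
      rw [this] at hsub
      rcases (hr.dvd_mul).mp hsub with h | h
      · exact hr2 h
      · exact hr3 h
  have htop : Fx = ⊤ := Subgroup.eq_top_of_card_eq Fx heq
  intro x
  rw [← hFx, htop]
  exact Subgroup.mem_top x

/-- an r-group acting on a group of order dividing 9 by conjugation, `r ≥ 5`, acts trivially -/
theorem normal_step {G : Type} [Group G] [Finite G] [Group.IsSolvable G] (hodd : Odd (Nat.card G))
    (P : Subgroup G) (hPn : P.Normal) (hcard : Nat.card P ∣ 9) (hP : P ≠ ⊤) :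
    (∃ (r : ℕ) (R : Subgroup G), r.Prime ∧ r ≠ 3 ∧ R.Normal ∧ R ≠ ⊥ ∧ IsPGroup r R) ∨
    (∃ P' : Subgroup G, P'.Normal ∧ IsPGroup 3 P' ∧ Nat.card P < Nat.card P') := by
  have htop : (⊤ : Subgroup (G ⧸ P)) ≠ ⊥ := by
    intro h
    apply hP
    rw [eq_top_iff]
    intro g _
    rw [← QuotientGroup.eq_one_iff]
    have : (g : G ⧸ P) ∈ (⊤ : Subgroup (G ⧸ P)) := Subgroup.mem_top _
    rw [h, Subgroup.mem_bot] at this
    exact this
  obtain ⟨r, N, hr, hNn, hN0, _, hNab, hNexp, _⟩ :=
    exists_min_normal (⊤ : Subgroup (G ⧸ P)) inferInstance htop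
  set M : Subgroup G := N.comap (QuotientGroup.mk' P) with hM
  have hMn : M.Normal := hNn.comap _
  have hmem : ∀ g, g ∈ M ↔ (g : G ⧸ P) ∈ N := fun g => Iff.rfl
  have hPM : P ≤ M := by
    intro g hg
    rw [hmem, (QuotientGroup.eq_one_iff g).mpr hg]
    exact N.one_mem
  -- an element of `M` outside `P`
  obtain ⟨m₀, hm₀, hm₀P⟩ : ∃ m₀ ∈ M, m₀ ∉ P := by
    obtain ⟨y, hy, hy1⟩ := (Subgroup.ne_bot_iff_exists_ne_one).mp hN0 |>.elim
      fun a ha => (⟨(a : G ⧸ P), a.2, fun h => ha (Subtype.ext h)⟩ :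
        ∃ y : G ⧸ P, y ∈ N ∧ y ≠ 1)
    obtain ⟨g, rfl⟩ := QuotientGroup.mk_surjective y
    exact ⟨g, hy, fun h => hy1 ((QuotientGroup.eq_one_iff g).mpr h)⟩
  have hMr : ∀ g ∈ M, g ^ r ∈ P := by
    intro g hg
    rw [← QuotientGroup.eq_one_iff]
    have := hNexp _ ((hmem g).mp hg)
    exact_mod_cast this
  have hP9 : ∀ g ∈ P, g ^ 9 = 1 := by
    intro g hg
    have h1 : (⟨g, hg⟩ : P) ^ Nat.card P = 1 := pow_card_eq_one'
    obtain ⟨c, hc⟩ := hcard
    have h2 : g ^ Nat.card P = 1 := congrArg Subtype.val h1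
    rw [hc, pow_mul, h2, one_pow]
  by_cases h3 : r = 3
  · right
    subst h3
    refine ⟨M, hMn, ?_, ?_⟩
    · rintro ⟨g, hg⟩
      refine ⟨3, Subtype.ext ?_⟩
      show g ^ (3 ^ 3) = 1
      have : (3 ^ 3 : ℕ) = 3 * 9 := by norm_num
      rw [this, pow_mul]
      exact hP9 _ (hMr g hg)
    · have hlt : P < M := lt_of_le_of_ne hPM (fun h => hm₀P (h ▸ hm₀))
      exact Set.Finite.card_lt_card (Set.toFinite (M : Set G)) hlt
  · left
    -- r ≠ 2
    have h2 : r ≠ 2 := by
      rintro rfl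
      have h4 : orderOf (m₀ : G ⧸ P) = 2 := by
        apply orderOf_eq_prime (hNexp _ ((hmem m₀).mp hm₀))
        intro h
        exact hm₀P ((QuotientGroup.eq_one_iff m₀).mp h)
      have h5 : 2 ∣ Nat.card (G ⧸ P) := h4 ▸ orderOf_dvd_natCard _
      have h6 : Nat.card (G ⧸ P) ∣ Nat.card G := Subgroup.card_quotient_dvd_card P
      have h7 := h5.trans h6
      rw [Nat.odd_iff] at hodd
      omega
    -- `P` is commutative
    have hPab : ∀ a ∈ P, ∀ b ∈ P, a * b = b * a := by
      have hc : Nat.card P = 1 ∨ Nat.card P = 3 ∨ Nat.card P = 9 := by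
        have h9 : (9 : ℕ) = 3 ^ 2 := by norm_num
        rw [h9] at hcard
        obtain ⟨k, hk, hk'⟩ := (Nat.dvd_prime_pow Nat.prime_three).mp hcard
        interval_cases k <;> omega
      have hf3 : Fact (Nat.Prime 3) := ⟨Nat.prime_three⟩
      have key : ∀ a b : P, a * b = b * a := by
        rcases hc with hc | hc | hc
        · intro a b
          have : Subsingleton P := (Nat.card_eq_one_iff_unique.mp hc).1
          exact Subsingleton.elim _ _
        · have hcyc : IsCyclic P := isCyclic_of_prime_card hc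
          intro a b
          obtain ⟨g, hg⟩ := hcyc.exists_generator
          obtain ⟨i, rfl⟩ := Subgroup.mem_zpowers_iff.mp (hg a)
          obtain ⟨j, rfl⟩ := Subgroup.mem_zpowers_iff.mp (hg b)
          rw [← zpow_add, ← zpow_add, add_comm]
        · exact (IsPGroup.isMulCommutative_of_card_eq_prime_sq (p := 3)
            (by rw [hc]; norm_num)).is_comm.comm
      intro a ha b hb
      exact congrArg Subtype.val (key ⟨a, ha⟩ ⟨b, hb⟩)
    -- `M` centralises `P`
    have hMP : ∀ m ∈ M, ∀ x ∈ P, m * x = x * m := by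
      intro m hm x hx
      have h4 : (MulAut.conjNormal (H := P) m) ^ r = 1 := by
        rw [← map_pow]
        ext y
        rw [MulAut.conjNormal_apply, MulAut.one_apply,
          hPab _ (hMr m hm) _ y.2, mul_inv_cancel_right]
      have h5 := t15_aut hcard r hr h2 h3 _ h4 ⟨x, hx⟩
      have h6 := congrArg Subtype.val h5
      rw [MulAut.conjNormal_apply] at h6
      exact mul_inv_eq_iff_eq_mul.mp h6
    have hcop : Nat.Coprime r 9 := by
      have h9 : (9 : ℕ) = 3 ^ 2 := by norm_num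
      rw [h9]
      exact Nat.Coprime.pow_right 2 ((Nat.coprime_primes hr Nat.prime_three).mpr h3)
    have hone : ∀ g : G, g ^ r = 1 → g ^ 9 = 1 → g = 1 := by
      intro g h4 h5
      have h6 := Nat.dvd_gcd (orderOf_dvd_of_pow_eq_one h4) (orderOf_dvd_of_pow_eq_one h5)
      rw [hcop.gcd_eq_one, Nat.dvd_one, orderOf_eq_one_iff] at h6
      exact h6
    -- `M` is commutative
    have hMab : ∀ a ∈ M, ∀ b ∈ M, a * b = b * a := by
      intro a ha b hb
      set c := a * b * a⁻¹ * b⁻¹ with hc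
      have hcP : c ∈ P := by
        rw [← QuotientGroup.eq_one_iff, hc]
        have h4 := hNab _ ((hmem a).mp ha) _ ((hmem b).mp hb)
        rw [QuotientGroup.mk_mul, QuotientGroup.mk_mul, QuotientGroup.mk_mul,
          QuotientGroup.mk_inv, QuotientGroup.mk_inv, h4]
        group
      have hca : a * c = c * a := hMP a ha c hcP
      have hn : ∀ n : ℕ, a ^ n * b * (a ^ n)⁻¹ = c ^ n * b := by
        intro n
        induction n with
        | zero => simp
        | succ n ih =>
          have h5 : a ^ (n + 1) * b * (a ^ (n + 1))⁻¹ = a * (a ^ n * b * (a ^ n)⁻¹) * a⁻¹ := by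
            rw [pow_succ']
            group
          have h6 : a * c ^ n = c ^ n * a := (show Commute a c from hca).pow_right n
          have h7 : a * b * a⁻¹ = c * b := by rw [hc]; group
          calc a ^ (n + 1) * b * (a ^ (n + 1))⁻¹ = a * (c ^ n * b) * a⁻¹ := by rw [h5, ih]
            _ = (a * c ^ n) * b * a⁻¹ := by group
            _ = c ^ n * (a * b * a⁻¹) := by rw [h6]; group
            _ = c ^ (n + 1) * b := by rw [h7, pow_succ]; group
      have h5 := hn r
      have h6 : a ^ r * b = b * a ^ r := (hMP b hb (a ^ r) (hMr a ha)).symm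
      rw [h6, mul_inv_cancel_right] at h5
      have h7 : c ^ r = 1 := by
        have : c ^ r * b = 1 * b := by rw [one_mul]; exact h5.symm
        exact mul_right_cancel this
      have h8 : c = 1 := hone c h7 (hP9 c hcP)
      have h9 : a * b = c * (b * a) := by rw [hc]; group
      rw [h9, h8, one_mul]
    let R : Subgroup G :=
      { carrier := {a | a ∈ M ∧ a ^ r = 1}
        mul_mem' := by
          rintro a b ⟨ha, ha'⟩ ⟨hb, hb'⟩
          refine ⟨M.mul_mem ha hb, ?_⟩
          rw [(show Commute a b from hMab a ha b hb).mul_pow, ha', hb', mul_one]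
        one_mem' := ⟨M.one_mem, one_pow _⟩
        inv_mem' := by
          rintro a ⟨ha, ha'⟩
          exact ⟨M.inv_mem ha, by rw [inv_pow, ha', inv_one]⟩ }
    refine ⟨r, R, hr, h3, ?_, ?_, ?_⟩
    · constructor
      rintro a ⟨ha, ha'⟩ g
      refine ⟨hMn.conj_mem a ha g, ?_⟩
      rw [conj_pow, ha', mul_one, mul_inv_cancel]
    · intro h
      have h4 : m₀ ^ 9 ∈ R := by
        refine ⟨M.pow_mem hm₀ 9, ?_⟩
        rw [← pow_mul, mul_comm, pow_mul]
        exact hP9 _ (hMr m₀ hm₀)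
      rw [h, Subgroup.mem_bot] at h4
      apply hm₀P
      rw [← QuotientGroup.eq_one_iff]
      have h5 : (m₀ : G ⧸ P) ^ r = 1 := hNexp _ ((hmem m₀).mp hm₀)
      have h6 : (m₀ : G ⧸ P) ^ 9 = 1 := by
        have := congrArg (fun g : G => (g : G ⧸ P)) h4
        exact_mod_cast this
      have h7 := Nat.dvd_gcd (orderOf_dvd_of_pow_eq_one h5) (orderOf_dvd_of_pow_eq_one h6)
      rw [hcop.gcd_eq_one, Nat.dvd_one, orderOf_eq_one_iff] at h7
      exact h7
    · rintro ⟨a, ha, ha'⟩
      exact ⟨1, Subtype.ext (by rw [pow_one]; exact ha')⟩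

end LibRS
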