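import Pool.Agent.LibRS.Defs

set_option autoImplicit false

namespace LibRS

theorem T16_central {G : Type} [Group G] (a : G) (ha : ∀ g : G, g * a * g⁻¹ = a) :
    (Subgroup.zpowers a).Normal := by
  constructor
  intro n hn g
  obtain ⟨k, rfl⟩ := Subgroup.mem_zpowers_iff.mp hn
  refine Subgroup.mem_zpowers_iff.mpr ⟨k, ?_⟩
  rw [← conj_zpow, ha]

theorem min_normal_pgroup {G : Type} [Group G] [Finite G] (p : ℕ) (hp : p.Prime)
    (hG : IsPGroup p G) (N : Subgroup G) (hN : N.Normal) (hne : N ≠ ⊥)
    (hmin : ∀ K : Subgroup G, K.Normal → K ≤ N → K = ⊥ ∨ K = N) : Nat.card N = p := by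
  have hfact : Fact p.Prime := ⟨hp⟩
  have hNp : IsPGroup p N := hG.to_subgroup N
  have hnt : Nontrivial N := (Subgroup.nontrivial_iff_ne_bot N).mpr hne
  have hdvd : p ∣ Nat.card N := by
    obtain ⟨k, hk⟩ := IsPGroup.iff_card.mp hNp
    rw [hk]
    have hk0 : k ≠ 0 := by
      rintro rfl
      rw [pow_zero] at hk
      have := Finite.one_lt_card (α := N)
      omega
    exact dvd_pow_self p hk0
  have hCp : IsPGroup p (ConjAct G) := hG
  have h1 : (1 : N) ∈ MulAction.fixedPoints (ConjAct G) N := by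
    intro g
    exact smul_one g
  obtain ⟨b, hb, hb1⟩ := hCp.exists_fixed_point_of_prime_dvd_card_of_fixed_point N hdvd h1
  have hbc : ∀ g : G, g * (b : G) * g⁻¹ = b := by
    intro g
    have h2 : (((ConjAct.toConjAct g) • b : N) : G) = (b : G) :=
      congrArg (Subtype.val) (hb (ConjAct.toConjAct g))
    rw [ConjAct.Subgroup.val_conj_smul, ConjAct.toConjAct_smul] at h2
    exact h2
  have hb1' : (b : G) ≠ 1 := fun h => hb1 (Subtype.ext h.symm)
  -- `N` is generated by a central element
  have hNb : Subgroup.zpowers (b : G) = N := by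
    rcases hmin _ (T16_central (b : G) hbc) (by
      rw [Subgroup.zpowers_le]; exact b.2) with h | h
    · rw [Subgroup.zpowers_eq_bot] at h
      exact absurd h hb1'
    · exact h
  obtain ⟨a, ha⟩ := exists_prime_orderOf_dvd_card' (G := N) p hdvd
  have hac : ∀ g : G, g * (a : G) * g⁻¹ = a := by
    intro g
    have h2 : (a : G) ∈ Subgroup.zpowers (b : G) := by rw [hNb]; exact a.2
    obtain ⟨k, hk⟩ := Subgroup.mem_zpowers_iff.mp h2
    rw [← hk, ← conj_zpow, hbc]
  have hao : orderOf (a : G) = p := by rw [Subgroup.orderOf_coe, ha]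
  rcases hmin _ (T16_central (a : G) hac) (by
      rw [Subgroup.zpowers_le]; exact a.2) with h | h
  · rw [Subgroup.zpowers_eq_bot] at h
    rw [h, orderOf_one] at hao
    exact absurd hao.symm hp.one_lt.ne'
  · rw [← h, Nat.card_zpowers, hao]

theorem T16_card {G : Type} [Group G] [Finite G] (P N : Subgroup G) [hN : N.Normal] :
    Nat.card (N.subgroupOf P) * Nat.card (P.map (QuotientGroup.mk' N)) = Nat.card P := by
  have h1 := Subgroup.card_mul_index ((QuotientGroup.mk' N).domRestrict P).ker
  rw [Subgroup.index_ker, MonoidHom.domRestrict_range, MonoidHom.ker_domRestrict,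
    QuotientGroup.ker_mk'] at h1
  exact h1

theorem quot_pgroup_card {G : Type} [Group G] [Finite G] (P N : Subgroup G) (hP : P.Normal)
    [hN : N.Normal] (h3 : IsPGroup 3 P) :
    (P.map (QuotientGroup.mk' N)).Normal ∧ IsPGroup 3 (P.map (QuotientGroup.mk' N)) ∧
    (N ≤ P → Nat.card (P.map (QuotientGroup.mk' N)) * Nat.card N = Nat.card P) ∧
    (Nat.Coprime (Nat.card N) 3 → Nat.card (P.map (QuotientGroup.mk' N)) = Nat.card P) := by
  have hfact : Fact (Nat.Prime 3) := ⟨Nat.prime_three⟩
  refine ⟨hP.map _ (QuotientGroup.mk'_surjective N), h3.map _, ?_, ?_⟩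
  · intro hNP
    have h1 := T16_card P N
    rw [Nat.card_congr (Subgroup.subgroupOfEquivOfLe hNP).toEquiv] at h1
    rw [mul_comm]
    exact h1
  · intro hcop
    have h1 := T16_card P N
    have h2 : Nat.card (N.subgroupOf P) ∣ Nat.card N := by
      let f : N.subgroupOf P →* N :=
        { toFun := fun x => ⟨((x : P) : G), x.2⟩
          map_one' := rfl
          map_mul' := fun _ _ => rfl }
      apply Subgroup.card_dvd_of_injective f
      intro x y hxy
      have h3 : ((f x : N) : G) = ((f y : N) : G) := congrArg (fun z : N => (z : G)) hxy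
      exact Subtype.ext (Subtype.ext h3)
    obtain ⟨k, hk⟩ := IsPGroup.iff_card.mp h3
    have h4 : Nat.card (N.subgroupOf P) ∣ 3 ^ k := by
      rw [← hk]
      exact Subgroup.card_subgroup_dvd_card _
    have h5 : Nat.Coprime (Nat.card (N.subgroupOf P)) (3 ^ k) :=
      (Nat.Coprime.pow_right k hcop).coprime_dvd_left h2
    have h6 : Nat.card (N.subgroupOf P) = 1 := Nat.Coprime.eq_one_of_dvd h5 h4
    rw [h6, one_mul] at h1
    exact h1

section

variable {F G Q : Type} [Field F] [Group G] [Group Q]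

theorem T16_nu_zero (X : Ext F G Q) : X.ν 0 = 1 := by
  have h := X.ν_add 0 0
  rw [add_zero] at h
  exact (mul_eq_left.mp h.symm)

/-- The embedding as a homomorphism. -/
def T16_hom (X : Ext F G Q) : Multiplicative F →* G where
  toFun x := X.ν x.toAdd
  map_one' := T16_nu_zero X
  map_mul' _ _ := X.ν_add _ _

theorem T16_hom_inj (X : Ext F G Q) : Function.Injective (T16_hom X) := by
  intro x y h
  exact Multiplicative.toAdd.injective (X.ν_inj h)

theorem T16_range (X : Ext F G Q) : (T16_hom X).range = X.π.ker := by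
  ext g
  rw [MonoidHom.mem_ker, X.π_ker]
  constructor
  · rintro ⟨n, hn⟩
    exact ⟨n.toAdd, hn⟩
  · rintro ⟨n, hn⟩
    exact ⟨Multiplicative.ofAdd n, hn⟩

end

theorem ext_card {F G Q : Type} [Field F] [Fintype F] [Group G] [Finite G] [Group Q]
    [Finite Q] (X : Ext F G Q) : Nat.card G = Fintype.card F * Nat.card Q := by
  have h1 := Subgroup.card_mul_index X.π.ker
  rw [Subgroup.index_ker, MonoidHom.range_eq_top.mpr X.π_surj, Subgroup.card_top, ← T16_range] at h1
  rw [← h1]
  congr 1
  have e := MonoidHom.ofInjective (T16_hom_inj X)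
  rw [← Nat.card_congr e.toEquiv, Nat.card_congr Multiplicative.toAdd, Nat.card_eq_fintype_card]

theorem exists_elt_prime {G : Type} [Group G] [Finite G] {F Q : Type} [Field F] [Fintype F]
    [Group Q] [Finite Q] (X : Ext F G Q) (r : ℕ) (hr : r.Prime) (hQ : Nat.card Q = r)
    (hcop : ¬ r ∣ Fintype.card F) : ∃ a : G, a ^ r = 1 ∧ X.π a ≠ 1 := by
  have hfact : Fact r.Prime := ⟨hr⟩
  have hdvd : r ∣ Nat.card G := by
    rw [ext_card X, hQ]
    exact dvd_mul_left _ _
  obtain ⟨a, ha⟩ := exists_prime_orderOf_dvd_card' (G := G) r hdvd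
  refine ⟨a, ?_, ?_⟩
  · rw [← ha]; exact pow_orderOf_eq_one a
  · intro h
    obtain ⟨n, hn⟩ := (X.π_ker a).mp h
    apply hcop
    have h1 : orderOf (T16_hom X (Multiplicative.ofAdd n)) = orderOf (Multiplicative.ofAdd n) :=
      orderOf_injective _ (T16_hom_inj X) _
    have h2 : T16_hom X (Multiplicative.ofAdd n) = a := hn
    rw [h2, ha] at h1
    rw [h1]
    have h3 := orderOf_dvd_natCard (Multiplicative.ofAdd n)
    rwa [Nat.card_congr Multiplicative.toAdd, Nat.card_eq_fintype_card] at h3

end LibRS
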