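import Pool.Agent.LibRS.Defs

set_option autoImplicit false

namespace LibRS

open Equiv

theorem card_prime_case {G : Type} [Group G] [Finite G] (p : ℕ) (hp : p.Prime)
    (h : Nat.card G = p) : Nonempty (Multiplicative (ZMod p) ≃* G) := by
  have := Fact.mk hp
  have hc : IsCyclic G := isCyclic_of_prime_card h
  have e := zmodCyclicMulEquiv hc
  rw [h] at e
  exact ⟨e⟩

theorem card_fifteen {G : Type} [Group G] [Finite G] (h : Nat.card G = 15) :
    Nonempty (Multiplicative (ZMod 15) ≃* G) := by
  have hZ : IsZGroup G := IsZGroup.of_squarefree (by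
    rw [h, show (15 : ℕ) = 3 * 5 by norm_num]
    exact (Nat.squarefree_mul (by norm_num)).mpr
      ⟨(show Nat.Prime 3 by norm_num).prime.squarefree,
        (show Nat.Prime 5 by norm_num).prime.squarefree⟩)
  have key : ∀ (p : ℕ) [Fact p.Prime] (P : Sylow p G), (↑P : Subgroup G).Normal := by
    intro p hp P
    have : Fintype (Sylow p G) := Fintype.ofFinite _
    have h1 := card_sylow_modEq_one p G
    have h2 := P.card_dvd_index
    have h3 : (↑P : Subgroup G).index ∣ 15 := by
      rw [← h]; exact Subgroup.index_dvd_card _
    have h4 : Nat.card (Sylow p G) = 1 := by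
      have h5 := P.card_eq_multiplicity
      have h6 := Subgroup.card_mul_index (↑P : Subgroup G)
      rw [h] at h5 h6
      by_cases hp3 : p = 3
      · subst hp3
        have h7 : Nat.card P = 3 := by
          rw [h5]
          have : Nat.factorization 15 3 = 1 := by
            rw [show (15 : ℕ) = 3 * 5 by norm_num, Nat.factorization_mul (by norm_num)
              (by norm_num), Finsupp.add_apply, Nat.Prime.factorization_self (by norm_num)]
            rw [Nat.factorization_eq_zero_of_not_dvd (by norm_num)]
          rw [this]; norm_num
        have h8 : (↑P : Subgroup G).index = 5 := by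
          have : Nat.card (↑P : Subgroup G) = 3 := h7
          rw [this] at h6; omega
        rw [h8] at h2
        rcases (Nat.dvd_prime (by norm_num)).mp h2 with h9 | h9
        · exact h9
        · rw [h9] at h1; exact absurd h1 (by decide)
      · by_cases hp5 : p = 5
        · subst hp5
          have h7 : Nat.card P = 5 := by
            rw [h5]
            have : Nat.factorization 15 5 = 1 := by
              rw [show (15 : ℕ) = 3 * 5 by norm_num, Nat.factorization_mul (by norm_num)
                (by norm_num), Finsupp.add_apply, Nat.Prime.factorization_self (by norm_num)]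
              rw [Nat.factorization_eq_zero_of_not_dvd (by norm_num)]
            rw [this]; norm_num
          have h8 : (↑P : Subgroup G).index = 3 := by
            have : Nat.card (↑P : Subgroup G) = 5 := h7
            rw [this] at h6; omega
          rw [h8] at h2
          rcases (Nat.dvd_prime (by norm_num)).mp h2 with h9 | h9
          · exact h9
          · rw [h9] at h1; exact absurd h1 (by decide)
        · have hnd : ¬ p ∣ 15 := by
            intro hd
            have : p ∣ 3 * 5 := by simpa using hd
            rcases (Nat.Prime.dvd_mul hp.out).mp this with h7 | h7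
            · exact hp3 ((Nat.prime_dvd_prime_iff_eq hp.out (by norm_num)).mp h7)
            · exact hp5 ((Nat.prime_dvd_prime_iff_eq hp.out (by norm_num)).mp h7)
          have h7 : Nat.card P = 1 := by
            rw [h5, Nat.factorization_eq_zero_of_not_dvd hnd, pow_zero]
          have h8 : (↑P : Subgroup G) = ⊥ := Subgroup.eq_bot_of_card_eq _ h7
          have hsub : Subsingleton (Sylow p G) := by
            constructor
            intro A B
            have : ∀ A : Sylow p G, (↑A : Subgroup G) = ⊥ := by
              intro A
              apply Subgroup.eq_bot_of_card_eq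
              have := A.card_eq_multiplicity
              rw [h, Nat.factorization_eq_zero_of_not_dvd hnd, pow_zero] at this
              exact this
            exact Sylow.ext ((this A).trans (this B).symm)
          have : Nonempty (Sylow p G) := ⟨P⟩
          exact Nat.card_unique
    have h5 : Subsingleton (Sylow p G) := (Nat.card_eq_one_iff_unique.mp h4).1
    exact Sylow.normal_of_subsingleton P
  have hN : Group.IsNilpotent G :=
    ((Group.isNilpotent_of_finite_tfae (G := G)).out 0 3).mpr (fun p hp P => @key p hp P)
  have hc : IsCyclic G := inferInstance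
  have e := zmodCyclicMulEquiv hc
  rw [h] at e
  exact ⟨e⟩

theorem T17_add {B : Type} [AddCommGroup B] [Finite B] (p : ℕ) [hp : Fact p.Prime]
    (h : Nat.card B = p ^ 2) [Module (ZMod p) B] : Nonempty ((ZMod p × ZMod p) ≃+ B) := by
  have : Module.Finite (ZMod p) B := inferInstance
  have : Module.Free (ZMod p) B := inferInstance
  have hfr : Module.finrank (ZMod p) B = 2 := by
    have h4 := Module.natCard_eq_pow_finrank (K := ZMod p) (V := B)
    rw [Nat.card_zmod, h] at h4
    exact (Nat.pow_right_injective hp.out.two_le h4).symm
  have hfr2 : Module.finrank (ZMod p) (ZMod p × ZMod p) = 2 := by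
    rw [Module.finrank_prod]; simp
  have e : (ZMod p × ZMod p) ≃ₗ[ZMod p] B :=
    LinearEquiv.ofFinrankEq _ _ (hfr2.trans hfr.symm)
  exact ⟨e.toAddEquiv⟩

theorem T17_elem {A : Type} [CommGroup A] [Finite A] (p : ℕ) [hp : Fact p.Prime]
    (h : Nat.card A = p ^ 2) (hpow : ∀ x : A, x ^ p = 1) :
    Nonempty (Multiplicative (ZMod p × ZMod p) ≃* A) := by
  have hf : Finite (Additive A) := inferInstanceAs (Finite A)
  obtain ⟨e⟩ := @T17_add (Additive A) _ hf p hp h
    (AddCommGroup.zmodModule (n := p) fun x => hpow x.toMul)
  exact ⟨AddEquiv.toMultiplicativeLeft e⟩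

theorem card_nine_cases {G : Type} [Group G] [Finite G] (p : ℕ) (hp : p.Prime)
    (h : Nat.card G = p ^ 2) :
    Nonempty (Multiplicative (ZMod (p ^ 2)) ≃* G) ∨
    Nonempty (Multiplicative (ZMod p × ZMod p) ≃* G) := by
  have := Fact.mk hp
  by_cases hcyc : IsCyclic G
  · left
    have e := zmodCyclicMulEquiv hcyc
    rw [h] at e
    exact ⟨e⟩
  · right
    have hpow : ∀ x : G, x ^ p = 1 := by
      intro x
      have h1 : orderOf x ∣ p ^ 2 := by rw [← h]; exact orderOf_dvd_natCard x
      obtain ⟨i, hi, hx⟩ := (Nat.dvd_prime_pow hp).mp h1
      have hi2 : i ≠ 2 := by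
        intro h2
        apply hcyc
        rw [h2, ← h] at hx
        exact isCyclic_of_orderOf_eq_card x hx
      have hi1 : i ≤ 1 := by omega
      apply orderOf_dvd_iff_pow_eq_one.mp
      rw [hx]
      calc p ^ i ∣ p ^ 1 := pow_dvd_pow p hi1
        _ = p := pow_one p
    exact @T17_elem G (IsPGroup.commGroupOfCardEqPrimeSq h) _ p _ h hpow

end LibRS
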