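import Pool.Agent.LibRS.T02
import Pool.Agent.LibRS.T05
set_option autoImplicit false
namespace LibRS
open Equiv



variable {F G Q : Type}

theorem t18_inv {α : Type} [Finite α] (f : Perm α) (S : Set α) (hS : ∀ x ∈ S, f x ∈ S)
    {x y : α} (hx : x ∈ S) (h : f.SameCycle x y) : y ∈ S := by
  obtain ⟨i, -, rfl⟩ := h.exists_pow_eq'
  clear h
  induction i with
  | zero => simpa using hx
  | succ n ih =>
    rw [pow_succ', Perm.mul_apply]
    exact hS _ ih

theorem t18_semi {α β : Type} [Finite α] (z : Perm α) (f : Perm β) (φ : α → β)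
    (h : ∀ x, f (φ x) = φ (z x)) {x y : α} (hxy : z.SameCycle x y) : f.SameCycle (φ x) (φ y) := by
  obtain ⟨i, -, rfl⟩ := hxy.exists_pow_eq'
  clear hxy
  induction i with
  | zero => exact Perm.SameCycle.refl _ _
  | succ n ih =>
    rw [pow_succ', Perm.mul_apply, ← h]
    exact (Perm.sameCycle_apply_right).mpr ih

section ext

variable [Field F] [Group G] [Group Q] (X : Ext F G Q)

theorem t18_nu_zero : X.ν 0 = 1 := by
  have h := X.ν_add 0 0
  rw [add_zero] at h
  exact mul_eq_left.mp h.symm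

theorem t18_nu_neg (n : F) : X.ν (-n) = (X.ν n)⁻¹ := by
  rw [eq_inv_iff_mul_eq_one, ← X.ν_add, neg_add_cancel, t18_nu_zero X]

theorem t18_pi_nu (n : F) : X.π (X.ν n) = 1 := (X.π_ker _).mpr ⟨n, rfl⟩

end ext

theorem ext_F3 {F G Q : Type} [Field F] [Fintype F] [Group G] [Finite G] [Group Q] [Finite Q]
    (X : Ext F G Q) (hchar : ringChar F ≠ 2) (hF : 5 ≤ Fintype.card F) (hQ : Nat.card Q = 3)
    (a : G) (ha : a ^ 3 = 1) (haN : X.π a ≠ 1) (ζ : Perm (Multiplicative F)) (hζ : Orth ζ)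
    (hζc : OneCyc ζ) (s : F) (hs : s ≠ 0) :
    ∃ Θ : Perm G, Orth Θ ∧ OneCyc Θ ∧ ∀ n, n ≠ s → Θ (X.ν n) =
      X.ν (Multiplicative.toAdd (ζ (Multiplicative.ofAdd n))) := by
  classical
  have hν1 : X.ν 0 = 1 := t18_nu_zero X
  have hνneg : ∀ n, X.ν (-n) = (X.ν n)⁻¹ := t18_nu_neg X
  have hπν : ∀ n, X.π (X.ν n) = 1 := t18_pi_nu X
  -- the permutation of the field
  let z : F → F := fun n => Multiplicative.toAdd (ζ (Multiplicative.ofAdd n))
  have hz0 : z 0 = 0 := by
    have := hζ.1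
    simp only [z]
    rw [ofAdd_zero, this, toAdd_one]
  have hzinj : Function.Injective z := by
    intro x y hxy
    simp only [z] at hxy
    exact Multiplicative.ofAdd.injective (ζ.injective (Multiplicative.toAdd.injective hxy))
  have hzq : ∀ x y, z x - x = z y - y → x = y := by
    intro x y hxy
    have h1 := hζ.2
    have h2 : (fun x : Multiplicative F => x⁻¹ * ζ x) (Multiplicative.ofAdd x)
        = (fun x : Multiplicative F => x⁻¹ * ζ x) (Multiplicative.ofAdd y) := by
      simp only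
      apply Multiplicative.toAdd.injective
      simp only [toAdd_mul, toAdd_inv, toAdd_ofAdd]
      simp only [z] at hxy
      rw [neg_add_eq_sub, neg_add_eq_sub]
      exact hxy
    exact Multiplicative.ofAdd.injective (h1 h2)
  -- the automorphism
  let τ := X.β a
  have hτ : ∀ n, a * X.ν n = X.ν (τ n) * a := fun n => X.β_spec a n
  have hτ3 : ∀ n, τ (τ (τ n)) = n := by
    intro n
    apply X.ν_inj
    have h1 : a ^ 3 * X.ν n = X.ν (τ (τ (τ n))) * a ^ 3 := by
      calc a ^ 3 * X.ν n = a * (a * (a * X.ν n)) := by simp only [pow_succ, pow_zero, one_mul, mul_assoc]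
        _ = a * (a * (X.ν (τ n) * a)) := by rw [hτ]
        _ = a * (a * X.ν (τ n)) * a := by group
        _ = a * (X.ν (τ (τ n)) * a) * a := by rw [hτ]
        _ = (a * X.ν (τ (τ n))) * a * a := by group
        _ = (X.ν (τ (τ (τ n))) * a) * a * a := by rw [hτ]
        _ = X.ν (τ (τ (τ n))) * a ^ 3 := by simp only [pow_succ, pow_zero, one_mul, mul_assoc]
    rw [ha, one_mul, mul_one] at h1
    exact h1.symm
  set ρ : F := z s - s with hρ
  have hρ0 : ρ ≠ 0 := by
    intro h
    apply hs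
    apply hzq
    rw [hz0, sub_self, ← hρ, h]
  have hτ0 : ∀ x, x ≠ 0 → τ x ≠ 0 := by
    intro x hx h
    exact hx ((map_eq_zero_iff τ τ.injective).mp h)
  set α₂ : F := -τ (τ ρ) with hα₂
  have hα₂0 : α₂ ≠ 0 := neg_ne_zero.mpr (hτ0 _ (hτ0 _ hρ0))
  set c₂ : F := τ ρ / α₂ with hc₂
  have hc₂0 : c₂ ≠ 0 := div_ne_zero (hτ0 _ hρ0) hα₂0
  have hc₂α : c₂ * α₂ = τ ρ := div_mul_cancel₀ _ hα₂0
  have hc₂1 : c₂ ≠ 1 := by
    intro h
    rw [h, one_mul] at hc₂α
    -- -τ²ρ = τρ, so -τ³ρ = τ²ρ, i.e. -ρ = τ²ρ = -τρ and τρ = ρ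
    have h1 : -τ (τ (τ ρ)) = τ (τ ρ) := by
      have := congrArg τ hc₂α
      rwa [hα₂, map_neg] at this
    rw [hτ3] at h1
    have h2 : τ ρ = ρ := by
      rw [← hc₂α, hα₂, ← h1, neg_neg]
    have h3 : τ (τ ρ) = ρ := by rw [h2, h2]
    rw [h3] at h1
    have h4 : (2 : F) * ρ = 0 := by
      rw [two_mul]
      nth_rewrite 1 [← h1]
      exact neg_add_cancel ρ
    rcases mul_eq_zero.mp h4 with h5 | h5
    · exact Ring.two_ne_zero hchar h5
    · exact hρ0 h5
  obtain ⟨g, hg, hgc⟩ := exists_prim_ne hF c₂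
  set c₁ : F := g / c₂ with hc₁
  have hc₁0 : c₁ ≠ 0 := div_ne_zero hg.1 hc₂0
  have hc₁1 : c₁ ≠ 1 := by
    intro h
    apply hgc
    rw [hc₁, div_eq_iff hc₂0, one_mul] at h
    exact h
  have hc12 : c₂ * c₁ = g := mul_div_cancel₀ _ hc₂0
  -- cosets
  have hord : orderOf (X.π a) = 3 := by
    refine orderOf_eq_prime ?_ haN
    rw [← map_pow, ha, map_one]
  have hπa2 : X.π a ^ 2 ≠ 1 := by
    intro h
    have := orderOf_dvd_of_pow_eq_one h
    rw [hord] at this
    omega
  have hcos : ∀ x : G, (∃ n, x = X.ν n) ∨ (∃ n, x = X.ν n * a) ∨ (∃ n, x = X.ν n * a ^ 2) := by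
    intro x
    have h1 : X.π x ∈ Submonoid.powers (X.π a) := by
      have : Fact (Nat.Prime 3) := ⟨Nat.prime_three⟩
      exact mem_powers_of_prime_card hQ haN
    obtain ⟨i, hi⟩ := h1
    have h2 : X.π a ^ (i % 3) = X.π x := by
      rw [← hi, ← hord, pow_mod_orderOf]
    have h3 : ∃ n, X.ν n = x * (a ^ (i % 3))⁻¹ := by
      rw [← X.π_ker, map_mul, map_inv, map_pow, h2, mul_inv_cancel]
    obtain ⟨n, hn⟩ := h3
    have h4 : x = X.ν n * a ^ (i % 3) := by rw [hn, inv_mul_cancel_right]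
    have h5 : i % 3 = 0 ∨ i % 3 = 1 ∨ i % 3 = 2 := by omega
    rcases h5 with h5 | h5 | h5
    · left; refine ⟨n, ?_⟩; rw [h4, h5, pow_zero, mul_one]
    · right; left; refine ⟨n, ?_⟩; rw [h4, h5, pow_one]
    · right; right; refine ⟨n, ?_⟩; rw [h4, h5]
  -- the equivalence with `F × Fin 3`
  let e : F × Fin 3 → G := fun p => X.ν p.1 * a ^ (p.2 : ℕ)
  have hπe : ∀ p, X.π (e p) = X.π a ^ (p.2 : ℕ) := by
    intro p
    simp only [e]
    rw [map_mul, hπν, one_mul, map_pow]
  have heinj : Function.Injective e := by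
    rintro ⟨n, i⟩ ⟨m, j⟩ h
    have h1 : X.π a ^ (i : ℕ) = X.π a ^ (j : ℕ) := by
      rw [← hπe ⟨n, i⟩, ← hπe ⟨m, j⟩, h]
    have h2 : (i : ℕ) = j := by
      apply pow_injOn_Iio_orderOf (x := X.π a) _ _ h1
      · rw [hord]; exact i.2
      · rw [hord]; exact j.2
    have h3 : i = j := Fin.ext h2
    subst h3
    simp only [e] at h
    have h4 := X.ν_inj (mul_right_cancel h)
    rw [h4]
  have hesurj : Function.Surjective e := by
    intro x
    rcases hcos x with ⟨n, rfl⟩ | ⟨n, rfl⟩ | ⟨n, rfl⟩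
    · exact ⟨(n, 0), by simp [e]⟩
    · exact ⟨(n, 1), by simp [e]⟩
    · exact ⟨(n, 2), by simp [e]⟩
  let E : F × Fin 3 ≃ G := Equiv.ofBijective e ⟨heinj, hesurj⟩
  -- the permutation before the exchange
  let P : F × Fin 3 → F × Fin 3 := fun p =>
    if p.2 = 0 then (z p.1, 0)
    else if p.2 = 1 then (c₁ * (p.1 - s) + s - α₂, 2)
    else (c₂ * (p.1 - s + α₂) + s, 1)
  have hP0 : ∀ n, P (n, 0) = (z n, 0) := fun n => by simp [P]
  have hP1 : ∀ n, P (n, 1) = (c₁ * (n - s) + s - α₂, 2) := fun n => by simp [P]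
  have hP2 : ∀ n, P (n, 2) = (c₂ * (n - s + α₂) + s, 1) := fun n => by simp [P]
  have hPinj : Function.Injective P := by
    rintro ⟨n, i⟩ ⟨m, j⟩ h
    fin_cases i <;> fin_cases j <;> simp only [Fin.mk_one, Fin.zero_eta, Fin.reduceFinMk] at h ⊢
    · rw [hP0, hP0] at h
      rw [hzinj (Prod.ext_iff.mp h).1]
    · rw [hP0, hP1] at h
      exact absurd (show (0 : Fin 3) = 2 from (Prod.ext_iff.mp h).2) (by decide)
    · rw [hP0, hP2] at h
      exact absurd (show (0 : Fin 3) = 1 from (Prod.ext_iff.mp h).2) (by decide)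
    · rw [hP0, hP1] at h
      exact absurd (show (0 : Fin 3) = 2 from (Prod.ext_iff.mp h).2.symm) (by decide)
    · rw [hP1, hP1] at h
      have h1 : c₁ * (n - s) + s - α₂ = c₁ * (m - s) + s - α₂ := (Prod.ext_iff.mp h).1
      have h2 : c₁ * (n - s) = c₁ * (m - s) := by linear_combination h1
      have h3 := mul_left_cancel₀ hc₁0 h2
      rw [sub_left_injective h3]
    · rw [hP1, hP2] at h
      exact absurd (show (2 : Fin 3) = 1 from (Prod.ext_iff.mp h).2) (by decide)
    · rw [hP0, hP2] at h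
      exact absurd (show (0 : Fin 3) = 1 from (Prod.ext_iff.mp h).2.symm) (by decide)
    · rw [hP1, hP2] at h
      exact absurd (show (2 : Fin 3) = 1 from (Prod.ext_iff.mp h).2.symm) (by decide)
    · rw [hP2, hP2] at h
      have h1 : c₂ * (n - s + α₂) + s = c₂ * (m - s + α₂) + s := (Prod.ext_iff.mp h).1
      have h2 : c₂ * (n - s + α₂) = c₂ * (m - s + α₂) := by linear_combination h1
      have h3 := mul_left_cancel₀ hc₂0 h2
      have h4 : n = m := by linear_combination h3
      rw [h4]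
  let P' : Perm (F × Fin 3) := Equiv.ofBijective P (Finite.injective_iff_bijective.mp hPinj)
  let Θ₀ : Perm G := (E.symm.trans P').trans E
  have hΘe : ∀ p, Θ₀ (e p) = e (P p) := by
    intro p
    have h1 : E.symm (e p) = p := E.symm_apply_apply p
    change E (P' (E.symm (e p))) = e (P p)
    rw [h1]
    rfl
  have hΘ0 : ∀ n, Θ₀ (X.ν n) = X.ν (z n) := by
    intro n
    have := hΘe (n, 0)
    rw [hP0] at this
    simpa [e] using this
  have hΘ1 : ∀ n, Θ₀ (X.ν (n + s) * a) = X.ν (c₁ * n + s - α₂) * a ^ 2 := by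
    intro n
    have := hΘe (n + s, 1)
    rw [hP1] at this
    simpa [e] using this
  have hΘ2 : ∀ n, Θ₀ (X.ν (n + s - α₂) * a ^ 2) = X.ν (c₂ * n + s) * a := by
    intro n
    have := hΘe (n + s - α₂, 2)
    rw [hP2, show n + s - α₂ - s + α₂ = n by ring] at this
    simpa [e] using this
  -- the three special points
  set s0 : G := X.ν s with hs0
  set s1 : G := X.ν s * a with hs1
  set s2 : G := X.ν s * a ^ 2 with hs2
  have hT0 : Θ₀ s0 = s0 * X.ν ρ := by
    rw [hs0, hΘ0, ← X.ν_add, hρ, add_sub_cancel]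
  have ha2 : ∀ n, a ^ 2 * X.ν n = X.ν (τ (τ n)) * a ^ 2 := by
    intro n
    calc a ^ 2 * X.ν n = a * (a * X.ν n) := by simp only [pow_succ, pow_zero, one_mul, mul_assoc]
      _ = a * (X.ν (τ n) * a) := by rw [hτ]
      _ = (a * X.ν (τ n)) * a := by group
      _ = (X.ν (τ (τ n)) * a) * a := by rw [hτ]
      _ = X.ν (τ (τ n)) * a ^ 2 := by simp only [pow_succ, pow_zero, one_mul, mul_assoc]
  have hT1 : Θ₀ s1 = s2 * X.ν ρ := by
    have := hΘ1 0
    rw [zero_add, mul_zero, zero_add] at this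
    rw [hs1, this, hs2, mul_assoc, ha2, ← mul_assoc, ← X.ν_add, hα₂, sub_neg_eq_add]
  have hT2 : Θ₀ s2 = s1 * X.ν ρ := by
    have := hΘ2 α₂
    rw [hc₂α, add_sub_cancel_left] at this
    rw [hs2, this, hs1, mul_assoc, hτ, ← mul_assoc, ← X.ν_add, add_comm]
  have h01 : s0 ≠ s1 := by
    intro h
    apply haN
    have := congrArg X.π h
    rw [hs0, hs1, map_mul, hπν, one_mul] at this
    exact this.symm
  have h02 : s0 ≠ s2 := by
    intro h
    apply hπa2
    have := congrArg X.π h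
    rw [hs0, hs2, map_mul, hπν, one_mul, map_pow] at this
    exact this.symm
  have h12 : s1 ≠ s2 := by
    intro h
    apply haN
    have := congrArg X.π h
    rw [hs1, hs2, map_mul, map_mul, hπν, one_mul, one_mul, map_pow, pow_two] at this
    exact mul_eq_left.mp this.symm
  -- quotients of Θ₀
  have hq : Function.Injective (fun x : G => x⁻¹ * Θ₀ x) := by
    intro x y hxy
    simp only at hxy
    have hπq : ∀ n : F, X.π ((X.ν n)⁻¹ * Θ₀ (X.ν n)) = 1 := by
      intro n
      rw [hΘ0, map_mul, map_inv, hπν, hπν, inv_one, one_mul]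
    have hπq1 : ∀ n : F, X.π ((X.ν (n + s) * a)⁻¹ * Θ₀ (X.ν (n + s) * a)) = X.π a := by
      intro n
      rw [hΘ1, map_mul, map_inv, map_mul, map_mul, hπν, hπν, one_mul, one_mul, map_pow]
      group
    have hπq2 : ∀ n : F, X.π ((X.ν (n + s - α₂) * a ^ 2)⁻¹ * Θ₀ (X.ν (n + s - α₂) * a ^ 2))
        = X.π a ^ 2 := by
      intro n
      rw [hΘ2, map_mul, map_inv, map_mul, map_mul, hπν, hπν, one_mul, one_mul, map_pow]
      have h3 : X.π a ^ 3 = 1 := by rw [← map_pow, ha, map_one]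
      rw [inv_mul_eq_iff_eq_mul, ← pow_add]
      calc X.π a = X.π a ^ 3 * X.π a := by rw [h3, one_mul]
        _ = X.π a ^ (2 + 2) := by group
    have hcos' : ∀ x : G, (∃ n, x = X.ν n) ∨ (∃ n, x = X.ν (n + s) * a) ∨
        (∃ n, x = X.ν (n + s - α₂) * a ^ 2) := by
      intro x
      rcases hcos x with ⟨n, rfl⟩ | ⟨n, rfl⟩ | ⟨n, rfl⟩
      · left; exact ⟨n, rfl⟩
      · right; left; exact ⟨n - s, by rw [sub_add_cancel]⟩
      · right; right; exact ⟨n - s + α₂, by rw [show n - s + α₂ + s - α₂ = n by ring]⟩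
    have hab : X.π a ≠ X.π a ^ 2 := by
      intro h
      rw [pow_two] at h
      exact haN (mul_eq_left.mp h.symm)
    rcases hcos' x with ⟨n, rfl⟩ | ⟨n, rfl⟩ | ⟨n, rfl⟩ <;>
      rcases hcos' y with ⟨m, rfl⟩ | ⟨m, rfl⟩ | ⟨m, rfl⟩
    · rw [hΘ0, hΘ0, ← hνneg, ← hνneg, ← X.ν_add, ← X.ν_add] at hxy
      have h1 := X.ν_inj hxy
      rw [neg_add_eq_sub, neg_add_eq_sub] at h1
      rw [hzq _ _ h1]
    · exact absurd ((hπq n).symm.trans ((congrArg X.π hxy).trans (hπq1 m))) (Ne.symm haN)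
    · exact absurd ((hπq n).symm.trans ((congrArg X.π hxy).trans (hπq2 m))) (Ne.symm hπa2)
    · exact absurd ((hπq1 n).symm.trans ((congrArg X.π hxy).trans (hπq m))) haN
    · rw [hΘ1, hΘ1, mul_inv_rev, mul_inv_rev, ← hνneg, ← hνneg, mul_assoc, mul_assoc,
        ← mul_assoc (X.ν _), ← mul_assoc (X.ν (-(m + s))), ← X.ν_add, ← X.ν_add] at hxy
      have h1 := X.ν_inj (mul_right_cancel (mul_left_cancel hxy))
      have h2 : (c₁ - 1) * n = (c₁ - 1) * m := by linear_combination h1
      rw [mul_left_cancel₀ (sub_ne_zero.mpr hc₁1) h2]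
    · exact absurd ((hπq1 n).symm.trans ((congrArg X.π hxy).trans (hπq2 m))) hab
    · exact absurd ((hπq2 n).symm.trans ((congrArg X.π hxy).trans (hπq m))) hπa2
    · exact absurd ((hπq2 n).symm.trans ((congrArg X.π hxy).trans (hπq1 m))) (Ne.symm hab)
    · rw [hΘ2, hΘ2, mul_inv_rev, mul_inv_rev, ← hνneg, ← hνneg, mul_assoc, mul_assoc,
        ← mul_assoc (X.ν _), ← mul_assoc (X.ν (-(m + s - α₂))), ← X.ν_add, ← X.ν_add] at hxy
      have h1 := X.ν_inj (mul_right_cancel (mul_left_cancel hxy))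
      have h2 : (c₂ - 1) * n = (c₂ - 1) * m := by linear_combination h1
      rw [mul_left_cancel₀ (sub_ne_zero.mpr hc₂1) h2]
  -- the exchanged permutation
  let Θ₁ : Perm G := Θ₀ * swap s0 s2
  let Θ : Perm G := Θ₁ * swap s1 s2
  have hΘs0 : Θ s0 = Θ₀ s2 := by
    simp only [Θ, Θ₁, Perm.mul_apply]
    rw [swap_apply_of_ne_of_ne h01 h02, swap_apply_left]
  have hΘs1 : Θ s1 = Θ₀ s0 := by
    simp only [Θ, Θ₁, Perm.mul_apply]
    rw [swap_apply_left, swap_apply_right]
  have hΘs2 : Θ s2 = Θ₀ s1 := by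
    simp only [Θ, Θ₁, Perm.mul_apply]
    rw [swap_apply_right, swap_apply_of_ne_of_ne (Ne.symm h01) h12]
  have hΘo : ∀ x, x ≠ s0 → x ≠ s1 → x ≠ s2 → Θ x = Θ₀ x := by
    intro x hx0 hx1 hx2
    simp only [Θ, Θ₁, Perm.mul_apply]
    rw [swap_apply_of_ne_of_ne hx1 hx2, swap_apply_of_ne_of_ne hx0 hx2]
  refine ⟨Θ, ⟨?_, ?_⟩, ?_, ?_⟩
  · -- Θ 1 = 1
    have h1 : Θ₀ 1 = 1 := by
      rw [← hν1, hΘ0, hz0]
    rw [hΘo 1, h1]
    · intro h
      rw [← hν1, hs0] at h
      exact hs (X.ν_inj h).symm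
    · intro h
      have := congrArg X.π h
      rw [hs1, map_one, map_mul, hπν, one_mul] at this
      exact haN this.symm
    · intro h
      have := congrArg X.π h
      rw [hs2, map_one, map_mul, hπν, one_mul, map_pow] at this
      exact hπa2 this.symm
  · -- quotients
    let σ : Perm G := swap s0 s1 * swap s1 s2
    -- σ : s0 ↦ s1, s1 ↦ s2, s2 ↦ s0
    have hσ0 : σ s0 = s1 := by
      simp only [σ, Perm.mul_apply]
      rw [swap_apply_of_ne_of_ne h01 h02, swap_apply_left]
    have hσ1 : σ s1 = s2 := by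
      simp only [σ, Perm.mul_apply]
      rw [swap_apply_left, swap_apply_of_ne_of_ne (Ne.symm h02) (Ne.symm h12)]
    have hσ2 : σ s2 = s0 := by
      simp only [σ, Perm.mul_apply]
      rw [swap_apply_right, swap_apply_right]
    have hσo : ∀ x, x ≠ s0 → x ≠ s1 → x ≠ s2 → σ x = x := by
      intro x hx0 hx1 hx2
      simp only [σ, Perm.mul_apply]
      rw [swap_apply_of_ne_of_ne hx1 hx2, swap_apply_of_ne_of_ne hx0 hx1]
    have hqσ : ∀ x, x⁻¹ * Θ x = (fun x : G => x⁻¹ * Θ₀ x) (σ x) := by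
      intro x
      simp only
      by_cases hx0 : x = s0
      · subst hx0
        rw [hΘs0, hσ0, hT2, hT1, hs0, hs1, hs2]
        group
      by_cases hx1 : x = s1
      · subst hx1
        rw [hΘs1, hσ1, hT0, hT2, hs0, hs1, hs2]
        have h3 : a⁻¹ = a * a := by
          rw [inv_eq_iff_mul_eq_one]
          rw [← mul_assoc, ← ha]
          simp only [pow_succ, pow_zero, one_mul]
        rw [mul_inv_rev, mul_inv_rev, h3, pow_two]
        simp only [mul_inv_rev, h3]
        simp only [mul_assoc, inv_mul_cancel_left]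
        have h4 : ∀ y : G, a * (a * (a * y)) = y := by
          intro y
          have := congrArg (· * y) ha
          simpa [pow_succ, mul_assoc] using this
        simp only [h4]
      by_cases hx2 : x = s2
      · subst hx2
        rw [hΘs2, hσ2, hT0, hT1]
        group
      rw [hΘo x hx0 hx1 hx2, hσo x hx0 hx1 hx2]
    intro x y hxy
    simp only at hxy
    rw [hqσ x, hqσ y] at hxy
    exact σ.injective (hq hxy)
  · -- one cycle
    have hC0 : ∀ n, n ≠ 0 → Θ₀.SameCycle (X.ν n) s0 := by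
      intro n hn
      have h1 : ζ.SameCycle (Multiplicative.ofAdd n) (Multiplicative.ofAdd s) := by
        apply hζc
        · intro h; exact hn (by rw [← toAdd_ofAdd n, h, toAdd_one])
        · intro h; exact hs (by rw [← toAdd_ofAdd s, h, toAdd_one])
      have h2 := t18_semi ζ Θ₀ (fun x => X.ν (Multiplicative.toAdd x)) (fun x => by
        have := hΘ0 (Multiplicative.toAdd x)
        simp only [z, ofAdd_toAdd] at this
        exact this) h1
      simpa using h2
    have hE : Θ₀.SameCycle (X.ν (s - α₂) * a ^ 2) s1 := by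
      have h1 : Θ₀ s1 = X.ν (s - α₂) * a ^ 2 := by
        have := hΘ1 0
        rw [zero_add, mul_zero, zero_add] at this
        exact this
      rw [← h1]
      exact Perm.sameCycle_apply_left.mpr (Perm.SameCycle.refl _ _)
    have hΘΘ : ∀ n, Θ₀ (Θ₀ (X.ν (n + s) * a)) = X.ν (g * n + s) * a := by
      intro n
      rw [hΘ1, hΘ2, ← mul_assoc, hc12]
    have hC2a : ∀ i : ℕ, ∀ n, Θ₀.SameCycle (X.ν (g ^ i * n + s) * a) (X.ν (n + s) * a) := by
      intro i n
      induction i with
      | zero => rw [pow_zero, one_mul]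
      | succ i ih =>
        rw [pow_succ', mul_assoc, ← hΘΘ]
        exact Perm.sameCycle_apply_left.mpr (Perm.sameCycle_apply_left.mpr ih)
    have hC2 : ∀ n m, n ≠ 0 → m ≠ 0 → Θ₀.SameCycle (X.ν (n + s) * a) (X.ν (m + s) * a) := by
      intro n m hn hm
      obtain ⟨i, hi⟩ := hg.2 (n / m) (div_ne_zero hn hm)
      have h1 : n = g ^ i * m := by rw [← hi, div_mul_cancel₀ _ hm]
      rw [h1]
      exact hC2a i m
    have hC2b : ∀ n, Θ₀.SameCycle (X.ν (n + s - α₂) * a ^ 2) (X.ν (c₂ * n + s) * a) := by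
      intro n
      rw [← hΘ2]
      exact Perm.sameCycle_apply_right.mpr (Perm.SameCycle.refl _ _)
    have hs2' : s2 = X.ν (α₂ + s - α₂) * a ^ 2 := by
      rw [hs2, add_sub_cancel_left]
    have hC2c : ∀ n, n ≠ 0 → Θ₀.SameCycle (X.ν (n + s) * a) s2 := by
      intro n hn
      rw [hs2']
      exact (hC2 n (c₂ * α₂) hn (mul_ne_zero hc₂0 hα₂0)).trans (hC2b α₂).symm
    have hC2d : ∀ n, n ≠ 0 → Θ₀.SameCycle (X.ν (n + s - α₂) * a ^ 2) s2 := by
      intro n hn
      exact (hC2b n).trans (hC2c _ (mul_ne_zero hc₂0 hn))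
    -- not in the same cycle
    have hn02 : ¬ Θ₀.SameCycle s0 s2 := by
      intro h
      have := t18_inv Θ₀ {x | ∃ n, x = X.ν n} (by
        rintro x ⟨n, rfl⟩
        exact ⟨z n, hΘ0 n⟩) ⟨s, rfl⟩ h
      obtain ⟨n, hn⟩ := this
      apply hπa2
      have := congrArg X.π hn
      rw [hs2, map_mul, hπν, hπν, one_mul, map_pow] at this
      exact this
    have hstep1 := sameCycle_mul_swap Θ₀ s0 s2 hn02
    have hn12 : ¬ Θ₁.SameCycle s1 s2 := by
      intro h
      have hEs2 : X.ν (s - α₂) * a ^ 2 ≠ s2 := by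
        intro h
        have h1 := X.ν_inj (mul_right_cancel h)
        apply hα₂0
        linear_combination -h1
      have hEs0 : X.ν (s - α₂) * a ^ 2 ≠ s0 := by
        intro h
        apply hπa2
        have := congrArg X.π h
        rw [hs0, map_mul, hπν, hπν, one_mul, map_pow] at this
        exact this
      have := t18_inv Θ₁ {s1, X.ν (s - α₂) * a ^ 2} (by
        rintro x (rfl | rfl)
        · right
          simp only [Θ₁, Perm.mul_apply]
          rw [swap_apply_of_ne_of_ne (Ne.symm h01) h12]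
          have := hΘ1 0
          rw [zero_add, mul_zero, zero_add] at this
          exact this
        · left
          simp only [Θ₁, Perm.mul_apply]
          rw [swap_apply_of_ne_of_ne hEs0 hEs2]
          have := hΘ2 0
          rw [zero_add, mul_zero, zero_add] at this
          exact this) (Or.inl rfl) h
      rcases this with h1 | h1
      · exact h12 h1.symm
      · exact hEs2 h1.symm
    have hstep2 := sameCycle_mul_swap Θ₁ s1 s2 hn12
    have hfin : ∀ x y, Θ₀.SameCycle x y → Θ.SameCycle x y := fun x y h =>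
      hstep2.1 _ _ (hstep1.1 _ _ h)
    have hs20 : Θ.SameCycle s0 s2 := hstep2.1 _ _ hstep1.2
    have hs21 : Θ.SameCycle s1 s2 := hstep2.2
    have hall : ∀ x, x ≠ 1 → Θ.SameCycle x s2 := by
      intro x hx
      rcases hcos x with ⟨n, rfl⟩ | ⟨n, rfl⟩ | ⟨n, rfl⟩
      · have hn : n ≠ 0 := by
          rintro rfl
          exact hx hν1
        exact (hfin _ _ (hC0 n hn)).trans hs20
      · by_cases hn : n - s = 0
        · have h1 : n = s := sub_eq_zero.mp hn
          subst h1
          exact hs21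
        · have h1 := hC2c _ hn
          rw [sub_add_cancel] at h1
          exact hfin _ _ h1
      · by_cases hn : n - s + α₂ = 0
        · have h1 : n = s - α₂ := by linear_combination hn
          rw [h1]
          exact (hfin _ _ hE).trans hs21
        · have h1 := hC2d _ hn
          rw [show n - s + α₂ + s - α₂ = n by ring] at h1
          exact hfin _ _ h1
    intro x y hx hy
    exact (hall x hx).trans (hall y hy).symm
  · intro n hn
    rw [hΘo, hΘ0]
    · intro h
      exact hn (X.ν_inj h)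
    · intro h
      have := congrArg X.π h
      rw [hs1, map_mul, hπν, hπν, one_mul] at this
      exact haN this.symm
    · intro h
      have := congrArg X.π h
      rw [hs2, map_mul, hπν, hπν, one_mul, map_pow] at this
      exact hπa2 this.symm

end LibRS
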