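import Pool.Agent.LibRS.Defs
set_option autoImplicit false
namespace LibRS
open Equiv

theorem t19_inv {α : Type} [Finite α] (f : Perm α) (P : α → Prop) (h : ∀ x, P x → P (f x))
    {x y : α} (hxy : f.SameCycle x y) (hx : P x) : P y := by
  obtain ⟨k, hk⟩ := hxy.exists_nat_pow_eq
  rw [← hk]
  clear hk
  induction k with
  | zero => simpa using hx
  | succ k ih => rw [pow_succ', Perm.mul_apply]; exact h _ ih

theorem t19_swap {α : Type} [DecidableEq α] [Finite α] (f : Perm α) (a b : α)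
    (hab : ¬ f.SameCycle a b) :
    (∀ x y, f.SameCycle x y → (f * swap a b).SameCycle x y) ∧ (f * swap a b).SameCycle a b := by
  have key : ∀ c d : α, ¬ f.SameCycle c d → (f * swap c d).SameCycle (f c) c := by
    intro c d hcd
    -- c returns to itself
    have hex : ∃ i : ℕ, (f ^ (i + 1)) c = c := by
      refine ⟨orderOf f - 1, ?_⟩
      rw [Nat.sub_add_cancel (orderOf_pos f), pow_orderOf_eq_one]
      rfl
    classical
    set n := Nat.find hex with hn
    have hn1 : (f ^ (n + 1)) c = c := Nat.find_spec hex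
    have hmin : ∀ j, j < n → (f ^ (j + 1)) c ≠ c := fun j hj => Nat.find_min hex hj
    have hd : ∀ j : ℕ, (f ^ j) c ≠ d := by
      intro j hj
      exact hcd ⟨j, by simpa using hj⟩
    have hstep : ∀ j, j ≤ n → ((f * swap c d) ^ j) (f c) = (f ^ (j + 1)) c := by
      intro j
      induction j with
      | zero => intro _; simp
      | succ j ih =>
        intro hj
        rw [pow_succ', Perm.mul_apply, ih (by omega), Perm.mul_apply,
          swap_apply_of_ne_of_ne (hmin j (by omega)) (hd _), pow_succ' f (j + 1), Perm.mul_apply]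
    refine ⟨n, ?_⟩
    rw [zpow_natCast, hstep n le_rfl, hn1]
  have h1 : (f * swap a b).SameCycle (f a) a := key a b hab
  have h2 : (f * swap a b).SameCycle (f b) b := by
    have := key b a (fun h => hab h.symm)
    rwa [swap_comm] at this
  have hga : (f * swap a b) a = f b := by simp
  have hgb : (f * swap a b) b = f a := by simp
  have hab' : (f * swap a b).SameCycle a b := by
    have : (f * swap a b).SameCycle a (f b) := by
      rw [← hga]; exact Perm.sameCycle_apply_right.mpr (Perm.SameCycle.refl _ _)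
    exact this.trans h2
  have hstep : ∀ x, (f * swap a b).SameCycle x (f x) := by
    intro x
    by_cases hxa : x = a
    · subst hxa; exact h1.symm
    · by_cases hxb : x = b
      · subst hxb; exact h2.symm
      · have : (f * swap a b) x = f x := by
          rw [Perm.mul_apply, swap_apply_of_ne_of_ne hxa hxb]
        rw [← this]
        exact Perm.sameCycle_apply_right.mpr (Perm.SameCycle.refl _ _)
  refine ⟨?_, hab'⟩
  intro x y hxy
  exact t19_inv f (fun z => (f * swap a b).SameCycle x z) (fun z hz => hz.trans (hstep z)) hxy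
    (Perm.SameCycle.refl _ _)

theorem t19_prim (F : Type) [Field F] [Fintype F] : ∃ g : F, Prim g := by
  obtain ⟨u, hu⟩ := IsCyclic.exists_generator (α := Fˣ)
  refine ⟨u, u.ne_zero, ?_⟩
  intro a ha
  obtain ⟨k, hk⟩ := (mem_powers_iff_mem_zpowers).mpr (hu (Units.mk0 a ha))
  refine ⟨k, ?_⟩
  have := congrArg Units.val hk
  simpa using this.symm

/-- scalars -/
theorem t19_scal {F : Type} [Field F] [Fintype F] [DecidableEq F] (hF : 7 ≤ Fintype.card F)
    (g P Q2 R4 R3 : F) (hg : g ≠ 0) (hP : P ≠ 0) (hQ : Q2 ≠ 0) (hR4 : R4 ≠ 0) :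
    ∃ (c1 c2 c3 c4 α2 α3 α4 : F), c1 ≠ 0 ∧ c1 ≠ 1 ∧ c2 ≠ 0 ∧ c2 ≠ 1 ∧ c3 ≠ 0 ∧ c3 ≠ 1 ∧
      c4 ≠ 0 ∧ c4 ≠ 1 ∧ α2 ≠ 0 ∧ α3 ≠ 0 ∧ α2 = - Q2 ∧ α4 = c2 * α2 - R4 ∧
      α3 = c4 * α4 - R3 ∧ c3 * α3 - P = 0 ∧ c1 * c2 * c3 * c4 = g := by
  obtain ⟨c4, hc4⟩ : ∃ c4 : F, c4 ∉ ({0, 1, -R3 / R4} : Finset F) := by
    by_contra hcon
    push Not at hcon
    have h1 : (Finset.univ : Finset F) ⊆ ({0, 1, -R3 / R4} : Finset F) := fun x _ => hcon x
    have h2 := Finset.card_le_card h1
    have h3 : ({0, 1, -R3 / R4} : Finset F).card ≤ 3 := Finset.card_le_three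
    rw [Finset.card_univ] at h2
    omega
  simp only [Finset.mem_insert, Finset.mem_singleton, not_or] at hc4
  obtain ⟨hc40, hc41, hc4R⟩ := hc4
  have hK : c4 * R4 + R3 ≠ 0 := by
    intro h
    apply hc4R
    field_simp
    linear_combination h
  obtain ⟨c2, hc2⟩ : ∃ c2 : F, c2 ∉ ({0, 1, -(c4 * R4 + R3) / (c4 * Q2),
      -(P + c4 * R4 + R3) / (c4 * Q2), -g * (c4 * R4 + R3) / (c4 * (P + g * Q2))} : Finset F) := by
    by_contra hcon
    push Not at hcon
    have h1 := Finset.card_le_card (fun x (_ : x ∈ (Finset.univ : Finset F)) => hcon x)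
    have h3 : ({0, 1, -(c4 * R4 + R3) / (c4 * Q2), -(P + c4 * R4 + R3) / (c4 * Q2),
      -g * (c4 * R4 + R3) / (c4 * (P + g * Q2))} : Finset F).card ≤ 5 := Finset.card_le_five
    rw [Finset.card_univ] at h1
    omega
  simp only [Finset.mem_insert, Finset.mem_singleton, not_or] at hc2
  obtain ⟨hc20, hc21, hA, hB, hC⟩ := hc2
  have hα3 : -(c4 * c2 * Q2 + c4 * R4 + R3) ≠ 0 := by
    intro h
    apply hA
    field_simp
    linear_combination -h
  have hα3P : -(c4 * c2 * Q2 + c4 * R4 + R3) ≠ P := by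
    intro h
    apply hB
    field_simp
    linear_combination -h
  refine ⟨g * -(c4 * c2 * Q2 + c4 * R4 + R3) / (c2 * c4 * P), c2,
    P / -(c4 * c2 * Q2 + c4 * R4 + R3), c4, -Q2, -(c4 * c2 * Q2 + c4 * R4 + R3),
    c2 * (-Q2) - R4, ?_, ?_, hc20, hc21, ?_, ?_, hc40, hc41, neg_ne_zero.mpr hQ, hα3, rfl, rfl,
    by ring, ?_, ?_⟩
  · exact div_ne_zero (mul_ne_zero hg hα3) (mul_ne_zero (mul_ne_zero hc20 hc40) hP)
  · intro h
    rw [div_eq_one_iff_eq (mul_ne_zero (mul_ne_zero hc20 hc40) hP)] at h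
    have h5 : c2 * (c4 * (P + g * Q2)) = -g * (c4 * R4 + R3) := by linear_combination -h
    have h6 : c4 * (P + g * Q2) ≠ 0 := by
      intro h0
      rw [h0, mul_zero] at h5
      exact (mul_ne_zero (neg_ne_zero.mpr hg) hK) h5.symm
    exact hC (by rw [← h5, mul_div_assoc, div_self h6, mul_one])
  · exact div_ne_zero hP hα3
  · intro h
    rw [div_eq_one_iff_eq hα3] at h
    exact hα3P h.symm
  · rw [div_mul_cancel₀ _ hα3, sub_self]
  · generalize -(c4 * c2 * Q2 + c4 * R4 + R3) = D at *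
    field_simp

theorem ext_F5 {F G Q : Type} [Field F] [Fintype F] [Group G] [Finite G] [Group Q] [Finite Q]
    (X : Ext F G Q) (hchar : ringChar F ≠ 2) (hF : 7 ≤ Fintype.card F) (hQ : Nat.card Q = 5)
    (a : G) (ha : a ^ 5 = 1) (haN : X.π a ≠ 1) (ζ : Perm (Multiplicative F)) (hζ : Orth ζ)
    (hζc : OneCyc ζ) (s : F) (hs : s ≠ 0) :
    ∃ Θ : Perm G, Orth Θ ∧ OneCyc Θ ∧ ∀ n, n ≠ s → Θ (X.ν n) =
      X.ν (Multiplicative.toAdd (ζ (Multiplicative.ofAdd n))) := by
  classical
  -- basic facts on `ν`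
  have hν0 : X.ν 0 = 1 := by
    have h := X.ν_add 0 0
    rw [add_zero] at h
    exact left_eq_mul.mp h
  have hνneg : ∀ n, X.ν (-n) = (X.ν n)⁻¹ := by
    intro n
    rw [eq_inv_iff_mul_eq_one, ← X.ν_add, neg_add_cancel, hν0]
  have hπν : ∀ n, X.π (X.ν n) = 1 := fun n => (X.π_ker _).mpr ⟨n, rfl⟩
  -- `ζ` additively
  set Z : F → F := fun n => Multiplicative.toAdd (ζ (Multiplicative.ofAdd n)) with hZ
  have hZ0 : Z 0 = 0 := by
    have := hζ.1
    simp only [hZ]
    rw [ofAdd_zero, this, toAdd_one]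
  have hZinj : Function.Injective Z := by
    intro m n h
    have h1 : ζ (Multiplicative.ofAdd m) = ζ (Multiplicative.ofAdd n) := h
    exact ζ.injective h1
  have hZq : ∀ m n, Z m - m = Z n - n → m = n := by
    intro m n h
    have h1 : (Multiplicative.ofAdd m)⁻¹ * ζ (Multiplicative.ofAdd m) =
        (Multiplicative.ofAdd n)⁻¹ * ζ (Multiplicative.ofAdd n) := by
      have : -m + Z m = -n + Z n := by rw [neg_add_eq_sub, neg_add_eq_sub, h]
      exact this
    exact hζ.2 h1
  -- powers of `a`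
  let A : ZMod 5 → G := fun i => a ^ i.val
  have hA0 : A 0 = 1 := by simp [A]
  have hAadd : ∀ i j, A (i + j) = A i * A j := by
    intro i j
    simp only [A]
    rw [ZMod.val_add, ← pow_add, ← pow_eq_pow_mod _ ha]
  have hord : orderOf (X.π a) = 5 := by
    have : Fact (Nat.Prime 5) := ⟨by norm_num⟩
    exact orderOf_eq_prime (by rw [← map_pow, ha, map_one]) haN
  have hAinj : Function.Injective (fun i => X.π (A i)) := by
    intro i j hij
    simp only [A, map_pow] at hij
    have h1 : i.val = j.val := by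
      refine pow_injOn_Iio_orderOf (x := X.π a) ?_ ?_ hij
      · rw [Set.mem_Iio, hord]; exact ZMod.val_lt i
      · rw [Set.mem_Iio, hord]; exact ZMod.val_lt j
    exact ZMod.val_injective 5 h1
  have hAbij : Function.Bijective (fun i => X.π (A i)) := by
    refine hAinj.bijective_of_nat_card_le ?_
    rw [hQ, Nat.card_zmod]
  set B : ZMod 5 → F → F := fun i n => X.β (A i) n with hB
  have hAν : ∀ i n, A i * X.ν n = X.ν (B i n) * A i := fun i n => X.β_spec _ _
  have hB0 : ∀ n, B 0 n = n := by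
    intro n
    have := hAν 0 n
    rw [hA0, one_mul, mul_one] at this
    exact (X.ν_inj this).symm
  have hBne : ∀ i n, n ≠ 0 → B i n ≠ 0 := by
    intro i n hn h
    exact hn ((X.β (A i)).injective (by rw [map_zero]; exact h))
  -- the number ρ
  set ρ : F := Z s - s with hρ
  have hρ0 : ρ ≠ 0 := by
    intro h
    apply hs
    apply hZq
    rw [← hρ, h, hZ0, sub_self]
  obtain ⟨g, hg⟩ := t19_prim F
  obtain ⟨c1, c2, c3, c4, α2, α3, α4, hc10, hc11, hc20, hc21, hc30, hc31, hc40, hc41, hα20, hα30,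
    e2, e4, e3, e1, eg⟩ := t19_scal hF g (B 1 ρ) (B 2 ρ) (B 4 ρ) (B 3 ρ) hg.1 (hBne _ _ hρ0)
      (hBne _ _ hρ0) (hBne _ _ hρ0)
  let α : ZMod 5 → F := ![s, 0, α2, α3, α4]
  let c : ZMod 5 → F := ![1, c1, c2, c3, c4]
  have hc0 : ∀ i, c i ≠ 0 := by
    intro i
    fin_cases i
    · exact one_ne_zero
    · exact hc10
    · exact hc20
    · exact hc30
    · exact hc40
  have hc1 : ∀ i, i ≠ 0 → c i ≠ 1 := by
    intro i hi
    fin_cases i
    · exact absurd rfl hi
    · exact hc11
    · exact hc21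
    · exact hc31
    · exact hc41
  let E : ZMod 5 → G := fun i => X.ν (s - α i) * A i
  have hE0 : E 0 = 1 := by
    have : s - α 0 = 0 := sub_self s
    simp only [E]
    rw [this, hν0, hA0, one_mul]
  have hπE : ∀ i, X.π (E i) = X.π (A i) := by
    intro i
    simp only [E, map_mul, hπν, one_mul]
  -- the bijection
  have hbij : Function.Bijective (fun p : F × ZMod 5 => X.ν p.1 * E p.2) := by
    constructor
    · rintro ⟨n, i⟩ ⟨m, j⟩ h
      simp only at h
      have h1 : X.π (X.ν n * E i) = X.π (X.ν m * E j) := congrArg X.π h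
      rw [map_mul X.π (X.ν n) (E i), map_mul X.π (X.ν m) (E j), hπν, hπν, one_mul, one_mul,
        hπE, hπE] at h1
      have h2 : i = j := hAinj h1
      subst h2
      have h3 := X.ν_inj (mul_right_cancel h)
      rw [h3]
    · intro x
      obtain ⟨i, hi⟩ := hAbij.2 (X.π x)
      simp only at hi
      have h1 : X.π (x * (E i)⁻¹) = 1 := by
        rw [map_mul, map_inv, hπE, hi, mul_inv_cancel]
      obtain ⟨n, hn⟩ := (X.π_ker _).mp h1
      refine ⟨(n, i), ?_⟩
      simp only
      rw [hn, inv_mul_cancel_right]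
  let e : F × ZMod 5 ≃ G := Equiv.ofBijective _ hbij
  have he : ∀ n i, e (n, i) = X.ν n * E i := fun n i => rfl
  let t : F × ZMod 5 → F × ZMod 5 := fun p => (if p.2 = 0 then Z p.1 else c p.2 * p.1, 2 * p.2)
  have h2inj : ∀ i j : ZMod 5, 2 * i = 2 * j → i = j := by decide
  have htinj : Function.Injective t := by
    rintro ⟨n, i⟩ ⟨m, j⟩ h
    simp only [t, Prod.mk.injEq] at h
    obtain ⟨h1, h2⟩ := h
    have h3 := h2inj _ _ h2
    subst h3
    by_cases hi : i = 0
    · rw [if_pos hi, if_pos hi] at h1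
      rw [hZinj h1]
    · rw [if_neg hi, if_neg hi] at h1
      rw [mul_left_cancel₀ (hc0 i) h1]
  let T : Perm (F × ZMod 5) := Equiv.ofBijective t (Finite.injective_iff_bijective.mp htinj)
  let Θ₀ : Perm G := (e.symm.trans T).trans e
  have hΘe : ∀ n i, Θ₀ (X.ν n * E i) = X.ν (t (n, i)).1 * E (2 * i) := by
    intro n i
    show e (T (e.symm (X.ν n * E i))) = _
    rw [← he, Equiv.symm_apply_apply]
    rfl
  have hΘN : ∀ n, Θ₀ (X.ν n) = X.ν (Z n) := by
    intro n
    have h := hΘe n 0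
    have h1 : (t (n, 0)).1 = Z n := by simp [t]
    rw [h1, mul_zero, hE0, mul_one, mul_one] at h
    exact h
  have hΘC : ∀ n i, i ≠ 0 → Θ₀ (X.ν n * E i) = X.ν (c i * n) * E (2 * i) := by
    intro n i hi
    rw [hΘe]
    have h1 : (t (n, i)).1 = c i * n := by simp [t, hi]
    rw [h1]
  have hdec : ∀ x : G, ∃ n i, x = X.ν n * E i := by
    intro x
    obtain ⟨⟨n, i⟩, h⟩ := hbij.2 x
    exact ⟨n, i, h.symm⟩
  have hinj2 : ∀ n i m j, X.ν n * E i = X.ν m * E j → n = m ∧ i = j := by
    intro n i m j h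
    have := hbij.1 (a₁ := (n, i)) (a₂ := (m, j)) h
    simpa using this
  -- orthomorphism
  have hO : Orth Θ₀ := by
    constructor
    · have := hΘN 0
      rw [hZ0, hν0] at this
      exact this
    · intro x y hxy
      obtain ⟨n, i, rfl⟩ := hdec x
      obtain ⟨m, j, rfl⟩ := hdec y
      simp only [hΘe] at hxy
      have h1 := congrArg X.π hxy
      simp only [map_mul, map_inv, hπν, hπE, one_mul] at h1
      rw [two_mul, two_mul, hAadd, hAadd, map_mul, map_mul, inv_mul_cancel_left,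
        inv_mul_cancel_left] at h1
      have h2 : i = j := hAinj h1
      subst h2
      rw [mul_inv_rev (X.ν n) (E i), mul_inv_rev (X.ν m) (E i), mul_assoc (E i)⁻¹,
        mul_assoc (E i)⁻¹] at hxy
      have h3 := mul_left_cancel hxy
      rw [← mul_assoc (X.ν n)⁻¹, ← mul_assoc (X.ν m)⁻¹] at h3
      have h4 := mul_right_cancel h3
      rw [← hνneg, ← hνneg, ← X.ν_add, ← X.ν_add] at h4
      have h5 := X.ν_inj h4
      rw [neg_add_eq_sub, neg_add_eq_sub] at h5
      by_cases hi : i = 0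
      · simp only [t, if_pos hi] at h5
        rw [hZq _ _ h5]
      · simp only [t, if_neg hi] at h5
        have h6 : (c i - 1) * n = (c i - 1) * m := by linear_combination h5
        rw [mul_left_cancel₀ (sub_ne_zero.mpr (hc1 i hi)) h6]
  -- special points
  let S : ZMod 5 → G := fun i => X.ν s * A i
  let R : ZMod 5 → G := fun i => X.ν s * A i * X.ν ρ
  have hS : ∀ i, S i = X.ν (α i) * E i := by
    intro i
    simp only [S, E]
    rw [← mul_assoc, ← X.ν_add]
    congr 2
    ring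
  have hR : ∀ i, R i = X.ν (α i + B i ρ) * E i := by
    intro i
    simp only [R, E]
    rw [mul_assoc, hAν, ← mul_assoc, ← mul_assoc, ← X.ν_add, ← X.ν_add]
    congr 2
    ring
  have hSR : ∀ i, Θ₀ (S i) = R (2 * i) := by
    intro i
    rw [hS, hR]
    fin_cases i
    · show Θ₀ (X.ν s * E 0) = X.ν (s + B 0 ρ) * E 0
      rw [hE0, mul_one, mul_one, hΘN, hB0, hρ]
      congr 1
      ring
    · show Θ₀ (X.ν 0 * E 1) = X.ν (α2 + B 2 ρ) * E 2
      rw [hΘC _ _ (by decide)]
      congr 2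
      rw [e2]
      ring
    · show Θ₀ (X.ν α2 * E 2) = X.ν (α4 + B 4 ρ) * E 4
      rw [hΘC _ _ (by decide)]
      congr 2
      rw [e4]
      show c2 * α2 = _
      ring
    · show Θ₀ (X.ν α3 * E 3) = X.ν (0 + B 1 ρ) * E 1
      rw [hΘC _ _ (by decide)]
      congr 2
      show c3 * α3 = _
      linear_combination e1
    · show Θ₀ (X.ν α4 * E 4) = X.ν (α3 + B 3 ρ) * E 3
      rw [hΘC _ _ (by decide)]
      congr 2
      show c4 * α4 = _
      rw [e3]
      ring
  have hSRq : ∀ i j, (S i)⁻¹ * R j = A (j - i) * X.ν ρ := by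
    intro i j
    have h1 : A j = A i * A (j - i) := by rw [← hAadd, add_sub_cancel]
    simp only [S, R]
    rw [h1]
    group
  have hSinj : ∀ i j, i ≠ j → S i ≠ S j := by
    intro i j hij h
    rw [hS, hS] at h
    exact hij (hinj2 _ _ _ _ h).2
  -- cycles of Θ₀
  have hpowN : ∀ k : ℕ, ∀ n, (Θ₀ ^ k) (X.ν n) =
      X.ν (Multiplicative.toAdd ((ζ ^ k) (Multiplicative.ofAdd n))) := by
    intro k
    induction k with
    | zero => intro n; simp
    | succ k ih =>
      intro n
      rw [pow_succ', Perm.mul_apply, ih, hΘN, pow_succ', Perm.mul_apply]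
      rfl
  have hcN : ∀ n m, n ≠ 0 → m ≠ 0 → Θ₀.SameCycle (X.ν n) (X.ν m) := by
    intro n m hn hm
    obtain ⟨k, hk⟩ := (hζc (Multiplicative.ofAdd n) (Multiplicative.ofAdd m)
      (fun h => hn (by simpa using h)) (fun h => hm (by simpa using h))).exists_nat_pow_eq
    refine ⟨k, ?_⟩
    rw [zpow_natCast, hpowN, hk]
    rfl
  have hstep : ∀ n i, i ≠ 0 → Θ₀.SameCycle (X.ν n * E i) (X.ν (c i * n) * E (2 * i)) := by
    intro n i hi
    rw [← hΘC n i hi]
    exact Perm.sameCycle_apply_right.mpr (Perm.SameCycle.refl _ _)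
  have hto1 : ∀ n i, i ≠ 0 → ∃ d, d ≠ 0 ∧ Θ₀.SameCycle (X.ν n * E i) (X.ν (d * n) * E 1) := by
    intro n i hi
    fin_cases i
    · exact absurd rfl hi
    · exact ⟨1, one_ne_zero, by rw [one_mul]; exact Perm.SameCycle.refl _ _⟩
    · refine ⟨c3 * (c4 * c2), mul_ne_zero hc30 (mul_ne_zero hc40 hc20), ?_⟩
      have h1 := hstep n 2 (by decide)
      have h2 := hstep (c 2 * n) 4 (by decide)
      have h3 := hstep (c 4 * (c 2 * n)) 3 (by decide)
      have h4 := (h1.trans h2).trans h3
      have h5 : c 3 * (c 4 * (c 2 * n)) = c3 * (c4 * c2) * n := by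
        show c3 * (c4 * (c2 * n)) = _
        ring
      rw [h5] at h4
      exact h4
    · refine ⟨c3, hc30, ?_⟩
      exact hstep n 3 (by decide)
    · refine ⟨c3 * c4, mul_ne_zero hc30 hc40, ?_⟩
      have h2 := hstep n 4 (by decide)
      have h3 := hstep (c 4 * n) 3 (by decide)
      have h4 := h2.trans h3
      have h5 : c 3 * (c 4 * n) = c3 * c4 * n := by
        show c3 * (c4 * n) = _
        ring
      rw [h5] at h4
      exact h4
  have hcE : ∀ i, i ≠ 0 → Θ₀.SameCycle (E i) (E 1) := by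
    intro i hi
    obtain ⟨d, _, hd⟩ := hto1 0 i hi
    rw [mul_zero, hν0, one_mul, one_mul] at hd
    exact hd
  have hgn : ∀ n, Θ₀.SameCycle (X.ν n * E 1) (X.ν (g * n) * E 1) := by
    intro n
    have h0 := hstep n 1 (by decide)
    have h1 := hstep (c 1 * n) 2 (by decide)
    have h2 := hstep (c 2 * (c 1 * n)) 4 (by decide)
    have h3 := hstep (c 4 * (c 2 * (c 1 * n))) 3 (by decide)
    have h4 := ((h0.trans h1).trans h2).trans h3
    have h5 : c 3 * (c 4 * (c 2 * (c 1 * n))) = g * n := by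
      show c3 * (c4 * (c2 * (c1 * n))) = _
      rw [← eg]
      ring
    rw [h5] at h4
    exact h4
  have hgk : ∀ k : ℕ, ∀ n, Θ₀.SameCycle (X.ν n * E 1) (X.ν (g ^ k * n) * E 1) := by
    intro k
    induction k with
    | zero => intro n; rw [pow_zero, one_mul n]
    | succ k ih =>
      intro n
      have h := (ih n).trans (hgn _)
      have h5 : g * (g ^ k * n) = g ^ (k + 1) * n := by ring
      rw [h5] at h
      exact h
  have hcR1 : ∀ n m, n ≠ 0 → m ≠ 0 → Θ₀.SameCycle (X.ν n * E 1) (X.ν m * E 1) := by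
    intro n m hn hm
    obtain ⟨k, hk⟩ := hg.2 (m / n) (div_ne_zero hm hn)
    have h := hgk k n
    rw [← hk, div_mul_cancel₀ _ hn] at h
    exact h
  have hcR : ∀ n i m j, n ≠ 0 → i ≠ 0 → m ≠ 0 → j ≠ 0 →
      Θ₀.SameCycle (X.ν n * E i) (X.ν m * E j) := by
    intro n i m j hn hi hm hj
    obtain ⟨d, hd, h1⟩ := hto1 n i hi
    obtain ⟨d', hd', h2⟩ := hto1 m j hj
    exact (h1.trans (hcR1 _ _ (mul_ne_zero hd hn) (mul_ne_zero hd' hm))).trans h2.symm
  -- special points, explicit
  have hS0 : S 0 = X.ν s := by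
    simp only [S]; rw [hA0, mul_one]
  have hS1 : S 1 = E 1 := by
    rw [hS]
    show X.ν 0 * E 1 = E 1
    rw [hν0, one_mul]
  have hS2 : S 2 = X.ν α2 * E 2 := hS 2
  have hS3 : S 3 = X.ν α3 * E 3 := hS 3
  -- first swap
  have hn03 : ¬ Θ₀.SameCycle (S 0) (S 3) := by
    intro h
    have h1 := t19_inv Θ₀ (fun x => ∃ n, x = X.ν n) (by
      rintro x ⟨n, rfl⟩
      exact ⟨Z n, hΘN n⟩) h ⟨s, hS0⟩
    obtain ⟨n, hn⟩ := h1
    have h2 : X.ν α3 * E 3 = X.ν n * E 0 := by rw [← hS3, hn, hE0, mul_one]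
    have h3 := (hinj2 _ _ _ _ h2).2
    exact absurd h3 (by decide)
  obtain ⟨hT1, hT2⟩ := t19_swap Θ₀ (S 0) (S 3) hn03
  have hn12 : ¬ (Θ₀ * swap (S 0) (S 3)).SameCycle (S 1) (S 2) := by
    intro h
    have h1 := t19_inv (Θ₀ * swap (S 0) (S 3)) (fun x => ∃ i, i ≠ 0 ∧ x = E i) (by
      rintro x ⟨i, hi, rfl⟩
      refine ⟨2 * i, fun h0 => hi (h2inj _ _ (by rw [h0, mul_zero])), ?_⟩
      have hE : E i = X.ν 0 * E i := by rw [hν0, one_mul]
      have h3 : E i ≠ S 0 := by
        intro h4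
        rw [hE, hS] at h4
        exact hi (hinj2 _ _ _ _ h4).2
      have h5 : E i ≠ S 3 := by
        intro h4
        rw [hE, hS3] at h4
        exact hα30 (hinj2 _ _ _ _ h4).1.symm
      rw [Perm.mul_apply, swap_apply_of_ne_of_ne h3 h5, hE, hΘC _ _ hi, mul_zero, hν0, one_mul]) h
      ⟨1, by decide, hS1⟩
    obtain ⟨i, hi, h2⟩ := h1
    have h3 : X.ν α2 * E 2 = X.ν 0 * E i := by rw [← hS2, h2, hν0, one_mul]
    exact hα20 (hinj2 _ _ _ _ h3).1
  obtain ⟨hT3, hT4⟩ := t19_swap (Θ₀ * swap (S 0) (S 3)) (S 1) (S 2) hn12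
  refine ⟨Θ₀ * swap (S 0) (S 3) * swap (S 1) (S 2), ?_, ?_, ?_⟩
  · -- orthomorphism
    have d01 : S 0 ≠ S 1 := hSinj _ _ (by decide)
    have d02 : S 0 ≠ S 2 := hSinj _ _ (by decide)
    have d03 : S 0 ≠ S 3 := hSinj _ _ (by decide)
    have d12 : S 1 ≠ S 2 := hSinj _ _ (by decide)
    have d13 : S 1 ≠ S 3 := hSinj _ _ (by decide)
    have d23 : S 2 ≠ S 3 := hSinj _ _ (by decide)
    have hone : ∀ i, (1 : G) ≠ S i := by
      intro i h
      have h1 : X.ν 0 * E 0 = X.ν (α i) * E i := by rw [← hS, ← h, hν0, hE0, one_mul]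
      obtain ⟨h2, h3⟩ := hinj2 _ _ _ _ h1
      subst h3
      exact hs h2.symm
    constructor
    · rw [Perm.mul_apply, Perm.mul_apply, swap_apply_of_ne_of_ne (hone 1) (hone 2),
        swap_apply_of_ne_of_ne (hone 0) (hone 3)]
      exact hO.1
    · -- τ
      let τ : Perm G := swap (S 0) (S 1) * swap (S 1) (S 3) * swap (S 3) (S 2)
      have hq : ∀ x, x⁻¹ * (Θ₀ * swap (S 0) (S 3) * swap (S 1) (S 2)) x =
          (τ x)⁻¹ * Θ₀ (τ x) := by
        intro x
        by_cases hx0 : x = S 0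
        · subst hx0
          have h1 : (Θ₀ * swap (S 0) (S 3) * swap (S 1) (S 2)) (S 0) = Θ₀ (S 3) := by
            rw [Perm.mul_apply, Perm.mul_apply, swap_apply_of_ne_of_ne d01 d02, swap_apply_left]
          have h2 : τ (S 0) = S 1 := by
            show swap (S 0) (S 1) (swap (S 1) (S 3) (swap (S 3) (S 2) (S 0))) = S 1
            rw [swap_apply_of_ne_of_ne d03 d02, swap_apply_of_ne_of_ne d01 d03, swap_apply_left]
          rw [h1, h2, hSR, hSR, hSRq, hSRq]
          rfl
        by_cases hx1 : x = S 1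
        · subst hx1
          have h1 : (Θ₀ * swap (S 0) (S 3) * swap (S 1) (S 2)) (S 1) = Θ₀ (S 2) := by
            rw [Perm.mul_apply, Perm.mul_apply, swap_apply_left,
              swap_apply_of_ne_of_ne d02.symm d23]
          have h2 : τ (S 1) = S 3 := by
            show swap (S 0) (S 1) (swap (S 1) (S 3) (swap (S 3) (S 2) (S 1))) = S 3
            rw [swap_apply_of_ne_of_ne d13 d12, swap_apply_left,
              swap_apply_of_ne_of_ne d03.symm d13.symm]
          rw [h1, h2, hSR, hSR, hSRq, hSRq]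
          rfl
        by_cases hx2 : x = S 2
        · subst hx2
          have h1 : (Θ₀ * swap (S 0) (S 3) * swap (S 1) (S 2)) (S 2) = Θ₀ (S 1) := by
            rw [Perm.mul_apply, Perm.mul_apply, swap_apply_right,
              swap_apply_of_ne_of_ne d01.symm d13]
          have h2 : τ (S 2) = S 0 := by
            show swap (S 0) (S 1) (swap (S 1) (S 3) (swap (S 3) (S 2) (S 2))) = S 0
            rw [swap_apply_right, swap_apply_right, swap_apply_right]
          rw [h1, h2, hSR, hSR, hSRq, hSRq]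
          rfl
        by_cases hx3 : x = S 3
        · subst hx3
          have h1 : (Θ₀ * swap (S 0) (S 3) * swap (S 1) (S 2)) (S 3) = Θ₀ (S 0) := by
            rw [Perm.mul_apply, Perm.mul_apply, swap_apply_of_ne_of_ne d13.symm d23.symm,
              swap_apply_right]
          have h2 : τ (S 3) = S 2 := by
            show swap (S 0) (S 1) (swap (S 1) (S 3) (swap (S 3) (S 2) (S 3))) = S 2
            rw [swap_apply_left, swap_apply_of_ne_of_ne d12.symm d23,
              swap_apply_of_ne_of_ne d02.symm d12.symm]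
          rw [h1, h2, hSR, hSR, hSRq, hSRq]
          rfl
        have h1 : (Θ₀ * swap (S 0) (S 3) * swap (S 1) (S 2)) x = Θ₀ x := by
          rw [Perm.mul_apply, Perm.mul_apply, swap_apply_of_ne_of_ne hx1 hx2,
            swap_apply_of_ne_of_ne hx0 hx3]
        have h2 : τ x = x := by
          show swap (S 0) (S 1) (swap (S 1) (S 3) (swap (S 3) (S 2) x)) = x
          rw [swap_apply_of_ne_of_ne hx3 hx2, swap_apply_of_ne_of_ne hx1 hx3,
            swap_apply_of_ne_of_ne hx0 hx1]
        rw [h1, h2]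
      intro x y hxy
      simp only at hxy
      rw [hq, hq] at hxy
      exact τ.injective (hO.2 hxy)
  · -- one cycle
    have hlift : ∀ x y, Θ₀.SameCycle x y →
        (Θ₀ * swap (S 0) (S 3) * swap (S 1) (S 2)).SameCycle x y :=
      fun x y h => hT3 _ _ (hT1 _ _ h)
    have h03 := hT3 _ _ hT2
    have h30 := h03.symm
    have h23 : (Θ₀ * swap (S 0) (S 3) * swap (S 1) (S 2)).SameCycle (S 2) (S 3) := by
      apply hlift
      rw [hS2, hS3]
      exact hcR _ _ _ _ hα20 (by decide) hα30 (by decide)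
    have hall : ∀ x, x ≠ 1 → (Θ₀ * swap (S 0) (S 3) * swap (S 1) (S 2)).SameCycle x (S 0) := by
      intro x hx
      obtain ⟨n, i, rfl⟩ := hdec x
      by_cases hi : i = 0
      · subst hi
        rw [hE0, mul_one] at hx ⊢
        have hn : n ≠ 0 := by
          intro h
          apply hx
          rw [h, hν0]
        apply hlift
        rw [hS0]
        exact hcN _ _ hn hs
      · by_cases hn : n = 0
        · subst hn
          rw [hν0, one_mul]
          have h1 := hlift _ _ (hcE i hi)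
          rw [← hS1] at h1
          exact ((h1.trans hT4).trans h23).trans h30
        · have h1 : (Θ₀ * swap (S 0) (S 3) * swap (S 1) (S 2)).SameCycle (X.ν n * E i) (S 3) := by
            apply hlift
            rw [hS3]
            exact hcR _ _ _ _ hn hi hα30 (by decide)
          exact h1.trans h30
    intro x y hx hy
    exact (hall x hx).trans (hall y hy).symm
  · intro n hn
    have h1 : ∀ i, X.ν n ≠ S i := by
      intro i h
      have h2 : X.ν n * E 0 = X.ν (α i) * E i := by rw [hE0, mul_one, ← hS, h]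
      obtain ⟨h3, h4⟩ := hinj2 _ _ _ _ h2
      subst h4
      exact hn h3
    rw [Perm.mul_apply, Perm.mul_apply, swap_apply_of_ne_of_ne (h1 1) (h1 2),
      swap_apply_of_ne_of_ne (h1 0) (h1 3), hΘN]

end LibRS
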