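import Pool.Agent.LibRS.Defs

set_option autoImplicit false
namespace LibRS
open Equiv

variable {F G Q : Type}

theorem t08_cycleOn {G : Type} [Group G] [Fintype G] [DecidableEq G] (θ : Perm G) (h1 : θ 1 = 1)
    (hc : OneCyc θ) : θ.IsCycleOn ((Finset.univ.erase (1 : G) : Finset G) : Set G) := by
  refine ⟨⟨?_, θ.injective.injOn, ?_⟩, ?_⟩
  · intro x hx
    simp only [Finset.coe_erase, Finset.coe_univ, Set.mem_sdiff, Set.mem_univ,
      Set.mem_singleton_iff, true_and] at hx ⊢
    intro h
    exact hx (θ.injective (h.trans h1.symm))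
  · intro y hy
    simp only [Finset.coe_erase, Finset.coe_univ, Set.mem_sdiff, Set.mem_univ,
      Set.mem_singleton_iff, true_and] at hy
    refine ⟨θ.symm y, ?_, by simp⟩
    simp only [Finset.coe_erase, Finset.coe_univ, Set.mem_sdiff, Set.mem_univ,
      Set.mem_singleton_iff, true_and]
    intro h
    apply hy
    have := congrArg θ h
    simpa [h1] using this
  · intro x hx y hy
    simp only [Finset.coe_erase, Finset.coe_univ, Set.mem_sdiff, Set.mem_univ,
      Set.mem_singleton_iff, true_and] at hx hy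
    exact hc x y hx hy

theorem t08_ne_one [Group Q] (θ : Perm Q) (h1 : θ 1 = 1) (y : Q) (hy : y ≠ 1) (i : ℕ) :
    (θ ^ i) y ≠ 1 := by
  intro hi
  have h1' : ∀ i : ℕ, (θ ^ i) (1 : Q) = 1 := by
    intro i
    induction i with
    | zero => simp
    | succ i ih => rw [pow_succ', Perm.mul_apply, ih, h1]
  apply hy
  apply (θ ^ i).injective
  rw [hi, h1']

theorem t08_prod {M : Type} [CommMonoid M] [Group Q] [Fintype Q] [DecidableEq Q] (θ : Perm Q)
    (h1 : θ 1 = 1) (hc : OneCyc θ) (c : Q → M) (y : Q) (hy : y ≠ 1) :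
    (θ ^ (Fintype.card Q - 1)) y = y ∧
    ∏ j ∈ Finset.range (Fintype.card Q - 1), c ((θ ^ j) y)
      = ∏ y' ∈ Finset.univ.erase (1 : Q), c y' := by
  have hcyc := t08_cycleOn θ h1 hc
  have hcard : (Finset.univ.erase (1 : Q)).card = Fintype.card Q - 1 := by
    rw [Finset.card_erase_of_mem (Finset.mem_univ _), Finset.card_univ]
  have hmem : y ∈ Finset.univ.erase (1 : Q) := by simp [hy]
  have h2 : (θ ^ (Fintype.card Q - 1)) y = y := by
    rw [← hcard]
    exact hcyc.pow_card_apply hmem
  refine ⟨h2, ?_⟩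
  have hmaps := t08_ne_one θ h1 y hy
  have hinj : Set.InjOn (fun j : ℕ => (θ ^ j) y) (Finset.range (Fintype.card Q - 1) : Set ℕ) := by
    intro i hi j hj hij
    simp only [Finset.coe_range, Set.mem_Iio] at hi hj
    have := (hcyc.pow_apply_eq_pow_apply hmem).1 hij
    rw [hcard] at this
    exact Nat.ModEq.eq_of_lt_of_lt this hi hj
  have himg : (Finset.range (Fintype.card Q - 1)).image (fun j : ℕ => (θ ^ j) y)
      = Finset.univ.erase (1 : Q) := by
    apply Finset.eq_of_subset_of_card_le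
    · intro z hz
      simp only [Finset.mem_image] at hz
      obtain ⟨j, -, rfl⟩ := hz
      simp [hmaps j]
    · rw [hcard, Finset.card_image_of_injOn hinj, Finset.card_range]
  rw [← himg, Finset.prod_image hinj]

theorem t08_pow [Field F] [Group G] [Group Q] (X : Ext F G Q) (θ : Perm Q) (c : Q → F)
    (E : Q → G) (Θ : Perm G) (hΘ : ∀ n y, Θ (X.ν n * E y) = X.ν (c y * n) * E (θ y))
    (n : F) (y : Q) (i : ℕ) :
    (Θ ^ i) (X.ν n * E y)
      = X.ν ((∏ j ∈ Finset.range i, c ((θ ^ j) y)) * n) * E ((θ ^ i) y) := by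
  induction i with
  | zero => simp
  | succ i ih =>
    rw [pow_succ', Perm.mul_apply, ih, hΘ, Finset.prod_range_succ, pow_succ', Perm.mul_apply]
    congr 2
    ring

/-- the class function `χ(n) e(y)` of the lift when the product of the multipliers is `g ^ 2` -/
theorem lift_cyc_two [Field F] [Fintype F] [Group Q] [Fintype Q] [DecidableEq F]
    [DecidableEq Q] (hchar : ringChar F ≠ 2)
    (θ : Perm Q) (h1 : θ 1 = 1) (hθ : OneCyc θ) (c : Q → F) (hc0 : ∀ y, c y ≠ 0)
    (g : F) (hg : Prim g) (hprod : ∏ y ∈ Finset.univ.erase (1 : Q), c y = g ^ 2) :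
    ∃ e : Q → ℤ, (∀ y, e y = 1 ∨ e y = -1) ∧
      (∀ y, y ≠ 1 → e (θ y) = quadraticChar F (c y) * e y) ∧
      (∀ (G : Type) [Group G] (X : Ext F G Q) (E : Q → G) (Θ : Perm G),
        (∀ n y, Θ (X.ν n * E y) = X.ν (c y * n) * E (θ y)) →
        ∀ (n n' : F) (y y' : Q), n ≠ 0 → n' ≠ 0 → y ≠ 1 → y' ≠ 1 →
        quadraticChar F n * e y = quadraticChar F n' * e y' →
        Θ.SameCycle (X.ν n * E y) (X.ν n' * E y')) := by
  have hcyc := t08_cycleOn θ h1 hθ
  have hcard : (Finset.univ.erase (1 : Q)).card = Fintype.card Q - 1 := by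
    rw [Finset.card_erase_of_mem (Finset.mem_univ _), Finset.card_univ]
  set χ := quadraticChar F with hχ
  have hχsq : ∀ a : F, a ≠ 0 → χ a * χ a = 1 := by
    intro a ha
    have := quadraticChar_sq_one ha
    rw [pow_two] at this
    exact this
  -- the sign function
  obtain ⟨e, he1, he2⟩ : ∃ e : Q → ℤ, (∀ y, e y = 1 ∨ e y = -1) ∧
      (∀ y, y ≠ 1 → e (θ y) = χ (c y) * e y) := by
    by_cases hQ : ∃ y₀ : Q, y₀ ≠ 1
    · obtain ⟨y₀, hy₀⟩ := hQ
      let P : ℕ → ℤ := fun i => ∏ j ∈ Finset.range i, χ (c ((θ ^ j) y₀))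
      have hPper : Function.Periodic P (Fintype.card Q - 1) := by
        intro i
        simp only [P]
        rw [Finset.prod_range_add]
        have h2 : ∏ x ∈ Finset.range (Fintype.card Q - 1), χ (c ((θ ^ (i + x)) y₀)) = 1 := by
          have h3 := (t08_prod θ h1 hθ (fun y => χ (c y)) ((θ ^ i) y₀)
            (t08_ne_one θ h1 y₀ hy₀ i)).2
          have h4 : ∏ y' ∈ Finset.univ.erase (1 : Q), χ (c y') = 1 := by
            rw [← map_prod, hprod, map_pow, pow_two, hχsq g hg.1]
          rw [h4] at h3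
          rw [← h3]
          apply Finset.prod_congr rfl
          intro j _
          rw [← Perm.mul_apply, ← pow_add, add_comm]
        rw [h2, mul_one]
      have hPsign : ∀ i, P i = 1 ∨ P i = -1 := by
        intro i
        induction i with
        | zero => left; simp [P]
        | succ i ih =>
          have h2 : P (i + 1) = P i * χ (c ((θ ^ i) y₀)) := by
            simp only [P]
            rw [Finset.prod_range_succ]
          rw [h2]
          rcases ih with h | h <;> rcases quadraticChar_dichotomy (hc0 ((θ ^ i) y₀)) with h' | h' <;>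
            rw [h, hχ, h'] <;> norm_num
      have hex : ∀ y : Q, y ≠ 1 → ∃ i : ℕ, (θ ^ i) y₀ = y := by
        intro y hy
        obtain ⟨i, -, hi⟩ := (hθ y₀ y hy₀ hy).exists_pow_eq''
        exact ⟨i, hi.2⟩
      choose! idx hidx using hex
      have hPeq : ∀ i i' : ℕ, (θ ^ i) y₀ = (θ ^ i') y₀ → P i = P i' := by
        intro i i' h
        have hm : i ≡ i' [MOD Fintype.card Q - 1] := by
          rw [← hcard]
          exact (hcyc.pow_apply_eq_pow_apply (by simp [hy₀])).1 h
        rw [← hPper.map_mod_nat i, ← hPper.map_mod_nat i']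
        congr 1
      refine ⟨fun y => if y = 1 then 1 else P (idx y), ?_, ?_⟩
      · intro y
        simp only
        split_ifs
        · left; rfl
        · exact hPsign _
      · intro y hy
        have hy' : θ y ≠ 1 := by
          have := t08_ne_one θ h1 y hy 1
          simpa using this
        simp only [hy, hy', if_false]
        have h2 : P (idx (θ y)) = P (idx y + 1) := by
          apply hPeq
          rw [hidx _ hy', pow_succ', Perm.mul_apply, hidx _ hy]
        rw [h2]
        simp only [P]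
        rw [Finset.prod_range_succ, hidx _ hy, mul_comm]
    · push Not at hQ
      exact ⟨fun _ => 1, fun _ => Or.inl rfl, fun y hy => absurd (hQ y) hy⟩
  refine ⟨e, he1, he2, ?_⟩
  intro G _ X E Θ hΘ n n' y y' hn hn' hy hy' heq
  have hpow := t08_pow X θ c E Θ hΘ
  -- one turn
  have hturn : ∀ (n : F), (Θ ^ (Fintype.card Q - 1)) (X.ν n * E y') = X.ν (g ^ 2 * n) * E y' := by
    intro n
    obtain ⟨h2, h3⟩ := t08_prod θ h1 hθ c y' hy'
    rw [hpow, h2, h3, hprod]
  have hturns : ∀ (j : ℕ) (n : F),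
      Θ.SameCycle (X.ν n * E y') (X.ν ((g ^ 2) ^ j * n) * E y') := by
    intro j
    induction j with
    | zero => intro n; rw [pow_zero, one_mul]
    | succ j ih =>
      intro n
      refine (ih n).trans ?_
      refine ⟨((Fintype.card Q - 1 : ℕ) : ℤ), ?_⟩
      rw [zpow_natCast, hturn]
      congr 2
      ring
  -- invariance
  have hinv : ∀ (i : ℕ) (y : Q), y ≠ 1 →
      (∏ j ∈ Finset.range i, χ (c ((θ ^ j) y))) * e ((θ ^ i) y) = e y := by
    intro i y hy
    induction i with
    | zero => simp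
    | succ i ih =>
      rw [Finset.prod_range_succ, pow_succ', Perm.mul_apply,
        he2 _ (t08_ne_one θ h1 y hy i)]
      have h3 := hχsq _ (hc0 ((θ ^ i) y))
      calc _ = ((∏ j ∈ Finset.range i, χ (c ((θ ^ j) y))) * e ((θ ^ i) y))
            * (χ (c ((θ ^ i) y)) * χ (c ((θ ^ i) y))) := by ring
        _ = e y := by rw [h3, mul_one, ih]
  obtain ⟨i, -, hi⟩ := (hθ y y' hy hy').exists_pow_eq''
  have h4 : Θ.SameCycle (X.ν n * E y)
      (X.ν ((∏ j ∈ Finset.range i, c ((θ ^ j) y)) * n) * E y') := by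
    refine ⟨(i : ℤ), ?_⟩
    rw [zpow_natCast, hpow, hi.2]
  refine h4.trans ?_
  have h5 : χ ((∏ j ∈ Finset.range i, c ((θ ^ j) y)) * n) * e y' = χ n' * e y' := by
    rw [← heq, map_mul, map_prod]
    have h6 := hinv i y hy
    rw [hi.2] at h6
    calc _ = χ n * ((∏ j ∈ Finset.range i, χ (c ((θ ^ j) y))) * e y') := by ring
      _ = _ := by rw [h6]
  set n'' := (∏ j ∈ Finset.range i, c ((θ ^ j) y)) * n with hn''
  have hn0 : n'' ≠ 0 := mul_ne_zero (Finset.prod_ne_zero_iff.2 (fun j _ => hc0 _)) hn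
  have hey : e y' ≠ 0 := by
    rcases he1 y' with h | h <;> rw [h] <;> norm_num
  have h7 : χ n'' = χ n' := mul_right_cancel₀ hey h5
  have h8 : χ (n' / n'') = 1 := by
    have h9 : n' / n'' = n' * n'' * (n''⁻¹) ^ 2 := by field_simp
    rw [h9, map_mul, map_mul, map_pow, pow_two, hχsq _ (inv_ne_zero hn0), mul_one, h7,
      hχsq n' hn']
  have h10 : IsSquare (n' / n'') :=
    (quadraticChar_one_iff_isSquare (div_ne_zero hn' hn0)).1 h8
  obtain ⟨d, hd⟩ := h10
  have hd0 : d ≠ 0 := by
    rintro rfl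
    rw [mul_zero] at hd
    exact div_ne_zero hn' hn0 hd
  obtain ⟨j, hj⟩ := hg.2 d hd0
  have h11 := hturns j n''
  have h12 : (g ^ 2) ^ j * n'' = n' := by
    have h13 : (g ^ 2) ^ j = n' / n'' := by
      rw [hd, hj, ← pow_mul, mul_comm 2 j, pow_mul, pow_two]
    rw [h13, div_mul_cancel₀ _ hn0]
  rw [h12] at h11
  exact h11

end LibRS
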