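import Pool.Agent.LibRS.Basics
import Pool.Agent.LibRS.T02
import Pool.Agent.LibRS.T06
import Pool.Agent.LibRS.T07
import Pool.Agent.LibRS.T08

set_option autoImplicit false

namespace LibRS
open Equiv

section stubs

end stubs

theorem Orth.ne {G : Type} [Group G] {θ : Perm G} (h : Orth θ) {y : G} (hy : y ≠ 1) : θ y ≠ y := by
  intro h0
  apply hy
  apply h.2
  simp [h0, h.1]

theorem ext_core3 {F G Q : Type} [Field F] [Fintype F] [DecidableEq F] [Group G] [Finite G]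
    [Group Q] [Fintype Q] [DecidableEq Q] (X : Ext F G Q) (hchar : ringChar F ≠ 2) (θ : Perm Q)
    (x h k : Q) (hθ : Orth θ)
    (hc : OneCyc θ) (hp : Pat3 θ x h k) (g : F) (hg : Prim g) (h₀ k' : G) (hh₀ : X.π h₀ = h)
    (hk' : X.π k' = k) (c : Q → F) (hc0 : ∀ y, c y ≠ 0) (hc1 : ∀ y, c y ≠ 1)
    (hcone : c 1 = g) (hcx : c x = -1) (hch : c h = -1) (hck : c k = -1) (hcw : c (k * x) = -1)
    (hcu : c (h * x) * X.β h₀ 1 = X.β h₀ g)
    (hδ : ∀ s : ℤ, s = 1 ∨ s = -1 → ∃ δ : F, quadraticChar F δ = s ∧ δ ≠ X.β h₀ g + X.β k' 1)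
    (hprod : ∏ y ∈ Finset.univ.erase (1 : Q), c y = g ^ 2) : R3 G := by
  classical
  obtain ⟨q1, q2, q3, nd, a1, a2, a3, a4, a5, a6, a7, a8, a9, a10, a11⟩ := hp
  have hθ1 : θ 1 = 1 := hθ.1
  simp only [List.nodup_cons, List.mem_cons, List.not_mem_nil, or_false, not_or,
    List.nodup_nil, and_true, not_false_eq_true] at nd
  obtain ⟨⟨h1x, h1u, h1h, h1w, h1k⟩, ⟨hxu, hxh, hxw, hxk⟩, ⟨huh, huw, huk⟩, ⟨hhw, hhk⟩, hwk⟩ := nd
  obtain ⟨u, hu⟩ : ∃ u, u = h * x := ⟨_, rfl⟩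
  obtain ⟨w, hw⟩ : ∃ w, w = k * x := ⟨_, rfl⟩
  simp only [← hu, ← hw] at q1 q3 h1u h1w hxu hxw huh huw huk hhw hwk a1 a4 a6 a7 a9 a10 a11 hcu hcw
  have hg1 : g ≠ 1 := by rw [← hcone]; exact hc1 1
  -- automatic inequalities
  have inj := θ.injective
  have f1 : θ x ≠ 1 := fun h0 => h1x (inj (hθ1.trans h0.symm))
  have hF1 : θ h ≠ 1 := fun h0 => h1h (inj (hθ1.trans h0.symm))
  have kF1 : θ w ≠ 1 := fun h0 => h1w (inj (hθ1.trans h0.symm))
  have kf1 : θ k ≠ 1 := fun h0 => h1k (inj (hθ1.trans h0.symm))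
  have b1 : θ k ≠ w := by
    intro h0
    rw [q2, hw] at h0
    exact hθ.ne (Ne.symm h1x) (mul_left_cancel h0)
  have b2 : θ k ≠ h := fun h0 => huk (inj (q1.trans h0.symm))
  have b3 : θ k ≠ k := hθ.ne (Ne.symm h1k)
  have b4 : θ h ≠ h := hθ.ne (Ne.symm h1h)
  have b5 : θ h ≠ θ k := fun h0 => hhk (inj h0)
  have b6 : θ x ≠ h := fun h0 => hxu (inj (h0.trans q1.symm))
  have b7 : θ x ≠ θ k := fun h0 => hxk (inj h0)
  have b8 : θ x ≠ θ h := fun h0 => hxh (inj h0)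
  have b9 : θ w ≠ w := hθ.ne (Ne.symm h1w)
  have b10 : θ w ≠ h := fun h0 => huw (inj (q1.trans h0.symm))
  have b11 : θ w ≠ θ k := fun h0 => hwk (inj h0)
  have b12 : θ w ≠ θ h := fun h0 => hhw (inj h0.symm)
  -- the class function
  obtain ⟨e, he1, he2, he3⟩ := lift_cyc_two hchar θ hθ1 hc c hc0 g hg hprod
  have hee : ∀ y, e y * e y = 1 := by
    intro y
    rcases he1 y with h0 | h0 <;> rw [h0] <;> norm_num
  -- the parameters
  have hγ0 : X.β h₀ (1 - g) ≠ 0 := by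
    intro h0
    exact hg1 (sub_eq_zero.1 ((X.β h₀).map_eq_zero_iff.1 h0)).symm
  obtain ⟨γ, hγ⟩ : ∃ γ, γ = X.β h₀ (1 - g) := ⟨_, rfl⟩
  rw [← hγ] at hγ0
  obtain ⟨s, hs⟩ : ∃ s, s = quadraticChar F γ * e h := ⟨_, rfl⟩
  have hs1 : s = 1 ∨ s = -1 := by
    rcases quadraticChar_dichotomy hγ0 with h0 | h0 <;> rcases he1 h with h2 | h2 <;>
      rw [hs, h0, h2] <;> norm_num
  have hmul : ∀ y, s * e y = 1 ∨ s * e y = -1 := by
    intro y
    rcases hs1 with h0 | h0 <;> rcases he1 y with h2 | h2 <;> rw [h0, h2] <;> norm_num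
  obtain ⟨δ, hδ1, hδ2⟩ := hδ (s * e w) (hmul w)
  obtain ⟨ε, hε1, -⟩ := hδ (-(s * e k)) (by rcases hmul k with h0 | h0 <;> rw [h0] <;> norm_num)
  have hδc : quadraticChar F δ * e w = s := by rw [hδ1, mul_assoc, hee, mul_one]
  have hεc : quadraticChar F ε * e k = -s := by rw [hε1, neg_mul, mul_assoc, hee, mul_one]
  have hs0 : s ≠ 0 := by rcases hs1 with h0 | h0 <;> rw [h0] <;> norm_num
  have hδ0 : δ ≠ 0 := by
    rintro rfl
    apply hs0
    rw [← hδc, quadraticChar_zero, zero_mul]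
  have hε0 : ε ≠ 0 := by
    rintro rfl
    apply hs0
    have : -s = 0 := by rw [← hεc, quadraticChar_zero, zero_mul]
    linarith
  -- sections
  obtain ⟨E₁, hE₁⟩ : ∃ E₁ : Q → G, ∀ y, X.π (E₁ y) = y :=
    ⟨fun y => (X.π_surj y).choose, fun y => (X.π_surj y).choose_spec⟩
  obtain ⟨E0, hE01, hE0π⟩ : ∃ E0 : Q → G, E0 1 = 1 ∧ ∀ y, X.π (E0 y) = y := by
    refine ⟨fun y => if y = 1 then 1 else E₁ y, by simp, ?_⟩
    intro y
    by_cases hy : y = 1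
    · simp [hy]
    · simp [hy, hE₁]
  obtain ⟨h', hh', hcase⟩ : ∃ h' : G, X.π h' = h ∧ (θ h = w →
      X.ν (-(c h * γ)) * (h' * (k'⁻¹ * (X.ν (c w * δ) * E0 (θ w)))) =
        X.ν (-δ) * (k' * E0 x)) := by
    by_cases hcw2 : θ h = w
    · refine ⟨X.ν (c h * γ) * (X.ν (-δ) * (k' * (X.ν (-(c w * δ)) * k'))), ?_, ?_⟩
      · simp only [map_mul, X.π_ν, one_mul, hk']
        have h2 := a11 hcw2
        rw [q3, hcw2, hw] at h2
        have h3 : k * (h⁻¹ * k) * x = 1 * x := by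
          calc k * (h⁻¹ * k) * x = k * (h⁻¹ * (k * x)) := by group
            _ = 1 * x := by rw [h2, one_mul]
        have h4 : k * (h⁻¹ * k) = 1 := mul_right_cancel h3
        have h5 : h⁻¹ * k = k⁻¹ := eq_inv_of_mul_eq_one_right h4
        calc k * k = h * (h⁻¹ * k) * k := by group
          _ = h * k⁻¹ * k := by rw [h5]
          _ = h := by group
      · intro _
        rw [a11 hcw2]
        have e1 : X.ν (-(c h * γ)) = (X.ν (c h * γ))⁻¹ := X.ν_neg _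
        have e2 : X.ν (-(c w * δ)) = (X.ν (c w * δ))⁻¹ := X.ν_neg _
        rw [e1, e2]
        group
    · exact ⟨h₀, hh₀, fun h0 => absurd h0 hcw2⟩
  have hβ : ∀ n, X.β h' n = X.β h₀ n := fun n => X.β_congr (by rw [hh', hh₀]) n
  rw [← hβ, ← hβ] at hcu
  rw [← hβ] at hγ hδ2
  obtain ⟨E, hE⟩ : ∃ E : Q → G, E = fun y => if y = u then h' * E0 x else
    if y = w then X.ν (-δ) * (k' * E0 x) else if y = h then h' * X.ν g else
    if y = k then X.ν (-ε) * (k' * X.ν 1) else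
    if y = θ k then X.ν (-(c k * ε)) * (k' * E0 (θ x)) else
    if y = θ h then X.ν (-(c h * γ)) * (h' * (k'⁻¹ * (X.ν (c w * δ) * E0 (θ w)))) else E0 y :=
    ⟨_, rfl⟩
  have hEu : E u = h' * E0 x := by simp [hE]
  have hEw : E w = X.ν (-δ) * (k' * E0 x) := by simp [hE, Ne.symm huw]
  have hEh : E h = h' * X.ν g := by simp [hE, Ne.symm huh, hhw]
  have hEk : E k = X.ν (-ε) * (k' * X.ν 1) := by
    simp [hE, Ne.symm huk, Ne.symm hhk, Ne.symm hwk]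
  have hEkf : E (θ k) = X.ν (-(c k * ε)) * (k' * E0 (θ x)) := by simp [hE, a4, b1, b2, b3]
  have hEhF : E (θ h) = X.ν (-(c h * γ)) * (h' * (k'⁻¹ * (X.ν (c w * δ) * E0 (θ w)))) := by
    by_cases h0 : θ h = w
    · rw [hcase h0, h0, hEw]
    · simp [hE, a1, h0, b4, a2, b5]
  have hEx : E x = E0 x := by simp [hE, hxu, hxw, hxh, hxk, Ne.symm a5, Ne.symm a3]
  have hEf : E (θ x) = E0 (θ x) := by simp [hE, a6, a7, b6, a8, hxk, hxh]
  have hEkF : E (θ w) = E0 (θ w) := by simp [hE, a9, b9, b10, a10, hwk, Ne.symm hhw]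
  have hE1 : E 1 = 1 := by
    simp [hE, h1u, h1w, h1h, h1k, Ne.symm kf1, Ne.symm hF1, hE01]
  have hEπ : ∀ y, X.π (E y) = y := by
    intro y
    by_cases y1 : y = u
    · rw [y1, hEu, map_mul, hh', hE0π, hu]
    by_cases y2 : y = w
    · rw [y2, hEw, map_mul, map_mul, X.π_ν, one_mul, hk', hE0π, hw]
    by_cases y3 : y = h
    · rw [y3, hEh, map_mul, hh', X.π_ν, mul_one]
    by_cases y4 : y = k
    · rw [y4, hEk, map_mul, map_mul, X.π_ν, X.π_ν, one_mul, mul_one, hk']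
    by_cases y5 : y = θ k
    · rw [y5, hEkf, map_mul, map_mul, X.π_ν, one_mul, hk', hE0π, q2]
    by_cases y6 : y = θ h
    · rw [y6, hEhF]
      simp only [map_mul, X.π_ν, one_mul, hh', map_inv, hk', hE0π]
      rw [q3]; group
    simp [hE, y1, y2, y3, y4, y5, y6, hE0π]
  clear hE
  obtain ⟨Θ₀, hΘ₀, hform⟩ := exists_lift X θ hθ c hc0 hc1 E hEπ hE1
  have hΘE : ∀ y, Θ₀ (E y) = E (θ y) := by
    intro y
    have := hform 0 y
    rwa [mul_zero, X.ν_zero, one_mul, one_mul] at this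
  have hΘN : ∀ n, Θ₀ (X.ν n) = X.ν (g * n) := by
    intro n
    have := hform n 1
    rwa [hE1, mul_one, hcone, hθ1, hE1, mul_one] at this
  -- the six points
  obtain ⟨p₁, hp₁⟩ : ∃ p : G, p = E x := ⟨_, rfl⟩
  obtain ⟨p₂, hp₂⟩ : ∃ p : G, p = X.ν 1 := ⟨_, rfl⟩
  obtain ⟨p₃, hp₃⟩ : ∃ p : G, p = h' * E x := ⟨_, rfl⟩
  obtain ⟨p₄, hp₄⟩ : ∃ p : G, p = h' * X.ν 1 := ⟨_, rfl⟩
  obtain ⟨p₅, hp₅⟩ : ∃ p : G, p = k' * E x := ⟨_, rfl⟩
  obtain ⟨p₆, hp₆⟩ : ∃ p : G, p = k' * X.ν 1 := ⟨_, rfl⟩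
  obtain ⟨F₀, hF₀⟩ : ∃ p : G, p = k'⁻¹ * (X.ν (c w * δ) * E (θ w)) := ⟨_, rfl⟩
  have π₁ : X.π p₁ = x := by rw [hp₁]; exact hEπ x
  have π₂ : X.π p₂ = 1 := by rw [hp₂]; exact X.π_ν 1
  have π₃ : X.π p₃ = u := by rw [hp₃, map_mul, hh', hEπ, hu]
  have π₄ : X.π p₄ = h := by rw [hp₄, map_mul, hh', X.π_ν, mul_one]
  have π₅ : X.π p₅ = w := by rw [hp₅, map_mul, hk', hEπ, hw]
  have π₆ : X.π p₆ = k := by rw [hp₆, map_mul, hk', X.π_ν, mul_one]
  have ne_of_π : ∀ {a b : G}, X.π a ≠ X.π b → a ≠ b := fun hab hab' => hab (by rw [hab'])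
  have c3 : p₃ = E u := by rw [hp₃, hEu, hEx]
  have c4 : p₄ = X.ν γ * E h := by
    rw [hEh, hγ, hp₄, ← mul_assoc, ← X.mul_ν, mul_assoc, X.ν_mul]
    congr 2; ring
  have c5 : p₅ = X.ν δ * E w := by
    rw [hEw, X.ν_mul', add_neg_cancel, X.ν_zero, one_mul, hp₅, hEx]
  have c6 : p₆ = X.ν ε * E k := by
    rw [hEk, X.ν_mul', add_neg_cancel, X.ν_zero, one_mul, hp₆]
  have e₁ : Θ₀ p₁ = E (θ x) := by rw [hp₁]; exact hΘE x
  have e₂ : Θ₀ p₂ = X.ν g := by rw [hp₂, hΘN, mul_one]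
  have e₃ : Θ₀ p₃ = h' * X.ν g := by rw [c3, hΘE, q1, hEh]
  have e₄ : Θ₀ p₄ = h' * F₀ := by
    rw [c4, hform, hEhF, X.ν_mul', add_neg_cancel, X.ν_zero, one_mul, hF₀, hEkF]
  have e₅ : Θ₀ p₅ = k' * F₀ := by
    rw [c5, hform, hF₀]; group
  have e₆ : Θ₀ p₆ = k' * E (θ x) := by
    rw [c6, hform, hEkf, X.ν_mul', add_neg_cancel, X.ν_zero, one_mul, hEf]
  have hnd6 : [p₁, p₂, p₃, p₄, p₅, p₆].Nodup := by
    have : ([p₁, p₂, p₃, p₄, p₅, p₆].map X.π).Nodup := by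
      simp only [List.map_cons, List.map_nil, π₁, π₂, π₃, π₄, π₅, π₆]
      simp only [List.nodup_cons, List.mem_cons, List.not_mem_nil, or_false, not_or,
        List.nodup_nil, and_true, not_false_eq_true]
      exact ⟨⟨Ne.symm h1x, hxu, hxh, hxw, hxk⟩, ⟨h1u, h1h, h1w, h1k⟩, ⟨huh, huw, huk⟩, ⟨hhw, hhk⟩, hwk⟩
    exact List.Nodup.of_map _ this
  obtain ⟨s1, s2, s3, s4, s5, s6, s7⟩ := six_sigma hnd6
  obtain ⟨τ, t1, t3, t5, t2, t6, t4, t7⟩ := six_tau hnd6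
  obtain ⟨σ, hσ⟩ : ∃ σ : Perm G, σ = swap p₁ p₂ * swap p₃ p₄ * swap p₅ p₆ := ⟨_, rfl⟩
  rw [← hσ] at s1 s2 s3 s4 s5 s6 s7
  have one₁ : (1 : G) ≠ p₁ := ne_of_π (by rw [π₁, map_one]; exact h1x)
  have one₂ : (1 : G) ≠ p₂ := fun h0 => one_ne_zero (X.ν_eq_one (hp₂.symm.trans h0.symm))
  have one₃ : (1 : G) ≠ p₃ := ne_of_π (by rw [π₃, map_one]; exact h1u)
  have one₄ : (1 : G) ≠ p₄ := ne_of_π (by rw [π₄, map_one]; exact h1h)
  have one₅ : (1 : G) ≠ p₅ := ne_of_π (by rw [π₅, map_one]; exact h1w)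
  have one₆ : (1 : G) ≠ p₆ := ne_of_π (by rw [π₆, map_one]; exact h1k)
  have hOrth : Orth (Θ₀ * σ) := by
    apply orth_trade Θ₀ σ τ hΘ₀
    · rw [s7 1 one₁ one₂ one₃ one₄ one₅ one₆]; exact hΘ₀.1
    · intro y
      by_cases y1 : y = p₁
      · rw [y1, s1, t1, e₂, e₃, hp₃, hp₁]; group
      by_cases y2 : y = p₂
      · rw [y2, s2, t2, e₁, e₆, hp₆, hp₂]; group
      by_cases y3 : y = p₃
      · rw [y3, s3, t3, e₄, e₅, hp₃, hp₅]; group
      by_cases y4 : y = p₄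
      · rw [y4, s4, t4, e₃, e₂, hp₄, hp₂]; group
      by_cases y5 : y = p₅
      · rw [y5, s5, t5, e₆, e₁, hp₅, hp₁]; group
      by_cases y6 : y = p₆
      · rw [y6, s6, t6, e₅, e₄, hp₆, hp₄]; group
      rw [s7 y y1 y2 y3 y4 y5 y6, t7 y y1 y2 y3 y4 y5 y6]
  -- cycles
  have hΘσ : Θ₀ * σ = (Θ₀ * swap p₁ p₂) * swap p₃ p₄ * swap p₅ p₆ := by
    rw [hσ, mul_assoc, mul_assoc, mul_assoc]
  have m0 : ¬ Θ₀.SameCycle p₁ p₂ := by
    intro hs
    refine not_sameCycle_of_inv Θ₀ {y | X.π y = 1} ?_ (a := p₂) (b := p₁) π₂ ?_ hs.symm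
    · intro y hy
      obtain ⟨n, rfl⟩ := (X.π_ker y).1 hy
      rw [hΘN]
      exact X.π_ν _
    · intro hy
      exact h1x (π₁.symm.trans hy).symm
  have hcls : ∀ (n : F) (q : Q), n ≠ 0 → q ≠ 1 → (X.ν n * E q ≠ p₁ ∧ X.ν n * E q ≠ p₂) := by
    intro n q hn hq
    constructor
    · intro h0
      have h2 : X.ν n * E q = X.ν 0 * E x := by rw [h0, X.ν_zero, one_mul, hp₁]
      exact hn (X.coord_inj hEπ h2).1
    · apply ne_of_π
      rw [π₂, map_mul, X.π_ν, hEπ, one_mul]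
      exact hq
  have hstep : ∀ (t : ℤ) (n : F) (q : Q), n ≠ 0 → q ≠ 1 → quadraticChar F n * e q = t →
      ∃ (n' : F) (q' : Q), n' ≠ 0 ∧ q' ≠ 1 ∧ quadraticChar F n' * e q' = t ∧
        Θ₀ (X.ν n * E q) = X.ν n' * E q' := by
    intro t n q hn hq ht
    refine ⟨c q * n, θ q, mul_ne_zero (hc0 q) hn, ?_, ?_, hform n q⟩
    · intro h0
      exact hq (inj (h0.trans hθ1.symm))
    · rw [he2 q hq, map_mul]
      have h2 : quadraticChar F (c q) * quadraticChar F (c q) = 1 := by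
        have := quadraticChar_sq_one (hc0 q)
        rwa [sq] at this
      calc quadraticChar F (c q) * quadraticChar F n * (quadraticChar F (c q) * e q)
          = (quadraticChar F (c q) * quadraticChar F (c q)) * (quadraticChar F n * e q) := by ring
        _ = t := by rw [h2, one_mul, ht]
  obtain ⟨m1, m1'⟩ := sameCycle_mul_swap Θ₀ p₁ p₂ m0
  have m2 : ¬ (Θ₀ * swap p₁ p₂).SameCycle p₄ p₃ := by
    refine not_sameCycle_of_inv _ {y | ∃ n q, n ≠ 0 ∧ q ≠ 1 ∧ quadraticChar F n * e q = s ∧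
      y = X.ν n * E q} ?_ ?_ ?_
    · rintro y ⟨n, q, hn, hq, hcl, rfl⟩
      obtain ⟨n', q', hn', hq', hcl', h2⟩ := hstep s n q hn hq hcl
      obtain ⟨y1, y2⟩ := hcls n q hn hq
      exact ⟨n', q', hn', hq', hcl', by rw [Perm.mul_apply, swap_apply_of_ne_of_ne y1 y2, h2]⟩
    · exact ⟨γ, h, hγ0, Ne.symm h1h, hs.symm, c4⟩
    · rintro ⟨n, q, hn, hq, -, h0⟩
      have h2 : X.ν 0 * E u = X.ν n * E q := by rw [← h0, X.ν_zero, one_mul, c3]
      exact hn (X.coord_inj hEπ h2).1.symm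
  obtain ⟨m3, m3'⟩ := sameCycle_mul_swap (Θ₀ * swap p₁ p₂) p₃ p₄ (fun h0 => m2 h0.symm)
  have m4 : ¬ ((Θ₀ * swap p₁ p₂) * swap p₃ p₄).SameCycle p₆ p₅ := by
    refine not_sameCycle_of_inv _ {y | ∃ n q, n ≠ 0 ∧ q ≠ 1 ∧ quadraticChar F n * e q = -s ∧
      y = X.ν n * E q} ?_ ?_ ?_
    · rintro y ⟨n, q, hn, hq, hcl, rfl⟩
      obtain ⟨n', q', hn', hq', hcl', h2⟩ := hstep (-s) n q hn hq hcl
      obtain ⟨y1, y2⟩ := hcls n q hn hq
      have y3 : X.ν n * E q ≠ p₃ := by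
        intro h0
        have h3 : X.ν n * E q = X.ν 0 * E u := by rw [h0, X.ν_zero, one_mul, c3]
        exact hn (X.coord_inj hEπ h3).1
      have y4 : X.ν n * E q ≠ p₄ := by
        intro h0
        rw [c4] at h0
        obtain ⟨h3, h4⟩ := X.coord_inj hEπ h0
        rw [h3, h4, ← hs] at hcl
        apply hs0
        linarith
      exact ⟨n', q', hn', hq', hcl', by
        rw [Perm.mul_apply, Perm.mul_apply, swap_apply_of_ne_of_ne y3 y4,
          swap_apply_of_ne_of_ne y1 y2, h2]⟩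
    · exact ⟨ε, k, hε0, Ne.symm h1k, hεc, c6⟩
    · rintro ⟨n, q, hn, hq, hcl, h0⟩
      rw [c5] at h0
      obtain ⟨h3, h4⟩ := X.coord_inj hEπ h0
      rw [← h3, ← h4, hδc] at hcl
      apply hs0
      linarith
  obtain ⟨m5, m5'⟩ := sameCycle_mul_swap ((Θ₀ * swap p₁ p₂) * swap p₃ p₄) p₅ p₆
    (fun h0 => m4 h0.symm)
  rw [← hΘσ] at m5 m5'
  have up : ∀ y y', Θ₀.SameCycle y y' → (Θ₀ * σ).SameCycle y y' :=
    fun y y' h0 => m5 _ _ (m3 _ _ (m1 _ _ h0))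
  have j12 : (Θ₀ * σ).SameCycle p₁ p₂ := m5 _ _ (m3 _ _ m1')
  have j34 : (Θ₀ * σ).SameCycle p₃ p₄ := m5 _ _ m3'
  have j13 : (Θ₀ * σ).SameCycle p₁ p₃ := by
    rw [hp₁, c3]
    exact up _ _ (lift_cyc_E θ hc Θ₀ E hΘE x u (Ne.symm h1x) (Ne.symm h1u))
  have j14 := j13.trans j34
  have j45 : (Θ₀ * σ).SameCycle p₄ p₅ := by
    rw [c4, c5]
    exact up _ _ (he3 G X E Θ₀ hform γ δ h w hγ0 hδ0 (Ne.symm h1h) (Ne.symm h1w)
      (by rw [hδc, hs]))
  have j16 := (j14.trans j45).trans m5'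
  have hall : ∀ y, y ≠ 1 → (Θ₀ * σ).SameCycle p₁ y := by
    intro y hy
    obtain ⟨n, hn⟩ := X.exists_coord hEπ y
    by_cases hq : X.π y = 1
    · rw [hq, hE1, mul_one] at hn
      have hn0 : n ≠ 0 := by
        rintro rfl
        rw [X.ν_zero] at hn
        exact hy hn
      refine j12.trans (up _ _ ?_)
      rw [hn, hp₂]
      exact lift_cyc_N X Θ₀ g hg hΘN 1 n one_ne_zero hn0
    · by_cases hn0 : n = 0
      · rw [hn0, X.ν_zero, one_mul] at hn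
        apply up
        rw [hn, hp₁]
        exact lift_cyc_E θ hc Θ₀ E hΘE x (X.π y) (Ne.symm h1x) hq
      · have hcl : quadraticChar F n * e (X.π y) = s ∨ quadraticChar F n * e (X.π y) = -s := by
          rcases quadraticChar_dichotomy hn0 with h0 | h0 <;>
            rcases he1 (X.π y) with h2 | h2 <;> rcases hs1 with h3 | h3 <;>
            rw [h0, h2, h3] <;> norm_num
        rcases hcl with h0 | h0
        · refine j14.trans (up _ _ ?_)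
          rw [hn, c4]
          exact he3 G X E Θ₀ hform γ n h (X.π y) hγ0 hn0 (Ne.symm h1h) hq (by rw [h0, hs])
        · refine j16.trans (up _ _ ?_)
          rw [hn, c6]
          exact he3 G X E Θ₀ hform ε n k (X.π y) hε0 hn0 (Ne.symm h1k) hq (by rw [h0, hεc])
  have hcyc : OneCyc (Θ₀ * σ) := fun y y' hy hy' => (hall y hy).symm.trans (hall y' hy')
  have hoff : ∀ y, y ≠ p₁ → y ≠ p₂ → y ≠ p₃ → y ≠ p₄ → y ≠ p₅ → y ≠ p₆ →
      (Θ₀ * σ) y = Θ₀ y := by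
    intro y y1 y2 y3 y4 y5 y6
    rw [Perm.mul_apply, s7 y y1 y2 y3 y4 y5 y6]
  -- pattern
  have hβ0 : ∀ (a : G) (n : F), n ≠ 0 → X.β a n ≠ 0 := fun a n hn h0 =>
    hn ((X.β a).map_eq_zero_iff.1 h0)
  obtain ⟨x', hx'⟩ : ∃ x' : G, x' = X.ν (-1) * E x := ⟨_, rfl⟩
  have πx' : X.π x' = x := by rw [hx', map_mul, X.π_ν, one_mul, hEπ]
  have hhx' : h' * x' = X.ν (-(X.β h' 1)) * p₃ := by rw [hx', X.mul_ν', map_neg, hp₃]
  have hkx' : k' * x' = X.ν (-(X.β k' 1)) * p₅ := by rw [hx', X.mul_ν', map_neg, hp₅]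
  have πhx' : X.π (h' * x') = u := by rw [map_mul, hh', πx', hu]
  have πkx' : X.π (k' * x') = w := by rw [map_mul, hk', πx', hw]
  have ν_ne : ∀ (n : F) (a : G), n ≠ 0 → X.ν n * a ≠ a := by
    intro n a hn h0
    exact hn (X.ν_eq_one (mul_eq_right.1 h0))
  have v1 : (Θ₀ * σ) x' = X.ν 1 * E (θ x) := by
    rw [hoff]
    · rw [hx', hform, hcx]; congr 2; ring
    · rw [hx', hp₁]; exact ν_ne _ _ (neg_ne_zero.2 one_ne_zero)
    · exact ne_of_π (by rw [πx', π₂]; exact Ne.symm h1x)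
    · exact ne_of_π (by rw [πx', π₃]; exact hxu)
    · exact ne_of_π (by rw [πx', π₄]; exact hxh)
    · exact ne_of_π (by rw [πx', π₅]; exact hxw)
    · exact ne_of_π (by rw [πx', π₆]; exact hxk)
  have v2 : (Θ₀ * σ) (h' * x') = h' := by
    rw [hoff]
    · have h3 : X.ν (-(X.β h' 1)) * E u = X.ν (-(X.β h' 1)) * E u := rfl
      rw [hhx', c3, hform, q1, hEh, mul_neg, hcu, ← map_neg, ← mul_assoc, ← X.mul_ν, mul_assoc,
        X.ν_mul, neg_add_cancel, X.ν_zero, mul_one]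
    · exact ne_of_π (by rw [πhx', π₁]; exact Ne.symm hxu)
    · exact ne_of_π (by rw [πhx', π₂]; exact Ne.symm h1u)
    · rw [hhx']; exact ν_ne _ _ (neg_ne_zero.2 (hβ0 _ _ one_ne_zero))
    · exact ne_of_π (by rw [πhx', π₄]; exact huh)
    · exact ne_of_π (by rw [πhx', π₅]; exact huw)
    · exact ne_of_π (by rw [πhx', π₆]; exact huk)
  have hh'E : h' = X.ν (-(X.β h' g)) * E h := by
    rw [hEh, ← mul_assoc, ← map_neg, ← X.mul_ν, mul_assoc, X.ν_mul, neg_add_cancel, X.ν_zero,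
      mul_one]
  have v3' : (Θ₀ * σ) h' = X.ν (X.β h' g) * E (θ h) := by
    rw [hoff]
    · conv_lhs => rw [hh'E]
      rw [hform, hch]; congr 2; ring
    · exact ne_of_π (by rw [hh', π₁]; exact Ne.symm hxh)
    · exact ne_of_π (by rw [hh', π₂]; exact Ne.symm h1h)
    · exact ne_of_π (by rw [hh', π₃]; exact Ne.symm huh)
    · intro h0
      have h2 : h' * 1 = h' * X.ν 1 := by rw [mul_one, ← hp₄]; exact h0
      exact one_ne_zero (X.ν_eq_one (mul_left_cancel h2).symm)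
    · exact ne_of_π (by rw [hh', π₅]; exact hhw)
    · exact ne_of_π (by rw [hh', π₆]; exact hhk)
  have v3 : (Θ₀ * σ) h' = h' * (X.ν 1 * F₀) := by
    have h2 : h' * F₀ = X.ν (c h * γ) * E (θ h) := by rw [← e₄, c4, hform]
    rw [v3', X.mul_ν', h2, X.ν_mul', hch, hγ]
    congr 2
    rw [map_sub]; ring
  have v4 : (Θ₀ * σ) (k' * x') = k' * (X.ν 1 * F₀) := by
    have h2 : k' * F₀ = X.ν (c w * δ) * E (θ w) := by rw [← e₅, c5, hform]
    rw [hoff]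
    · rw [X.mul_ν', h2, X.ν_mul', hkx', c5, X.ν_mul', hform, hcw]
      congr 2; ring
    · exact ne_of_π (by rw [πkx', π₁]; exact Ne.symm hxw)
    · exact ne_of_π (by rw [πkx', π₂]; exact Ne.symm h1w)
    · exact ne_of_π (by rw [πkx', π₃]; exact Ne.symm huw)
    · exact ne_of_π (by rw [πkx', π₄]; exact Ne.symm hhw)
    · rw [hkx']; exact ν_ne _ _ (neg_ne_zero.2 (hβ0 _ _ one_ne_zero))
    · exact ne_of_π (by rw [πkx', π₆]; exact hwk)
  have v5 : (Θ₀ * σ) k' = k' * (X.ν 1 * E (θ x)) := by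
    have h2 : k' * E (θ x) = X.ν (c k * ε) * E (θ k) := by rw [← e₆, c6, hform]
    have h3 : k' = X.ν (-(X.β k' 1)) * p₆ := by
      rw [hp₆, ← mul_assoc, ← map_neg, ← X.mul_ν, mul_assoc, X.ν_mul, neg_add_cancel, X.ν_zero,
        mul_one]
    rw [hoff]
    · rw [X.mul_ν', h2, X.ν_mul']
      conv_lhs => rw [h3]
      rw [c6, X.ν_mul', hform, hck]
      congr 2; ring
    · exact ne_of_π (by rw [hk', π₁]; exact Ne.symm hxk)
    · exact ne_of_π (by rw [hk', π₂]; exact Ne.symm h1k)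
    · exact ne_of_π (by rw [hk', π₃]; exact Ne.symm huk)
    · exact ne_of_π (by rw [hk', π₄]; exact Ne.symm hhk)
    · exact ne_of_π (by rw [hk', π₅]; exact Ne.symm hwk)
    · intro h0
      have h2 : k' * 1 = k' * X.ν 1 := by rw [mul_one, ← hp₆]; exact h0
      exact one_ne_zero (X.ν_eq_one (mul_left_cancel h2).symm)
  have πv1 : X.π ((Θ₀ * σ) x') = θ x := by rw [v1, map_mul, X.π_ν, one_mul, hEπ]
  have πv3 : X.π ((Θ₀ * σ) h') = θ h := by rw [v3', map_mul, X.π_ν, one_mul, hEπ]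
  have πF₀ : X.π F₀ = h⁻¹ * θ h := by
    have := congrArg X.π v3
    rw [πv3, map_mul, map_mul, X.π_ν, one_mul, hh'] at this
    rw [this]; group
  have πv4 : X.π ((Θ₀ * σ) (k' * x')) = θ w := by
    rw [v4, map_mul, map_mul, X.π_ν, one_mul, hk', πF₀, q3]
  have πv5 : X.π ((Θ₀ * σ) k') = θ k := by
    rw [v5, map_mul, map_mul, X.π_ν, one_mul, hk', hEπ, q2]
  refine ⟨Θ₀ * σ, x', h', k', hOrth, hcyc, v2, ?_, ?_, ?_, ?_, ?_, ?_, ?_, ?_, ?_, ?_, ?_, ?_, ?_,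
    ?_⟩
  · rw [v5, v1]
  · rw [v4, v3]; group
  · have hnd : ([1, x', h' * x', h', k' * x', k'].map X.π).Nodup := by
      simp only [List.map_cons, List.map_nil, map_one, πx', hh', πhx', πkx', hk']
      simp only [List.nodup_cons, List.mem_cons, List.not_mem_nil, or_false, not_or,
        List.nodup_nil, and_true, not_false_eq_true]
      exact ⟨⟨h1x, h1u, h1h, h1w, h1k⟩, ⟨hxu, hxh, hxw, hxk⟩, ⟨huh, huw, huk⟩, ⟨hhw, hhk⟩, hwk⟩
    exact List.Nodup.of_map _ hnd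
  · exact ne_of_π (by rw [πv3, πhx']; exact a1)
  · exact ne_of_π (by rw [πv3, hk']; exact a2)
  · exact ne_of_π (by rw [πv3, πx']; exact a3)
  · exact ne_of_π (by rw [πv5, πhx']; exact a4)
  · exact ne_of_π (by rw [πv5, πx']; exact a5)
  · exact ne_of_π (by rw [πv1, πhx']; exact a6)
  · exact ne_of_π (by rw [πv1, πkx']; exact a7)
  · exact ne_of_π (by rw [πv1, hk']; exact a8)
  · exact ne_of_π (by rw [πv4, πhx']; exact a9)
  · exact ne_of_π (by rw [πv4, hk']; exact a10)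
  · intro h0
    exfalso
    have h2 := congrArg X.π h0
    rw [πv3, πkx'] at h2
    rw [v3', hkx', c5, X.ν_mul', h2] at h0
    have h3 := (X.coord_inj hEπ h0).1
    apply hδ2
    rw [h3]; ring

end LibRS
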