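import Pool.Agent.LibRS.T21
import Pool.Agent.LibRS.T22

set_option autoImplicit false

namespace LibRS
open Equiv

section stubs

end stubs

theorem Ext.β_mul {F G Q : Type} [Field F] [Group G] [Group Q] (X : Ext F G Q) (a b : G) (n : F) :
    X.β (a * b) n = X.β a (X.β b n) := by
  have h1 : a * b * X.ν n = X.ν (X.β (a * b) n) * (a * b) := X.β_spec _ _
  have h2 : a * b * X.ν n = X.ν (X.β a (X.β b n)) * (a * b) := by
    rw [mul_assoc, X.β_spec, ← mul_assoc, X.β_spec, mul_assoc]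
  exact X.ν_inj (mul_right_cancel (h1.symm.trans h2))

theorem Ext.β_one {F G Q : Type} [Field F] [Group G] [Group Q] (X : Ext F G Q) (n : F) :
    X.β 1 n = n := by
  have h1 : 1 * X.ν n = X.ν (X.β 1 n) * 1 := X.β_spec _ _
  rw [one_mul, mul_one] at h1
  exact (X.ν_inj h1).symm

theorem ext_R3 {F G Q : Type} [Field F] [Fintype F] [Group G] [Finite G] [Group Q] [Finite Q]
    (X : Ext F G Q) (hchar : ringChar F ≠ 2) (hG : Odd (Nat.card G)) (hQ : R3 Q) : R3 G := by
  classical
  haveI : Fintype Q := Fintype.ofFinite Q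
  obtain ⟨θ, x, h, k, hθ, hc, hp⟩ := hQ
  have hp' := hp
  obtain ⟨q1, q2, q3, nd, a1, a2, a3, a4, a5, a6, a7, a8, a9, a10, a11⟩ := hp'
  have hθ1 : θ 1 = 1 := hθ.1
  simp only [List.nodup_cons, List.mem_cons, List.not_mem_nil, or_false, not_or,
    List.nodup_nil, and_true, not_false_eq_true] at nd
  obtain ⟨⟨h1x, h1u, h1h, h1w, h1k⟩, ⟨hxu, hxh, hxw, hxk⟩, ⟨huh, huw, huk⟩, ⟨hhw, hhk⟩, hwk⟩ := nd
  have inj := θ.injective
  have hne : ∀ y, y ≠ 1 → θ y ≠ y := by
    intro y hy h0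
    apply hy
    apply hθ.2
    simp [h0, hθ1]
  have f1 : θ x ≠ 1 := fun h0 => h1x (inj (hθ1.trans h0.symm))
  have kf1 : θ k ≠ 1 := fun h0 => h1k (inj (hθ1.trans h0.symm))
  have b1 : θ k ≠ k * x := by
    intro h0
    rw [q2] at h0
    exact hne x (Ne.symm h1x) (mul_left_cancel h0)
  have b2 : θ k ≠ h := fun h0 => huk (inj (q1.trans h0.symm))
  have b3 : θ k ≠ k := hne k (Ne.symm h1k)
  have b6 : θ x ≠ h := fun h0 => hxu (inj (h0.trans q1.symm))
  have b7 : θ x ≠ θ k := fun h0 => hxk (inj h0)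
  have b13 : θ x ≠ x := hne x (Ne.symm h1x)
  obtain ⟨g, hg⟩ := exists_prim F
  obtain ⟨h₀, hh₀⟩ := X.π_surj h
  obtain ⟨k', hk'⟩ := X.π_surj k
  -- card F ≥ 3
  have two0 : (2 : F) ≠ 0 := Ring.two_ne_zero hchar
  have hm1 : (-1 : F) ≠ 1 := by
    intro h0
    apply two0
    linear_combination -h0
  have hcard3 : 3 ≤ Fintype.card F := by
    have h5 : ({0, 1, -1} : Finset F).card = 3 := by
      rw [Finset.card_eq_three]
      exact ⟨0, 1, -1, zero_ne_one, by simp, hm1.symm, rfl⟩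
    calc 3 = ({0, 1, -1} : Finset F).card := h5.symm
      _ ≤ Fintype.card F := Finset.card_le_univ _
  have hg1 : g ≠ 1 := by
    rintro rfl
    have := hg.card_le (m := 1) one_pos (by simp)
    omega
  have hβ0 : ∀ n : F, n ≠ 0 → X.β h₀ n ≠ 0 := fun n hn h0 =>
    hn ((X.β h₀).map_eq_zero_iff.1 h0)
  have hβ1 := hβ0 1 one_ne_zero
  have hu0 : X.β h₀ g / X.β h₀ 1 ≠ 0 := div_ne_zero (hβ0 g hg.1) hβ1
  have hu1 : X.β h₀ g / X.β h₀ 1 ≠ 1 := by
    rw [Ne, div_eq_one_iff_eq hβ1]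
    exact fun h0 => hg1 ((X.β h₀).injective h0)
  obtain ⟨c₀, hc₀⟩ : ∃ c₀ : Q → F, c₀ = fun y => if y = 1 then g else
      if y = h * x then X.β h₀ g / X.β h₀ 1 else -1 := ⟨_, rfl⟩
  have c₀0 : ∀ y, c₀ y ≠ 0 := by
    intro y; rw [hc₀]; dsimp only; split_ifs
    · exact hg.1
    · exact hu0
    · exact neg_ne_zero.2 one_ne_zero
  have c₀1 : ∀ y, c₀ y ≠ 1 := by
    intro y; rw [hc₀]; dsimp only; split_ifs
    · exact hg1
    · exact hu1
    · exact hm1
  -- the two cases
  by_cases h4 : 4 ≤ Fintype.card F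
  · obtain ⟨c, hc0, hc1, hcc, hprod⟩ := exists_scalars h4 c₀ c₀0 c₀1 (Finset.univ.erase (1 : Q))
      (θ x) (θ k) (by simp [f1]) (by simp [kf1]) b7 (g ^ 2) (pow_ne_zero 2 hg.1)
    refine ext_core3 X hchar θ x h k hθ hc hp g hg h₀ k' hh₀ hk' c hc0 hc1 ?_ ?_ ?_ ?_ ?_ ?_ ?_
      hprod
    · rw [hcc 1 (Ne.symm f1) (Ne.symm kf1), hc₀]; simp
    · rw [hcc x (Ne.symm b13) (Ne.symm a5), hc₀]; simp [Ne.symm h1x, hxu]
    · rw [hcc h (Ne.symm b6) (Ne.symm b2), hc₀]
      dsimp only
      rw [if_neg (Ne.symm h1h), if_neg (Ne.symm huh)]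
    · rw [hcc k (Ne.symm a8) (Ne.symm b3), hc₀]
      dsimp only
      rw [if_neg (Ne.symm h1k), if_neg (Ne.symm huk)]
    · rw [hcc (k * x) (Ne.symm a7) (Ne.symm b1), hc₀]
      dsimp only
      rw [if_neg (Ne.symm h1w), if_neg (Ne.symm huw)]
    · rw [hcc (h * x) (Ne.symm a6) (Ne.symm a4), hc₀]
      dsimp only
      rw [if_neg (Ne.symm h1u), if_pos rfl, div_mul_cancel₀ _ hβ1]
    · intro s hs
      have hg2 : g ^ 2 ≠ 1 := by
        intro h0
        have := hg.card_le (m := 2) two_pos h0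
        omega
      obtain ⟨δ₀, hδ₀⟩ : ∃ δ₀ : F, quadraticChar F δ₀ = s := by
        rcases hs with rfl | rfl
        · exact ⟨1, by simp⟩
        · exact quadraticChar_exists_neg_one hchar
      have hδ0 : δ₀ ≠ 0 := by
        rintro rfl
        rw [quadraticChar_zero] at hδ₀
        rcases hs with rfl | rfl <;> norm_num at hδ₀
      by_cases h5 : δ₀ = X.β h₀ g + X.β k' 1
      · refine ⟨δ₀ * g ^ 2, ?_, ?_⟩
        · rw [map_mul, quadraticChar_sq_one' hg.1, mul_one, hδ₀]
        · rw [← h5]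
          intro h6
          exact hg2 (mul_left_cancel₀ hδ0 (by rw [h6, mul_one]))
      · exact ⟨δ₀, hδ₀, h5⟩
  · have hF3 : Fintype.card F = 3 := by omega
    have hall : ∀ a : F, a = 0 ∨ a = 1 ∨ a = -1 := by
      intro a
      by_contra hcon
      push_neg at hcon
      have h5 : ({a, 0, 1, -1} : Finset F).card = 4 := by
        rw [Finset.card_insert_of_notMem (by simp [hcon.1, hcon.2.1, hcon.2.2]),
          Finset.card_eq_three.2 ⟨0, 1, -1, zero_ne_one, by simp, hm1.symm, rfl⟩]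
      have h6 : ({a, 0, 1, -1} : Finset F).card ≤ Fintype.card F := Finset.card_le_univ _
      omega
    have hgm : g = -1 := by
      rcases hall g with h0 | h0 | h0
      · exact absurd h0 hg.1
      · exact absurd h0 hg1
      · exact h0
    -- β is trivial
    have hβtriv : ∀ a : G, X.β a 1 = 1 := by
      intro a
      rcases hall (X.β a 1) with h0 | h0 | h0
      · exact absurd ((X.β a).map_eq_zero_iff.1 h0) one_ne_zero
      · exact h0
      · exfalso
        have hpow : ∀ n : ℕ, X.β (a ^ n) 1 = (-1) ^ n := by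
          intro n
          induction n with
          | zero => rw [pow_zero, X.β_one, pow_zero]
          | succ n ih =>
            rw [pow_succ', X.β_mul, ih]
            rcases neg_one_pow_eq_or F n with h7 | h7
            · rw [h7, h0, pow_succ, h7, one_mul]
            · rw [h7, map_neg, h0, pow_succ, h7]; ring
        have h8 := hpow (Nat.card G)
        rw [pow_card_eq_one', X.β_one, hG.neg_one_pow] at h8
        exact hm1 h8.symm
    have hcard : Odd (Fintype.card Q) := by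
      rw [← Nat.card_eq_fintype_card]
      have hdvd : Nat.card Q ∣ Nat.card G := Subgroup.card_dvd_of_surjective X.π X.π_surj
      exact Odd.of_dvd_nat hG hdvd
    have hc₀' : ∀ y, y ≠ 1 → c₀ y = -1 := by
      intro y hy
      rw [hc₀]
      dsimp only
      rw [if_neg hy]
      split_ifs
      · rw [hgm, map_neg, hβtriv]; norm_num
      · rfl
    refine ext_core3 X hchar θ x h k hθ hc hp g hg h₀ k' hh₀ hk' c₀ c₀0 c₀1 (by rw [hc₀]; simp)
      (hc₀' x (Ne.symm h1x)) (hc₀' h (Ne.symm h1h)) (hc₀' k (Ne.symm h1k))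
      (hc₀' _ (Ne.symm h1w)) ?_ ?_ ?_
    · rw [hc₀' _ (Ne.symm h1u), hgm, map_neg]; ring
    · intro s hs
      rw [hgm, map_neg, hβtriv, hβtriv]
      rcases hs with rfl | rfl
      · exact ⟨1, by simp, by simp⟩
      · refine ⟨-1, ?_, by simp⟩
        obtain ⟨δ, hδ⟩ := quadraticChar_exists_neg_one hchar
        rcases hall δ with h0 | h0 | h0
        · rw [h0, quadraticChar_zero] at hδ; norm_num at hδ
        · rw [h0, map_one] at hδ; norm_num at hδ
        · rw [← h0]; exact hδ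
    · rw [Finset.prod_congr rfl (fun y hy => hc₀' y (Finset.ne_of_mem_erase hy)),
        Finset.prod_const, Finset.card_erase_of_mem (Finset.mem_univ _), Finset.card_univ, hgm]
      have heven : Even (Fintype.card Q - 1) := by
        obtain ⟨m, hm⟩ := hcard
        exact ⟨m, by omega⟩
      rw [heven.neg_one_pow]; norm_num

end LibRS
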