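import Pool.Agent.LibRS.T01
import Pool.Agent.LibRS.T09
import Pool.Agent.LibRS.T10
import Pool.Agent.LibRS.T11
import Pool.Agent.LibRS.T12
import Pool.Agent.LibRS.T13
import Pool.Agent.LibRS.T14
import Pool.Agent.LibRS.T15
import Pool.Agent.LibRS.T16
import Pool.Agent.LibRS.T17
import Pool.Agent.LibRS.T18
import Pool.Agent.LibRS.T19
import Pool.Agent.LibRS.T23

set_option autoImplicit false

namespace LibRS
open Equiv

section stubs

end stubs

/-- the embedding `ν` as a homomorphism -/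
def Ext.νhom {F G Q : Type} [Field F] [Group G] [Group Q] (X : Ext F G Q) :
    Multiplicative F →* G where
  toFun n := X.ν (Multiplicative.toAdd n)
  map_one' := X.ν_zero
  map_mul' a b := X.ν_add _ _

theorem Ext.νhom_inj {F G Q : Type} [Field F] [Group G] [Group Q] (X : Ext F G Q) :
    Function.Injective X.νhom := fun _ _ h => Multiplicative.toAdd.injective (X.ν_inj h)

theorem inherit {F G Q : Type} [Field F] [Fintype F] [Group G] [Finite G] [Group Q] [Finite Q]
    (X : Ext F G Q)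
    (H : ∀ (ζ : Perm (Multiplicative F)), Orth ζ → OneCyc ζ → ∀ s : F, s ≠ 0 →
      ∃ Θ : Perm G, Orth Θ ∧ OneCyc Θ ∧ ∀ n, n ≠ s → Θ (X.ν n) =
      X.ν (Multiplicative.toAdd (ζ (Multiplicative.ofAdd n)))) :
    (R2 (Multiplicative F) → R2 G) ∧ (R3 (Multiplicative F) → R3 G) := by
  constructor
  · rintro ⟨ζ, x, h, hζ, hζc, hp⟩
    have hp' := hp
    obtain ⟨hp1, hp2, hp3⟩ := hp'
    simp only [List.nodup_cons, List.mem_cons, List.not_mem_nil, or_false, not_or,
      List.nodup_nil, and_true, not_false_eq_true] at hp3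
    obtain ⟨⟨h1x, h1u, h1h, h1f, h1hf⟩, ⟨hxu, hxh, hxf, hxhf⟩, ⟨huh, huf, huhf⟩, ⟨hhf, hhhf⟩, hfhf⟩ := hp3
    obtain ⟨Θ, h1, h2, h3⟩ := H ζ hζ hζc (Multiplicative.toAdd (ζ x))
      (fun h0 => h1f (Multiplicative.toAdd.injective h0).symm)
    refine ⟨Θ, X.νhom x, X.νhom h, h1, h2, ?_⟩
    refine pat2_of_subgroup X.νhom X.νhom_inj ζ Θ (ζ x) ?_ x h hp (Ne.symm hxf) (Ne.symm hhf)
      (Ne.symm huf)
    intro m hm
    exact h3 _ (fun h0 => hm (Multiplicative.toAdd.injective h0))
  · rintro ⟨ζ, x, h, k, hζ, hζc, hp⟩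
    have hp' := hp
    obtain ⟨q1, q2, q3, nd, a1, a2, a3, a4, a5, a6, a7, a8, a9, a10, a11⟩ := hp'
    have hθ1 : ζ 1 = 1 := hζ.1
    simp only [List.nodup_cons, List.mem_cons, List.not_mem_nil, or_false, not_or,
      List.nodup_nil, and_true, not_false_eq_true] at nd
    obtain ⟨⟨h1x, h1u, h1h, h1w, h1k⟩, ⟨hxu, hxh, hxw, hxk⟩, ⟨huh, huw, huk⟩, ⟨hhw, hhk⟩, hwk⟩ := nd
    have inj := ζ.injective
    have f1 : ζ x ≠ 1 := fun h0 => h1x (inj (hθ1.trans h0.symm))
    have b6 : ζ x ≠ h := fun h0 => hxu (inj (h0.trans q1.symm))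
    have b13 : ζ x ≠ x := by
      intro h0
      apply h1x
      apply hζ.2
      simp [h0, hθ1]
    obtain ⟨Θ, h1, h2, h3⟩ := H ζ hζ hζc (Multiplicative.toAdd (ζ x))
      (fun h0 => f1 (Multiplicative.toAdd.injective h0))
    refine ⟨Θ, X.νhom x, X.νhom h, X.νhom k, h1, h2, ?_⟩
    refine pat3_of_subgroup X.νhom X.νhom_inj ζ Θ (ζ x) ?_ x h k hp b13 b6 a6 a8 a7
    intro m hm
    exact h3 _ (fun h0 => hm (Multiplicative.toAdd.injective h0))

theorem R2_zmod_prime (p : ℕ) (hp : p.Prime) (h7 : 7 ≤ p) : R2 (Multiplicative (ZMod p)) := by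
  have hodd : p % 2 = 1 := (hp.eq_two_or_odd.resolve_left (by omega))
  by_cases h : p = 7
  · subst h; exact R2_zmod_seven
  have h9 : p ≠ 9 := by rintro rfl; revert hp; decide
  have : p % 4 = 1 ∨ p % 4 = 3 := by omega
  rcases this with h4 | h4
  · obtain ⟨k, rfl⟩ : ∃ k, p = 4 * k + 1 := ⟨p / 4, by omega⟩
    exact R2_zmod_one k (by omega)
  · obtain ⟨k, rfl⟩ : ∃ k, p = 4 * k + 3 := ⟨p / 4, by omega⟩
    exact R2_zmod_three k (by omega)

/-- the statement proved by induction -/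
def Good (G : Type) [Group G] : Prop :=
  (Nat.card G ≠ 1 → Nat.card G ≠ 3 → Nat.card G ≠ 5 → R2 G ∨ R3 G) ∧
  ((∃ P : Subgroup G, P.Normal ∧ IsPGroup 3 P ∧ 9 ≤ Nat.card P) → R3 G)

/-- a 3-subgroup of order ≥ 9 forces 9 ∣ |G| -/
theorem nine_dvd {G : Type} [Group G] [Finite G] {P : Subgroup G} (h3 : IsPGroup 3 P)
    (h9 : 9 ≤ Nat.card P) : 9 ∣ Nat.card G := by
  haveI : Fact (Nat.Prime 3) := ⟨Nat.prime_three⟩
  obtain ⟨n, hn⟩ := IsPGroup.iff_card.1 h3
  have h2 : 2 ≤ n := by
    by_contra hcon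
    have : n = 0 ∨ n = 1 := by omega
    rcases this with rfl | rfl <;> rw [hn] at h9 <;> norm_num at h9
  have : 9 ∣ Nat.card P := by
    rw [hn]
    exact Dvd.dvd.trans (by norm_num : 9 ∣ 3 ^ 2) (pow_dvd_pow 3 h2)
  exact this.trans (Subgroup.card_subgroup_dvd_card P)

/-- Case A of the induction: there is a nontrivial normal `r`-subgroup with `r ≠ 3`. -/
theorem caseA (n : ℕ)
    (IH : ∀ m < n, ∀ (G : Type) [Group G] [Finite G], Group.IsSolvable G → Odd (Nat.card G) →
      Nat.card G = m → Good G)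
    (G : Type) [Group G] [Finite G] (hs : Group.IsSolvable G) (hodd : Odd (Nat.card G))
    (hn : Nat.card G = n)
    (hr : ∃ (r : ℕ) (R : Subgroup G), r.Prime ∧ r ≠ 3 ∧ R.Normal ∧ R ≠ ⊥ ∧ IsPGroup r R) :
    Good G := by
  obtain ⟨r, R, hrp, hr3, hRn, hRb, hRr⟩ := hr
  obtain ⟨p, N, hp, hNn, hNb, hNR, hNab, hNexp, hNmin⟩ := exists_min_normal R hRn hRb
  haveI := hNn
  haveI : Fact r.Prime := ⟨hrp⟩
  haveI : Fact p.Prime := ⟨hp⟩
  -- p = r
  have hpr : p = r := by
    obtain ⟨a, haN, ha1⟩ := (Subgroup.ne_bot_iff_exists_ne_one.1 hNb) |> fun ⟨⟨a, ha⟩, h1⟩ =>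
      (⟨a, ha, fun h0 => h1 (Subtype.ext h0)⟩ : ∃ a, a ∈ N ∧ a ≠ 1)
    have h1 : orderOf a = p := orderOf_eq_prime (hNexp a haN) ha1
    obtain ⟨k, hk⟩ := hRr ⟨a, hNR haN⟩
    have h2 : a ^ r ^ k = 1 := by simpa using congrArg Subtype.val hk
    have h3 : p ∣ r ^ k := h1 ▸ orderOf_dvd_of_pow_eq_one h2
    exact (Nat.prime_dvd_prime_iff_eq hp hrp).1 (hp.dvd_of_dvd_pow h3)
  have hp3 : p ≠ 3 := hpr ▸ hr3
  obtain ⟨F, hF1, hF2, X, hchar, hcardF, hrange, hπ⟩ := exists_ext p hp N hNb hNab hNexp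
  haveI := hchar
  have hcardG := ext_card X
  have hoddF : Odd (Fintype.card F) := by
    rw [hcardG] at hodd
    exact Nat.Odd.of_mul_left hodd
  have hoddQ : Odd (Nat.card (G ⧸ N)) := by
    rw [hcardG] at hodd
    exact Nat.Odd.of_mul_right hodd
  have hp2 : p ≠ 2 := by
    rintro rfl
    have h2 : 2 ∣ Fintype.card F := (CharP.cast_eq_zero_iff F 2 _).1 (by
      simp [Nat.cast_card_eq_zero])
    obtain ⟨m, hm⟩ := hoddF
    omega
  have hp5 : 5 ≤ p := by
    have h2 := hp.two_le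
    have h4 : p ≠ 4 := by rintro rfl; revert hp; decide
    omega
  have hrc : ringChar F ≠ 2 := by
    rw [ringChar.eq F p]
    exact hp2
  obtain ⟨k, hk1, hk⟩ := FiniteField.card F p
  have hpF : p ∣ Fintype.card F := by
    rw [hk]
    exact dvd_pow_self p k.ne_zero
  have hF5 : 5 ≤ Fintype.card F := hp5.trans (Nat.le_of_dvd Fintype.card_pos hpF)
  have h3F : ¬ 3 ∣ Fintype.card F := by
    rw [hk]
    intro h0
    exact hp3 ((Nat.prime_dvd_prime_iff_eq Nat.prime_three hp).1
      (Nat.prime_three.dvd_of_dvd_pow h0)).symm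
  have hsQ : Group.IsSolvable (G ⧸ N) := inferInstance
  have hQpos : 0 < Nat.card (G ⧸ N) := Nat.card_pos
  have hQlt : Nat.card (G ⧸ N) < n := by
    rw [← hn, hcardG]
    nlinarith
  have hNtop : Nat.card (G ⧸ N) = 1 → N = ⊤ := by
    intro h0
    have := Subgroup.index_eq_one.1 (show N.index = 1 from h0)
    exact this
  by_cases hQ1 : Nat.card (G ⧸ N) = 1
  · -- G is elementary abelian and minimal: prime order
    have hNt := hNtop hQ1
    have hGp : IsPGroup p G := by
      intro a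
      exact ⟨1, by rw [pow_one]; exact hNexp a (hNt ▸ Subgroup.mem_top a)⟩
    have hcN := min_normal_pgroup p hp hGp N hNn hNb hNmin
    have hcG : Nat.card G = p := by
      rw [← hcN, hNt]
      exact (Subgroup.card_top).symm
    constructor
    · intro _ _ h5
      left
      have h7 : 7 ≤ p := by
        have h6 : p ≠ 6 := by rintro rfl; revert hp; decide
        have : p ≠ 5 := fun h0 => h5 (hcG.trans h0)
        omega
      obtain ⟨e⟩ := card_prime_case p hp hcG
      exact R2_of_equiv e (R2_zmod_prime p hp h7)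
    · rintro ⟨P, -, hP3, hP9⟩
      exfalso
      have := nine_dvd hP3 hP9
      rw [hcG] at this
      have h3p : 3 ∣ p := (by norm_num : 3 ∣ 9).trans this
      exact hp3 ((Nat.prime_dvd_prime_iff_eq Nat.prime_three hp).1 h3p).symm
  have hFlt : Fintype.card F < n := by
    rw [← hn, hcardG]
    have : 1 < Nat.card (G ⧸ N) := by omega
    have := Fintype.card_pos (α := F)
    nlinarith
  have hcardM : Nat.card (Multiplicative F) = Fintype.card F := by
    rw [Nat.card_congr Multiplicative.toAdd, Nat.card_eq_fintype_card]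
  have hMul : Good (Multiplicative F) := by
    refine IH _ hFlt (Multiplicative F) inferInstance ?_ hcardM
    rw [hcardM]; exact hoddF
  by_cases hQ3 : Nat.card (G ⧸ N) = 3
  · have hno9 : ¬ 9 ∣ Nat.card G := by
      intro h0
      rw [hcardG, hQ3] at h0
      apply h3F
      have : 3 * 3 ∣ 3 * Fintype.card F := by
        rw [mul_comm 3 (Fintype.card F)]; exact h0
      exact Nat.dvd_of_mul_dvd_mul_left (by norm_num) this
    constructor
    · intro _ _ _
      by_cases hF55 : Fintype.card F = 5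
      · left
        obtain ⟨e⟩ := card_fifteen (G := G) (by rw [hcardG, hQ3, hF55])
        exact R2_of_equiv e (R2_zmod_three 3 (by norm_num))
      · obtain ⟨a, ha, haN⟩ := exists_elt_prime X 3 Nat.prime_three hQ3 h3F
        obtain ⟨i2, i3⟩ := inherit X (fun ζ hζ hζc s hs0 =>
          ext_F3 X hrc hF5 hQ3 a ha haN ζ hζ hζc s hs0)
        rcases hMul.1 (by rw [hcardM]; omega) (by rw [hcardM]; omega) (by rw [hcardM]; exact hF55)
          with h0 | h0
        · exact Or.inl (i2 h0)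
        · exact Or.inr (i3 h0)
    · rintro ⟨P, -, hP3, hP9⟩
      exact absurd (nine_dvd hP3 hP9) hno9
  by_cases hQ5 : Nat.card (G ⧸ N) = 5
  · have hno9 : ¬ 9 ∣ Nat.card G := by
      intro h0
      rw [hcardG, hQ5] at h0
      have h1 : Nat.Coprime 9 5 := by norm_num
      have h2 : 9 ∣ Fintype.card F := h1.dvd_of_dvd_mul_right h0
      exact h3F ((by norm_num : 3 ∣ 9).trans h2)
    refine ⟨?_, ?_⟩
    swap
    · rintro ⟨P, -, hP3, hP9⟩
      exact absurd (nine_dvd hP3 hP9) hno9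
    intro _ _ _
    by_cases hp55 : p = 5
    · -- G is a 5-group
      haveI : Fact (Nat.Prime 5) := ⟨by norm_num⟩
      have hGp : IsPGroup 5 G := by
        rw [IsPGroup.iff_card]
        refine ⟨k + 1, ?_⟩
        rw [hcardG, hQ5, hk, hp55]; ring
      have hcN := min_normal_pgroup 5 (by norm_num) hGp N hNn hNb hNmin
      have hcG : Nat.card G = 5 ^ 2 := by
        rw [hcardG, hQ5, hcardF, hcN]; norm_num
      left
      rcases card_nine_cases 5 (by norm_num) hcG with ⟨⟨e⟩⟩ | ⟨⟨e⟩⟩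
      · exact R2_of_equiv e (R2_zmod_one 6 (by norm_num))
      · exact R2_of_equiv e R2_five_five
    · have h5F : ¬ 5 ∣ Fintype.card F := by
        rw [hk]
        intro h0
        exact hp55 ((Nat.prime_dvd_prime_iff_eq (by norm_num) hp).1
          (Nat.Prime.dvd_of_dvd_pow (by norm_num) h0)).symm
      have hF7 : 7 ≤ Fintype.card F := by
        have h6 : p ≠ 6 := by rintro rfl; revert hp; decide
        have : 7 ≤ p := by omega
        exact this.trans (Nat.le_of_dvd Fintype.card_pos hpF)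
      obtain ⟨a, ha, haN⟩ := exists_elt_prime X 5 (by norm_num) hQ5 h5F
      obtain ⟨i2, i3⟩ := inherit X (fun ζ hζ hζc s hs0 =>
        ext_F5 X hrc hF7 hQ5 a ha haN ζ hζ hζc s hs0)
      rcases hMul.1 (by rw [hcardM]; omega) (by rw [hcardM]; omega) (by rw [hcardM]; omega)
        with h0 | h0
      · exact Or.inl (i2 h0)
      · exact Or.inr (i3 h0)
  -- general case
  have hQgood : Good (G ⧸ N) := IH _ hQlt (G ⧸ N) hsQ hoddQ rfl
  constructor
  · intro _ _ _
    rcases hQgood.1 hQ1 hQ3 hQ5 with h0 | h0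
    · exact Or.inl (ext_R2 X (by omega) h0)
    · exact Or.inr (ext_R3 X hrc hodd h0)
  · rintro ⟨P, hPn, hP3, hP9⟩
    obtain ⟨z1, z2, -, z4⟩ := quot_pgroup_card P N hPn hP3
    refine ext_R3 X hrc hodd (hQgood.2 ⟨P.map (QuotientGroup.mk' N), z1, z2, ?_⟩)
    rw [z4]
    · exact hP9
    · rw [← hcardF]
      exact ((Nat.Prime.coprime_iff_not_dvd Nat.prime_three).2 h3F).symm

theorem good_all : ∀ (n : ℕ) (G : Type) [Group G] [Finite G], Group.IsSolvable G →
    Odd (Nat.card G) → Nat.card G = n → Good G := by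
  intro n
  induction n using Nat.strong_induction_on with
  | _ n IH =>
  intro G _ _ hs hodd hn
  by_cases hr : ∃ (r : ℕ) (R : Subgroup G), r.Prime ∧ r ≠ 3 ∧ R.Normal ∧ R ≠ ⊥ ∧ IsPGroup r R
  · exact caseA n IH G hs hodd hn hr
  haveI : Fact (Nat.Prime 3) := ⟨Nat.prime_three⟩
  -- B: the second claim
  have pow_cases : ∀ m : ℕ, 9 < 3 ^ m → 27 ≤ 3 ^ m := by
    intro m hm
    have : 3 ≤ m := by
      by_contra hcon
      have : m = 0 ∨ m = 1 ∨ m = 2 := by omega
      rcases this with rfl | rfl | rfl <;> norm_num at hm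
    calc 27 = 3 ^ 3 := by norm_num
      _ ≤ 3 ^ m := Nat.pow_le_pow_right (by norm_num) this
  have B27 : (∃ P : Subgroup G, P.Normal ∧ IsPGroup 3 P ∧ 27 ≤ Nat.card P) → R3 G := by
    rintro ⟨P, hPn, hP3, hP27⟩
    have hPb : P ≠ ⊥ := by
      rintro rfl
      rw [Subgroup.card_bot] at hP27
      omega
    obtain ⟨p, N, hp, hNn, hNb, hNP, hNab, hNexp, hNmin⟩ := exists_min_normal P hPn hPb
    haveI := hNn
    haveI : Fact p.Prime := ⟨hp⟩
    have hpr : p = 3 := by
      obtain ⟨a, haN, ha1⟩ := (Subgroup.ne_bot_iff_exists_ne_one.1 hNb) |> fun ⟨⟨a, ha⟩, h1⟩ =>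
        (⟨a, ha, fun h0 => h1 (Subtype.ext h0)⟩ : ∃ a, a ∈ N ∧ a ≠ 1)
      have h1 : orderOf a = p := orderOf_eq_prime (hNexp a haN) ha1
      obtain ⟨k, hk⟩ := hP3 ⟨a, hNP haN⟩
      have h2 : a ^ 3 ^ k = 1 := by simpa using congrArg Subtype.val hk
      have h3 : p ∣ 3 ^ k := h1 ▸ orderOf_dvd_of_pow_eq_one h2
      exact (Nat.prime_dvd_prime_iff_eq hp Nat.prime_three).1 (hp.dvd_of_dvd_pow h3)
    subst hpr
    obtain ⟨F, hF1, hF2, X, hchar, hcardF, hrange, hπ⟩ := exists_ext 3 hp N hNb hNab hNexp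
    haveI := hchar
    have hcardG := ext_card X
    have hoddQ : Odd (Nat.card (G ⧸ N)) := by
      rw [hcardG] at hodd
      exact Nat.Odd.of_mul_right hodd
    have hrc : ringChar F ≠ 2 := by
      rw [ringChar.eq F 3]
      norm_num
    obtain ⟨k, hk1, hk⟩ := FiniteField.card F 3
    have hQpos : 0 < Nat.card (G ⧸ N) := Nat.card_pos
    have hF3 : 3 ≤ Fintype.card F := by
      rw [hk]
      calc 3 = 3 ^ 1 := by norm_num
        _ ≤ 3 ^ (k : ℕ) := Nat.pow_le_pow_right (by norm_num) k.pos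
    have hQlt : Nat.card (G ⧸ N) < n := by
      rw [← hn, hcardG]
      nlinarith
    have hQgood : Good (G ⧸ N) := IH _ hQlt (G ⧸ N) inferInstance hoddQ rfl
    by_cases hF33 : Fintype.card F = 3
    · obtain ⟨z1, z2, z3, -⟩ := quot_pgroup_card P N hPn hP3
      refine ext_R3 X hrc hodd (hQgood.2 ⟨P.map (QuotientGroup.mk' N), z1, z2, ?_⟩)
      have := z3 hNP
      rw [← hcardF, hF33] at this
      omega
    · have hF9 : 9 ≤ Fintype.card F := by
        rw [hk] at hF33 ⊢
        have : 2 ≤ (k : ℕ) := by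
          by_contra hcon
          have h1 : (k : ℕ) = 1 := by have := k.pos; omega
          exact hF33 (by rw [h1]; norm_num)
        calc 9 = 3 ^ 2 := by norm_num
          _ ≤ 3 ^ (k : ℕ) := Nat.pow_le_pow_right (by norm_num) this
      have hnot3 : ¬ IsPGroup 3 G := by
        intro h0
        have := min_normal_pgroup 3 hp h0 N hNn hNb hNmin
        rw [← hcardF] at this
        exact hF33 this
      by_cases hQ1 : Nat.card (G ⧸ N) = 1
      · exfalso
        apply hnot3
        rw [IsPGroup.iff_card]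
        exact ⟨k, by rw [hcardG, hQ1, hk, mul_one]⟩
      by_cases hQ3 : Nat.card (G ⧸ N) = 3
      · exfalso
        apply hnot3
        rw [IsPGroup.iff_card]
        exact ⟨k + 1, by rw [hcardG, hQ3, hk]; ring⟩
      by_cases hQ5 : Nat.card (G ⧸ N) = 5
      · have h5F : ¬ 5 ∣ Fintype.card F := by
          rw [hk]
          intro h0
          have := (Nat.prime_dvd_prime_iff_eq (by norm_num) Nat.prime_three).1
            (Nat.Prime.dvd_of_dvd_pow (by norm_num : Nat.Prime 5) h0)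
          omega
        obtain ⟨a, ha, haN⟩ := exists_elt_prime X 5 (by norm_num) hQ5 h5F
        obtain ⟨i2, i3⟩ := inherit X (fun ζ hζ hζc s hs0 =>
          ext_F5 X hrc (by omega) hQ5 a ha haN ζ hζ hζc s hs0)
        apply i3
        have hcardM : Nat.card (Multiplicative F) = Fintype.card F := by
          rw [Nat.card_congr Multiplicative.toAdd, Nat.card_eq_fintype_card]
        have hFlt : Fintype.card F < n := by
          rw [← hn, hcardG, hQ5]
          omega
        have hMul : Good (Multiplicative F) := by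
          refine IH _ hFlt (Multiplicative F) inferInstance ?_ hcardM
          rw [hcardM]
          rw [hcardG] at hodd
          exact Nat.Odd.of_mul_left hodd
        apply hMul.2
        refine ⟨⊤, inferInstance, ?_, ?_⟩
        · rw [IsPGroup.iff_card]
          exact ⟨k, by rw [Subgroup.card_top, hcardM, hk]⟩
        · rw [Subgroup.card_top, hcardM]; exact hF9
      · rcases hQgood.1 hQ1 hQ3 hQ5 with h0 | h0
        · exact ext_R2_char_three X hF9 h0
        · exact ext_R3 X hrc hodd h0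
  have B : (∃ P : Subgroup G, P.Normal ∧ IsPGroup 3 P ∧ 9 ≤ Nat.card P) → R3 G := by
    rintro ⟨P, hPn, hP3, hP9⟩
    obtain ⟨m, hm⟩ := IsPGroup.iff_card.1 hP3
    by_cases h9 : Nat.card P = 9
    · by_cases hPt : P = ⊤
      · have hcG : Nat.card G = 3 ^ 2 := by
          rw [← Subgroup.card_top (G := G), ← hPt, h9]; norm_num
        rcases card_nine_cases 3 Nat.prime_three hcG with ⟨⟨e⟩⟩ | ⟨⟨e⟩⟩
        · exact R3_of_equiv e R3_zmod_nine
        · exact R3_of_equiv e R3_three_three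
      · rcases normal_step hodd P hPn (by rw [h9]) hPt with h0 | ⟨P', hP'n, hP'3, hP'⟩
        · exact absurd h0 hr
        · obtain ⟨m', hm'⟩ := IsPGroup.iff_card.1 hP'3
          refine B27 ⟨P', hP'n, hP'3, ?_⟩
          rw [hm']
          apply pow_cases
          rw [← hm']
          omega
    · refine B27 ⟨P, hPn, hP3, ?_⟩
      rw [hm]
      apply pow_cases
      rw [← hm]
      omega
  refine ⟨?_, B⟩
  intro hc1 hc3 hc5
  right
  -- C: find a normal 3-subgroup of order at least 9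
  have hbt : (⊥ : Subgroup G) ≠ ⊤ := by
    intro h0
    apply hc1
    rw [← Subgroup.card_top (G := G), ← h0, Subgroup.card_bot]
  rcases normal_step hodd ⊥ inferInstance (by rw [Subgroup.card_bot]; exact one_dvd _) hbt
    with h0 | ⟨P', hP'n, hP'3, hP'⟩
  · exact absurd h0 hr
  obtain ⟨m', hm'⟩ := IsPGroup.iff_card.1 hP'3
  by_cases h9 : 9 ≤ Nat.card P'
  · exact B ⟨P', hP'n, hP'3, h9⟩
  have hcP3 : Nat.card P' = 3 := by
    rw [Subgroup.card_bot] at hP'
    rw [hm'] at hP' h9 ⊢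
    have : m' < 2 := by
      by_contra hcon
      apply h9
      calc 9 = 3 ^ 2 := by norm_num
        _ ≤ 3 ^ m' := Nat.pow_le_pow_right (by norm_num) (by omega)
    have h1 : m' = 0 ∨ m' = 1 := by omega
    rcases h1 with rfl | rfl
    · norm_num at hP'
    · norm_num
  have hP't : P' ≠ ⊤ := by
    intro h0
    apply hc3
    rw [← Subgroup.card_top (G := G), ← h0, hcP3]
  rcases normal_step hodd P' hP'n (by rw [hcP3]; norm_num) hP't
    with h0 | ⟨P'', hP''n, hP''3, hP''⟩
  · exact absurd h0 hr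
  obtain ⟨m'', hm''⟩ := IsPGroup.iff_card.1 hP''3
  refine B ⟨P'', hP''n, hP''3, ?_⟩
  rw [hcP3, hm''] at hP''
  rw [hm'']
  have : 2 ≤ m'' := by
    by_contra hcon
    have h1 : m'' = 0 ∨ m'' = 1 := by omega
    rcases h1 with rfl | rfl <;> norm_num at hP''
  calc 9 = 3 ^ 2 := by norm_num
    _ ≤ 3 ^ m'' := Nat.pow_le_pow_right (by norm_num) this

/-- Every finite solvable group of odd order is R-sequenceable. -/
theorem rseq_odd (G : Type) [Group G] [Fintype G] (hs : Group.IsSolvable G)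
    (hodd : Odd (Fintype.card G)) : RSeq G := by
  by_cases h3 : Fintype.card G = 3
  · exact rseq_card_three G h3
  by_cases h5 : Fintype.card G = 5
  · exact rseq_card_five G h5
  by_cases h1 : Fintype.card G = 1
  · refine ⟨fun _ => 1, ?_, ?_, ?_⟩
    · intro i hi; omega
    · intro i j hi; omega
    · intro i j hi; omega
  have hcard : Nat.card G = Fintype.card G := Nat.card_eq_fintype_card
  have hg := (good_all _ G hs (by rw [hcard]; exact hodd) rfl).1 (by rw [hcard]; exact h1)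
    (by rw [hcard]; exact h3) (by rw [hcard]; exact h5)
  rcases hg with ⟨θ, x, h, hO, hC, -⟩ | ⟨θ, x, h, k, hO, hC, -⟩
  · exact rseq_of_orth θ hO hC
  · exact rseq_of_orth θ hO hC

end LibRS
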