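import Pool.Agent.LibRS.Defs

set_option autoImplicit false

namespace LibRS
open Equiv

/-! basic facts on `Ext` -/
namespace Ext
variable {F G Q : Type} [Field F] [Group G] [Group Q] (X : Ext F G Q)

theorem ν_zero : X.ν 0 = 1 := by
  have h := X.ν_add 0 0
  simpa using h

theorem ν_neg (n : F) : X.ν (-n) = (X.ν n)⁻¹ := by
  have h := X.ν_add (-n) n
  rw [neg_add_cancel, X.ν_zero] at h
  exact eq_inv_of_mul_eq_one_left h.symm

theorem ν_mul (a b : F) : X.ν a * X.ν b = X.ν (a + b) := (X.ν_add a b).symm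

theorem ν_mul' (a b : F) (g : G) : X.ν a * (X.ν b * g) = X.ν (a + b) * g := by
  rw [X.ν_add, mul_assoc]

theorem π_ν (n : F) : X.π (X.ν n) = 1 := (X.π_ker _).2 ⟨n, rfl⟩

theorem ν_eq_one {n : F} (h : X.ν n = 1) : n = 0 := X.ν_inj (h.trans X.ν_zero.symm)

/-- conjugation -/
theorem mul_ν (g : G) (n : F) : g * X.ν n = X.ν (X.β g n) * g := X.β_spec g n

theorem mul_ν' (g a : G) (n : F) : g * (X.ν n * a) = X.ν (X.β g n) * (g * a) := by
  rw [← mul_assoc, X.β_spec, mul_assoc]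

/-- uniqueness of coordinates -/
theorem coord_inj {E : Q → G} (hE : ∀ y, X.π (E y) = y) {n n' : F} {y y' : Q}
    (h : X.ν n * E y = X.ν n' * E y') : n = n' ∧ y = y' := by
  have hy : y = y' := by
    have := congrArg X.π h
    simpa [X.π_ν, hE] using this
  subst hy
  exact ⟨X.ν_inj (mul_right_cancel h), rfl⟩

theorem exists_coord {E : Q → G} (hE : ∀ y, X.π (E y) = y) (a : G) :
    ∃ n, a = X.ν n * E (X.π a) := by
  obtain ⟨n, hn⟩ := (X.π_ker (a * (E (X.π a))⁻¹)).1 (by simp [hE])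
  exact ⟨n, by rw [hn]; group⟩

theorem β_congr {a b : G} (h : X.π a = X.π b) (n : F) : X.β a n = X.β b n := by
  obtain ⟨m, hm⟩ := (X.π_ker (a * b⁻¹)).1 (by simp [h])
  have hab : a = X.ν m * b := by rw [hm]; group
  have h1 : a * X.ν n = X.ν (X.β a n) * a := X.β_spec a n
  rw [hab, mul_assoc, X.β_spec b n, ← mul_assoc, X.ν_mul, ← mul_assoc, X.ν_mul] at h1
  have h2 := X.ν_inj (mul_right_cancel h1)
  rw [← hab] at h2
  have : m + X.β b n = m + X.β a n := by rw [h2]; ring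
  exact (add_left_cancel this).symm

end Ext

/-- `SameCycle` and invariant sets: a forward invariant set containing `a` contains `b`. -/
theorem not_sameCycle_of_inv {α : Type} [Finite α] (f : Perm α) (S : Set α)
    (hS : ∀ x ∈ S, f x ∈ S) {a b : α} (ha : a ∈ S) (hb : b ∉ S) : ¬ f.SameCycle a b := by
  intro h
  obtain ⟨i, -, -, hi⟩ := h.exists_pow_eq''
  apply hb
  rw [← hi]
  have : ∀ j : ℕ, (f ^ j) a ∈ S := by
    intro j
    induction j with
    | zero => simpa using ha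
    | succ j ih =>
      rw [pow_succ', Perm.mul_apply]
      exact hS _ ih
  exact this i

/-- evaluation of a product of two disjoint transpositions -/
theorem swap_swap_apply {α : Type} [DecidableEq α] {a b c d : α} (hac : a ≠ c) (had : a ≠ d)
    (hbc : b ≠ c) (hbd : b ≠ d) :
    (swap a b * swap c d) a = b ∧ (swap a b * swap c d) b = a ∧ (swap a b * swap c d) c = d ∧
    (swap a b * swap c d) d = c ∧
    ∀ y, y ≠ a → y ≠ b → y ≠ c → y ≠ d → (swap a b * swap c d) y = y := by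
  refine ⟨?_, ?_, ?_, ?_, ?_⟩
  · rw [Perm.mul_apply, swap_apply_of_ne_of_ne hac had, swap_apply_left]
  · rw [Perm.mul_apply, swap_apply_of_ne_of_ne hbc hbd, swap_apply_right]
  · rw [Perm.mul_apply, swap_apply_left, swap_apply_of_ne_of_ne had.symm hbd.symm]
  · rw [Perm.mul_apply, swap_apply_right, swap_apply_of_ne_of_ne hac.symm hbc.symm]
  · intro y h1 h2 h3 h4
    rw [Perm.mul_apply, swap_apply_of_ne_of_ne h3 h4, swap_apply_of_ne_of_ne h1 h2]

/-- three disjoint transpositions -/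
theorem six_sigma {α : Type} [DecidableEq α] {a b c d e f : α} (h : [a, b, c, d, e, f].Nodup) :
    (swap a b * swap c d * swap e f) a = b ∧ (swap a b * swap c d * swap e f) b = a ∧
    (swap a b * swap c d * swap e f) c = d ∧ (swap a b * swap c d * swap e f) d = c ∧
    (swap a b * swap c d * swap e f) e = f ∧ (swap a b * swap c d * swap e f) f = e ∧
    ∀ y, y ≠ a → y ≠ b → y ≠ c → y ≠ d → y ≠ e → y ≠ f →
      (swap a b * swap c d * swap e f) y = y := by
  simp only [List.nodup_cons, List.mem_cons, List.not_mem_nil, or_false, not_or,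
    List.nodup_nil, and_true, not_false_eq_true] at h
  obtain ⟨⟨h1, h2, h3, h4, h5⟩, ⟨h6, h7, h8, h9⟩, ⟨h10, h11, h12⟩, ⟨h13, h14⟩, h15⟩ := h
  refine ⟨?_, ?_, ?_, ?_, ?_, ?_, ?_⟩
  · rw [Perm.mul_apply, Perm.mul_apply, swap_apply_of_ne_of_ne h4 h5,
      swap_apply_of_ne_of_ne h2 h3, swap_apply_left]
  · rw [Perm.mul_apply, Perm.mul_apply, swap_apply_of_ne_of_ne h8 h9,
      swap_apply_of_ne_of_ne h6 h7, swap_apply_right]
  · rw [Perm.mul_apply, Perm.mul_apply, swap_apply_of_ne_of_ne h11 h12, swap_apply_left,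
      swap_apply_of_ne_of_ne (Ne.symm h3) (Ne.symm h7)]
  · rw [Perm.mul_apply, Perm.mul_apply, swap_apply_of_ne_of_ne h13 h14, swap_apply_right,
      swap_apply_of_ne_of_ne (Ne.symm h2) (Ne.symm h6)]
  · rw [Perm.mul_apply, Perm.mul_apply, swap_apply_left,
      swap_apply_of_ne_of_ne (Ne.symm h12) (Ne.symm h14),
      swap_apply_of_ne_of_ne (Ne.symm h5) (Ne.symm h9)]
  · rw [Perm.mul_apply, Perm.mul_apply, swap_apply_right,
      swap_apply_of_ne_of_ne (Ne.symm h11) (Ne.symm h13),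
      swap_apply_of_ne_of_ne (Ne.symm h4) (Ne.symm h8)]
  · intro y y1 y2 y3 y4 y5 y6
    rw [Perm.mul_apply, Perm.mul_apply, swap_apply_of_ne_of_ne y5 y6,
      swap_apply_of_ne_of_ne y3 y4, swap_apply_of_ne_of_ne y1 y2]

/-- two disjoint three-cycles `a → c → e → a`, `b → f → d → b` -/
theorem six_tau {α : Type} [DecidableEq α] {a b c d e f : α} (h : [a, b, c, d, e, f].Nodup) :
    ∃ τ : Perm α, τ a = c ∧ τ c = e ∧ τ e = a ∧ τ b = f ∧ τ f = d ∧ τ d = b ∧
    ∀ y, y ≠ a → y ≠ b → y ≠ c → y ≠ d → y ≠ e → y ≠ f → τ y = y := by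
  simp only [List.nodup_cons, List.mem_cons, List.not_mem_nil, or_false, not_or,
    List.nodup_nil, and_true, not_false_eq_true] at h
  obtain ⟨⟨h1, h2, h3, h4, h5⟩, ⟨h6, h7, h8, h9⟩, ⟨h10, h11, h12⟩, ⟨h13, h14⟩, h15⟩ := h
  refine ⟨(swap a c * swap c e) * (swap b f * swap f d), ?_, ?_, ?_, ?_, ?_, ?_, ?_⟩
  · rw [Perm.mul_apply, Perm.mul_apply, Perm.mul_apply, swap_apply_of_ne_of_ne h5 h3,
      swap_apply_of_ne_of_ne h1 h5, swap_apply_of_ne_of_ne h2 h4, swap_apply_left]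
  · rw [Perm.mul_apply, Perm.mul_apply, Perm.mul_apply, swap_apply_of_ne_of_ne h12 h10,
      swap_apply_of_ne_of_ne (Ne.symm h6) h12, swap_apply_left,
      swap_apply_of_ne_of_ne (Ne.symm h4) (Ne.symm h11)]
  · rw [Perm.mul_apply, Perm.mul_apply, Perm.mul_apply, swap_apply_of_ne_of_ne h15 (Ne.symm h13),
      swap_apply_of_ne_of_ne (Ne.symm h8) h15, swap_apply_right, swap_apply_right]
  · rw [Perm.mul_apply, Perm.mul_apply, Perm.mul_apply, swap_apply_of_ne_of_ne h9 h7,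
      swap_apply_left, swap_apply_of_ne_of_ne (Ne.symm h12) (Ne.symm h15),
      swap_apply_of_ne_of_ne (Ne.symm h5) (Ne.symm h12)]
  · rw [Perm.mul_apply, Perm.mul_apply, Perm.mul_apply, swap_apply_left,
      swap_apply_of_ne_of_ne (Ne.symm h7) h14, swap_apply_of_ne_of_ne (Ne.symm h10) h13,
      swap_apply_of_ne_of_ne (Ne.symm h3) (Ne.symm h10)]
  · rw [Perm.mul_apply, Perm.mul_apply, Perm.mul_apply, swap_apply_right, swap_apply_right,
      swap_apply_of_ne_of_ne h6 h8, swap_apply_of_ne_of_ne (Ne.symm h1) h6]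
  · intro y y1 y2 y3 y4 y5 y6
    rw [Perm.mul_apply, Perm.mul_apply, Perm.mul_apply, swap_apply_of_ne_of_ne y6 y4,
      swap_apply_of_ne_of_ne y2 y6, swap_apply_of_ne_of_ne y3 y5, swap_apply_of_ne_of_ne y1 y3]

end LibRS
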