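import Mathlib

/-!
# R-sequenceability of groups of odd order: definitions

`Orth θ`   : `θ` is a permutation of the group with `θ 1 = 1` and all quotients `x⁻¹ * θ x` distinct.
`OneCyc θ` : all non-identity elements lie in one cycle of `θ`.
`Pat2`, `Pat3` : two local configurations of such a permutation which allow to extend it to group extensions.
`Ext F G Q` : `G` has a normal subgroup `ν(F)` isomorphic to the additive group of the field `F`,
and `π : G → Q` is the quotient map.
-/

set_option autoImplicit false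

namespace LibRS

open Equiv

/-- `θ` fixes `1` and the quotients `x⁻¹ * θ x` are pairwise distinct. -/
def Orth {G : Type} [Group G] (θ : Perm G) : Prop :=
  θ 1 = 1 ∧ Function.Injective (fun x : G => x⁻¹ * θ x)

/-- All non-identity elements are in one cycle of `θ`. -/
def OneCyc {G : Type} [Group G] (θ : Perm G) : Prop :=
  ∀ x y : G, x ≠ 1 → y ≠ 1 → θ.SameCycle x y

/-- The first local pattern: `h x ↦ h ↦ h (θ x)`. -/
def Pat2 {G : Type} [Group G] (θ : Perm G) (x h : G) : Prop :=
  θ (h * x) = h ∧ θ h = h * θ x ∧ [1, x, h * x, h, θ x, h * θ x].Nodup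

/-- The second local pattern: with `f = θ x`, `F = h⁻¹ * θ h`:
`h x ↦ h ↦ h F`, `k x ↦ k F`, `k ↦ k f`. -/
def Pat3 {G : Type} [Group G] (θ : Perm G) (x h k : G) : Prop :=
  θ (h * x) = h ∧ θ k = k * θ x ∧ θ (k * x) = k * (h⁻¹ * θ h) ∧
  [1, x, h * x, h, k * x, k].Nodup ∧
  θ h ≠ h * x ∧ θ h ≠ k ∧ θ h ≠ x ∧ θ k ≠ h * x ∧ θ k ≠ x ∧
  θ x ≠ h * x ∧ θ x ≠ k * x ∧ θ x ≠ k ∧ θ (k * x) ≠ h * x ∧ θ (k * x) ≠ k ∧
  (θ h = k * x → θ (k * x) = x)

/-- `G` has a sequencing permutation with the first pattern. -/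
def R2 (G : Type) [Group G] : Prop :=
  ∃ (θ : Perm G) (x h : G), Orth θ ∧ OneCyc θ ∧ Pat2 θ x h

/-- `G` has a sequencing permutation with the second pattern. -/
def R3 (G : Type) [Group G] : Prop :=
  ∃ (θ : Perm G) (x h k : G), Orth θ ∧ OneCyc θ ∧ Pat3 θ x h k

/-- `G` is R-sequenceable: its non-identity elements can be cyclically listed so that all
successive quotients are distinct (the form used in the frozen statement). -/
def RSeq (G : Type) [Group G] [Fintype G] : Prop :=
  ∃ f : ℕ → G,
    (∀ i, i < Fintype.card G - 1 → f i ≠ 1) ∧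
    (∀ i j, i < Fintype.card G - 1 → j < Fintype.card G - 1 → f i = f j → i = j) ∧
    (∀ i j, i < Fintype.card G - 1 → j < Fintype.card G - 1 →
      (f i)⁻¹ * f ((i + 1) % (Fintype.card G - 1)) =
        (f j)⁻¹ * f ((j + 1) % (Fintype.card G - 1)) → i = j)

/-- `ν(F)` is a normal subgroup of `G` isomorphic to the additive group of the field `F`, and
`π : G → Q` is a surjective homomorphism with kernel `ν(F)`; `β g` is conjugation by `g` on `ν(F)`. -/
structure Ext (F G Q : Type) [Field F] [Group G] [Group Q] where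
  /-- the embedding of the additive group of `F` -/
  ν : F → G
  ν_add : ∀ a b, ν (a + b) = ν a * ν b
  ν_inj : Function.Injective ν
  /-- the quotient map -/
  π : G →* Q
  π_surj : Function.Surjective π
  π_ker : ∀ g, π g = 1 ↔ ∃ n, ν n = g
  /-- conjugation -/
  β : G → F ≃+ F
  β_spec : ∀ g n, g * ν n = ν (β g n) * g

/-- The permutation `(n, y) ↦ (c y * n, θ y)` of `F × Q`. -/
def liftPerm {F Q : Type} [Field F] (θ : Perm Q) (c : Q → F) (hc : ∀ y, c y ≠ 0) :
    Perm (F × Q) where
  toFun p := (c p.2 * p.1, θ p.2)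
  invFun p := ((c (θ.symm p.2))⁻¹ * p.1, θ.symm p.2)
  left_inv p := by
    rcases p with ⟨n, y⟩
    simp [hc y]
  right_inv p := by
    rcases p with ⟨n, y⟩
    simp [hc]

/-- `g` generates the multiplicative group of the field. -/
def Prim {F : Type} [Field F] (g : F) : Prop := g ≠ 0 ∧ ∀ a : F, a ≠ 0 → ∃ i : ℕ, a = g ^ i

end LibRS
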