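import Pool.Agent.LibRS.Defs

set_option autoImplicit false
namespace LibRS
open Equiv

theorem t01_cycleOn {G : Type} [Group G] [Fintype G] [DecidableEq G] (θ : Perm G) (h1 : θ 1 = 1)
    (hc : OneCyc θ) : θ.IsCycleOn ((Finset.univ.erase (1 : G) : Finset G) : Set G) := by
  refine ⟨⟨?_, θ.injective.injOn, ?_⟩, ?_⟩
  · intro x hx
    simp only [Finset.coe_erase, Finset.coe_univ, Set.mem_diff, Set.mem_univ,
      Set.mem_singleton_iff, true_and] at hx ⊢
    intro h
    exact hx (θ.injective (h.trans h1.symm))
  · intro y hy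
    simp only [Finset.coe_erase, Finset.coe_univ, Set.mem_diff, Set.mem_univ,
      Set.mem_singleton_iff, true_and] at hy
    refine ⟨θ.symm y, ?_, by simp⟩
    simp only [Finset.coe_erase, Finset.coe_univ, Set.mem_diff, Set.mem_univ,
      Set.mem_singleton_iff, true_and]
    intro h
    apply hy
    have := congrArg θ h
    simpa [h1] using this
  · intro x hx y hy
    simp only [Finset.coe_erase, Finset.coe_univ, Set.mem_diff, Set.mem_univ,
      Set.mem_singleton_iff, true_and] at hx hy
    exact hc x y hx hy

theorem rseq_of_orth {G : Type} [Group G] [Fintype G] (θ : Perm G) (h : Orth θ)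
    (hc : OneCyc θ) : RSeq G := by
  classical
  by_cases hG : ∃ a : G, a ≠ 1
  · obtain ⟨a, ha⟩ := hG
    have hcyc := t01_cycleOn θ h.1 hc
    have hcard : (Finset.univ.erase (1 : G)).card = Fintype.card G - 1 := by
      rw [Finset.card_erase_of_mem (Finset.mem_univ _), Finset.card_univ]
    have hmem : a ∈ Finset.univ.erase (1 : G) := by simp [ha]
    set m := Fintype.card G - 1 with hm
    have hpow1 : ∀ i : ℕ, (θ ^ i) a ≠ 1 := by
      intro i hi
      have h1 : ∀ i : ℕ, (θ ^ i) (1 : G) = 1 := by
        intro i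
        induction i with
        | zero => simp
        | succ i ih => rw [pow_succ', Perm.mul_apply, ih, h.1]
      apply ha
      apply (θ ^ i).injective
      rw [hi, h1]
    have hinj : ∀ i j : ℕ, i < m → j < m → (θ ^ i) a = (θ ^ j) a → i = j := by
      intro i j hi hj hij
      have := (hcyc.pow_apply_eq_pow_apply hmem).1 hij
      rw [hcard] at this
      exact Nat.ModEq.eq_of_lt_of_lt this hi hj
    have hstep : ∀ i : ℕ, i < m → (θ ^ ((i + 1) % m)) a = θ ((θ ^ i) a) := by
      intro i hi
      have : (θ ^ ((i + 1) % m)) a = (θ ^ (i + 1)) a := by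
        apply (hcyc.pow_apply_eq_pow_apply hmem).2
        rw [hcard]
        exact Nat.mod_modEq _ _
      rw [this, pow_succ', Perm.mul_apply]
    refine ⟨fun i => (θ ^ i) a, fun i _ => hpow1 i, fun i j hi hj hij => hinj i j hi hj hij, ?_⟩
    intro i j hi hj hij
    simp only at hij
    rw [hstep i hi, hstep j hj] at hij
    exact hinj i j hi hj (h.2 hij)
  · push Not at hG
    have hc1 : Fintype.card G ≤ 1 := by
      rw [Fintype.card_le_one_iff]
      intro x y
      rw [hG x, hG y]
    have : Fintype.card G - 1 = 0 := by omega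
    refine ⟨fun _ => 1, ?_, ?_, ?_⟩ <;> rw [this] <;> intros <;> omega

end LibRS
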