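import Pool.Agent.LibRS.Defs

set_option autoImplicit false
namespace LibRS
open Equiv

variable {F G Q : Type}

theorem t03_cycleOn {G : Type} [Group G] [Fintype G] [DecidableEq G] (θ : Perm G) (h1 : θ 1 = 1)
    (hc : OneCyc θ) : θ.IsCycleOn ((Finset.univ.erase (1 : G) : Finset G) : Set G) := by
  refine ⟨⟨?_, θ.injective.injOn, ?_⟩, ?_⟩
  · intro x hx
    simp only [Finset.coe_erase, Finset.coe_univ, Set.mem_sdiff, Set.mem_univ,
      Set.mem_singleton_iff, true_and] at hx ⊢
    intro h
    exact hx (θ.injective (h.trans h1.symm))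
  · intro y hy
    simp only [Finset.coe_erase, Finset.coe_univ, Set.mem_sdiff, Set.mem_univ,
      Set.mem_singleton_iff, true_and] at hy
    refine ⟨θ.symm y, ?_, by simp⟩
    simp only [Finset.coe_erase, Finset.coe_univ, Set.mem_sdiff, Set.mem_univ,
      Set.mem_singleton_iff, true_and]
    intro h
    apply hy
    have := congrArg θ h
    simpa [h1] using this
  · intro x hx y hy
    simp only [Finset.coe_erase, Finset.coe_univ, Set.mem_sdiff, Set.mem_univ,
      Set.mem_singleton_iff, true_and] at hx hy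
    exact hc x y hx hy

theorem t03_pow [Field F] (θ : Perm Q) (c : Q → F) (hc0 : ∀ y, c y ≠ 0) (n : F) (y : Q) (i : ℕ) :
    (liftPerm θ c hc0 ^ i) (n, y)
      = ((∏ j ∈ Finset.range i, c ((θ ^ j) y)) * n, (θ ^ i) y) := by
  induction i with
  | zero => simp
  | succ i ih =>
    rw [pow_succ', Perm.mul_apply, ih, Finset.prod_range_succ, pow_succ', Perm.mul_apply]
    simp only [liftPerm, coe_fn_mk, Prod.mk.injEq, and_true]
    ring

theorem liftPerm_pow_card [Field F] [Group Q] [Fintype Q] [DecidableEq Q] (θ : Perm Q)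
    (h1 : θ 1 = 1) (hc : OneCyc θ) (c : Q → F) (hc0 : ∀ y, c y ≠ 0) (n : F) (y : Q) (hy : y ≠ 1) :
    (liftPerm θ c hc0 ^ (Fintype.card Q - 1)) (n, y)
      = ((∏ y' ∈ Finset.univ.erase (1 : Q), c y') * n, y) := by
  rw [t03_pow]
  have hcyc := t03_cycleOn θ h1 hc
  have hcard : (Finset.univ.erase (1 : Q)).card = Fintype.card Q - 1 := by
    rw [Finset.card_erase_of_mem (Finset.mem_univ _), Finset.card_univ]
  have hmem : y ∈ Finset.univ.erase (1 : Q) := by simp [hy]
  have h2 : (θ ^ (Fintype.card Q - 1)) y = y := by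
    rw [← hcard]
    exact hcyc.pow_card_apply hmem
  rw [h2]
  have hmaps : ∀ i : ℕ, (θ ^ i) y ≠ 1 := by
    intro i hi
    have h1' : ∀ i : ℕ, (θ ^ i) (1 : Q) = 1 := by
      intro i
      induction i with
      | zero => simp
      | succ i ih => rw [pow_succ', Perm.mul_apply, ih, h1]
    apply hy
    apply (θ ^ i).injective
    rw [hi, h1']
  have hinj : Set.InjOn (fun j : ℕ => (θ ^ j) y) (Finset.range (Fintype.card Q - 1) : Set ℕ) := by
    intro i hi j hj hij
    simp only [Finset.coe_range, Set.mem_Iio] at hi hj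
    have := (hcyc.pow_apply_eq_pow_apply hmem).1 hij
    rw [hcard] at this
    exact Nat.ModEq.eq_of_lt_of_lt this hi hj
  have himg : (Finset.range (Fintype.card Q - 1)).image (fun j : ℕ => (θ ^ j) y)
      = Finset.univ.erase (1 : Q) := by
    apply Finset.eq_of_subset_of_card_le
    · intro z hz
      simp only [Finset.mem_image] at hz
      obtain ⟨j, -, rfl⟩ := hz
      simp [hmaps j]
    · rw [hcard, Finset.card_image_of_injOn hinj, Finset.card_range]
  rw [← himg, Finset.prod_image hinj]

end LibRS
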