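import Pool.Agent.LibRS.Defs

set_option autoImplicit false
namespace LibRS
open Equiv

variable {F G Q : Type}

/-- one can prescribe the product by changing two values -/
theorem exists_scalars [Field F] [Fintype F] [Fintype Q] [DecidableEq Q] (hF : 4 ≤ Fintype.card F)
    (c₀ : Q → F) (h0 : ∀ y, c₀ y ≠ 0) (h1 : ∀ y, c₀ y ≠ 1) (S : Finset Q) (y₁ y₂ : Q)
    (hy₁ : y₁ ∈ S) (hy₂ : y₂ ∈ S) (hne : y₁ ≠ y₂) (t : F) (ht : t ≠ 0) :
    ∃ c : Q → F, (∀ y, c y ≠ 0) ∧ (∀ y, c y ≠ 1) ∧ (∀ y, y ≠ y₁ → y ≠ y₂ → c y = c₀ y) ∧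
      ∏ y ∈ S, c y = t := by
  classical
  set P := ∏ y ∈ (S.erase y₁).erase y₂, c₀ y with hP
  have hP0 : P ≠ 0 := Finset.prod_ne_zero_iff.2 (fun y _ => h0 y)
  set T := t / P with hT
  have hT0 : T ≠ 0 := div_ne_zero ht hP0
  obtain ⟨c₁, hc₁⟩ : ∃ c₁ : F, c₁ ∉ ({0, 1, T} : Finset F) := by
    by_contra hcon
    push Not at hcon
    have : (Finset.univ : Finset F) ⊆ {0, 1, T} := fun x _ => hcon x
    have h3 := Finset.card_le_card this
    have h4 : ({0, 1, T} : Finset F).card ≤ 3 := Finset.card_le_three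
    rw [Finset.card_univ] at h3
    omega
  simp only [Finset.mem_insert, Finset.mem_singleton, not_or] at hc₁
  obtain ⟨hc10, hc11, hc1T⟩ := hc₁
  refine ⟨fun y => if y = y₁ then c₁ else if y = y₂ then T / c₁ else c₀ y, ?_, ?_, ?_, ?_⟩
  · intro y
    simp only
    split_ifs
    · exact hc10
    · exact div_ne_zero hT0 hc10
    · exact h0 y
  · intro y
    simp only
    split_ifs
    · exact hc11
    · intro h
      rw [div_eq_one_iff_eq hc10] at h
      exact hc1T h.symm
    · exact h1 y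
  · intro y hy1 hy2
    simp [hy1, hy2]
  · have hy2' : y₂ ∈ S.erase y₁ := Finset.mem_erase.2 ⟨hne.symm, hy₂⟩
    rw [← Finset.mul_prod_erase S _ hy₁, ← Finset.mul_prod_erase (S.erase y₁) _ hy2']
    have : ∏ y ∈ (S.erase y₁).erase y₂,
        (if y = y₁ then c₁ else if y = y₂ then T / c₁ else c₀ y) = P := by
      rw [hP]
      apply Finset.prod_congr rfl
      intro y hy
      simp only [Finset.mem_erase] at hy
      simp [hy.1, hy.2.1]
    rw [this]
    simp only [if_true, hne.symm, if_false]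
    rw [hT]
    field_simp

end LibRS
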